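import Pool.Agent.MP_7235ad_an.Newton

set_option autoImplicit false
set_option linter.unusedSimpArgs false
set_option linter.unusedVariables false

namespace Pool.Agent.FourBody

open Complex

section
variable (m W σ : ℝ) (u u1 u2 : ℝ → ℂ) (z z1 z2 : ℝ → ℝ)

noncomputable def pA (t : ℝ) : ℂ × ℝ := (u t, z t)
noncomputable def pB (t : ℝ) : ℂ × ℝ := ro ze (u (t - th), z (t - th))
noncomputable def pC (t : ℝ) : ℂ × ℝ := ro (ze ^ 2) (u (t - 2 * th), z (t - 2 * th))
noncomputable def pS (t : ℝ) : ℂ × ℝ := pA u z t + pB u z t + pC u z t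
noncomputable def ac (t : ℝ) : ℂ × ℝ :=
  (W * (u t - 2 * I * σ * u1 t - σ ^ 2 * u2 t), -(W * σ ^ 2) * z2 t)

end

section
variable {m W σ : ℝ} {u u1 u2 : ℝ → ℂ} {z z1 z2 : ℝ → ℝ}

theorem shiftA (t : ℝ) : ro ze (pA u z (t - th)) = pB u z t := rfl

theorem shiftB (t : ℝ) : ro ze (pB u z (t - th)) = pC u z t := by
  unfold pB pC
  rw [ro_ro, sub_sub, ← two_mul, ← sq]

theorem shiftC (pu : ∀ t, u (t - 3 * th) = u t) (pz : ∀ t, z (t - 3 * th) = z t) (t : ℝ) :
    ro ze (pC u z (t - th)) = pA u z t := by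
  unfold pC pA
  have h1 : t - th - 2 * th = t - 3 * th := by ring
  rw [ro_ro, h1, pu, pz, ← pow_succ', ze_cube]
  simp

theorem newtA (S : Sol m W σ u u1 u2 z z1 z2) (t : ℝ) :
    ac W σ u u1 u2 z2 t = fo 1 (pA u z t + m • pS u z t) + fo m (pA u z t - pB u z t)
      + fo m (pA u z t - pC u z t) := by
  have h1 := S.newt1 t
  have h2 := S.newt2 t
  unfold ac
  refine Prod.ext ?_ ?_
  · simp only [h1, pA, pB, pC, pS, fo, ro_apply, Prod.fst_add, Prod.snd_add, Prod.fst_sub,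
      Prod.snd_sub, Prod.smul_fst, Prod.smul_snd, Complex.real_smul, smul_eq_mul]
  · simp only [h2, pA, pB, pC, pS, fo, ro_apply, Prod.fst_add, Prod.snd_add, Prod.fst_sub,
      Prod.snd_sub, Prod.smul_fst, Prod.smul_snd, Complex.real_smul, smul_eq_mul]

theorem pS_shift (pu : ∀ t, u (t - 3 * th) = u t) (pz : ∀ t, z (t - 3 * th) = z t) (t : ℝ) :
    ro ze (pS u z (t - th)) = pS u z t := by
  unfold pS
  rw [map_add, map_add, shiftA, shiftB, shiftC pu pz]
  abel

theorem newtB (S : Sol m W σ u u1 u2 z z1 z2) (t : ℝ) :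
    ro ze (ac W σ u u1 u2 z2 (t - th)) = fo 1 (pB u z t + m • pS u z t) + fo m (pB u z t - pC u z t)
      + fo m (pB u z t - pA u z t) := by
  rw [newtA S, map_add, map_add, ro_fo _ _ _ norm_ze, ro_fo _ _ _ norm_ze, ro_fo _ _ _ norm_ze,
    map_add, map_sub, map_sub, map_smul, shiftA, shiftB, shiftC S.pu S.pz, pS_shift S.pu S.pz]

theorem newtC (S : Sol m W σ u u1 u2 z z1 z2) (t : ℝ) :
    ro (ze ^ 2) (ac W σ u u1 u2 z2 (t - 2 * th)) = fo 1 (pC u z t + m • pS u z t)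
      + fo m (pC u z t - pA u z t) + fo m (pC u z t - pB u z t) := by
  have h1 : t - 2 * th = t - th - th := by ring
  rw [sq, ← ro_ro, h1, newtB S, map_add, map_add, ro_fo _ _ _ norm_ze, ro_fo _ _ _ norm_ze,
    ro_fo _ _ _ norm_ze,
    map_add, map_sub, map_sub, map_smul, shiftA, shiftB, shiftC S.pu S.pz, pS_shift S.pu S.pz]

end

section
variable (w κ : ℝ)

/-- the motion in the inertial frame of a body with reduced motion `(u, z)` -/
noncomputable def Gx (c : ℂ) (a : ℝ) (u : ℝ → ℂ) (z : ℝ → ℝ) (τ : ℝ) : V3 :=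
  emb (ro (Complex.exp (I * (w * τ))) (ro c (u (κ * τ - a), z (κ * τ - a))))

theorem Gx_deriv (c : ℂ) (a : ℝ) {u u1 : ℝ → ℂ} {z z1 : ℝ → ℝ}
    (hu : ∀ t, HasDerivAt u (u1 t) t) (hz : ∀ t, HasDerivAt z (z1 t) t) (τ : ℝ) :
    HasDerivAt (Gx w κ c a u z)
      (Gx w κ c a (fun t => I * w * u t + κ * u1 t) (fun t => κ * z1 t) τ) τ := by
  have hl : HasDerivAt (fun τ : ℝ => κ * τ - a) κ τ := by
    simpa using ((hasDerivAt_id τ).const_mul κ).sub_const a
  have h1 : HasDerivAt (fun τ : ℝ => u (κ * τ - a)) (κ • u1 (κ * τ - a)) τ :=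
    HasDerivAt.scomp τ (hu _) hl
  have h2 : HasDerivAt (fun τ : ℝ => z (κ * τ - a)) (κ • z1 (κ * τ - a)) τ :=
    HasDerivAt.scomp τ (hz _) hl
  have h3 : HasDerivAt (fun τ : ℝ => Complex.exp (I * (w * τ)))
      (Complex.exp (I * (w * τ)) * (I * w)) τ := by
    have h4 : HasDerivAt (fun τ : ℝ => I * (w * (τ : ℂ))) (I * w) τ := by
      have h5 : HasDerivAt (fun τ : ℝ => (τ : ℂ)) 1 τ := (hasDerivAt_id τ).ofReal_comp
      simpa using (h5.const_mul (w : ℂ)).const_mul I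
    exact h4.cexp
  have h6 := h3.mul (h1.const_mul c)
  have h7 := h6.prodMk h2
  have h8 := (emb.hasFDerivAt (x := (Complex.exp (I * (w * τ)) * (c * u (κ * τ - a)),
    z (κ * τ - a)))).comp_hasDerivAt τ h7
  refine h8.congr_deriv ?_
  unfold Gx
  simp only [ro_apply]
  congr 1
  refine Prod.ext ?_ ?_
  · simp only [Complex.real_smul]; ring
  · simp

end

section
variable {m W σ : ℝ} {u u1 u2 : ℝ → ℂ} {z z1 z2 : ℝ → ℝ}

/-- complex exponential rotation -/
noncomputable def ex (w τ : ℝ) : ℂ := Complex.exp (I * (w * τ))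

theorem norm_ex (w τ : ℝ) : ‖ex w τ‖ = 1 := by
  unfold ex
  have : I * (w * τ : ℂ) = ((w * τ : ℝ) : ℂ) * I := by push_cast; ring
  rw [this, Complex.norm_exp_ofReal_mul_I]

theorem Gx_second (c : ℂ) (a : ℝ) {w : ℝ} (hw : w * w = W) (τ : ℝ) :
    Gx w (σ * w) c a (fun t => I * w * (I * w * u t + (σ * w : ℝ) * u1 t)
        + (σ * w : ℝ) * (I * w * u1 t + (σ * w : ℝ) * u2 t))
      (fun t => (σ * w) * ((σ * w) * z2 t)) τ
      = -emb (ro (ex w τ) (ro c (ac W σ u u1 u2 z2 (σ * w * τ - a)))) := by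
  unfold Gx ex ac
  rw [← map_neg, ← map_neg, ← map_neg]
  congr 3
  have hw' : (w : ℂ) * w = W := by exact_mod_cast hw
  refine Prod.ext ?_ ?_
  · simp only [Prod.fst_neg]
    push_cast
    linear_combination (-(u (σ * w * τ - a)) + 2 * I * σ * u1 (σ * w * τ - a)
      + σ ^ 2 * u2 (σ * w * τ - a)) * hw' + (w ^ 2 * u (σ * w * τ - a)) * Complex.I_sq
  · simp only [Prod.snd_neg]
    linear_combination (σ ^ 2 * z2 (σ * w * τ - a)) * hw

theorem contDiff_Gx (w κ : ℝ) (c : ℂ) (a : ℝ) 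
    (hu : ∀ t, HasDerivAt u (u1 t) t) (hz : ∀ t, HasDerivAt z (z1 t) t)
    (hu1 : ∀ t, HasDerivAt u1 (u2 t) t) (hz1 : ∀ t, HasDerivAt z1 (z2 t) t)
    (hu2 : Continuous u2) (hz2 : Continuous z2) :
    ContDiff ℝ 2 (Gx w κ c a u z) ∧
    (∀ τ, deriv (deriv (Gx w κ c a u z)) τ =
      Gx w κ c a (fun t => I * w * (I * w * u t + κ * u1 t) + κ * (I * w * u1 t + κ * u2 t))
        (fun t => κ * (κ * z2 t)) τ) ∧
    (∀ τ, deriv (Gx w κ c a u z) τ =
      Gx w κ c a (fun t => I * w * u t + κ * u1 t) (fun t => κ * z1 t) τ) := by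
  have h1 : deriv (Gx w κ c a u z) =
      Gx w κ c a (fun t => I * w * u t + κ * u1 t) (fun t => κ * z1 t) := by
    ext1 τ
    exact (Gx_deriv w κ c a hu hz τ).deriv
  have hq : ∀ t, HasDerivAt (fun t => I * w * u t + κ * u1 t) (I * w * u1 t + κ * u2 t) t := fun t =>
    ((hu t).const_mul _).add ((hu1 t).const_mul _)
  have hq' : ∀ t, HasDerivAt (fun t => κ * z1 t) (κ * z2 t) t := fun t => (hz1 t).const_mul _
  have h2 : ∀ τ, HasDerivAt (Gx w κ c a (fun t => I * w * u t + κ * u1 t) (fun t => κ * z1 t))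
      (Gx w κ c a (fun t => I * w * (I * w * u t + κ * u1 t) + κ * (I * w * u1 t + κ * u2 t))
        (fun t => κ * (κ * z2 t)) τ) τ := fun τ => Gx_deriv w κ c a hq hq' τ
  have h3 : deriv (deriv (Gx w κ c a u z)) =
      Gx w κ c a (fun t => I * w * (I * w * u t + κ * u1 t) + κ * (I * w * u1 t + κ * u2 t))
        (fun t => κ * (κ * z2 t)) := by
    rw [h1]; ext1 τ; exact (h2 τ).deriv
  refine ⟨?_, fun τ => congrFun h3 τ, fun τ => congrFun h1 τ⟩
  have hcu : Continuous u := continuous_iff_continuousAt.2 fun t => (hu t).continuousAt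
  have hcu1 : Continuous u1 := continuous_iff_continuousAt.2 fun t => (hu1 t).continuousAt
  have h4 : ContDiff ℝ (1 + 1) (Gx w κ c a u z) := by
    rw [contDiff_succ_iff_deriv]
    refine ⟨fun τ => (Gx_deriv w κ c a hu hz τ).differentiableAt, by simp, ?_⟩
    rw [contDiff_one_iff_deriv, h3]
    constructor
    · rw [h1]; exact fun τ => (h2 τ).differentiableAt
    · unfold Gx
      apply emb.continuous.comp
      simp only [ro_apply]
      fun_prop
  exact h4

end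

end Pool.Agent.FourBody
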