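import Pool.Agent.MP_7235ad_an.Inv

set_option autoImplicit false
set_option linter.unusedSimpArgs false
set_option linter.unusedVariables false

namespace Pool.Agent.FourBody

theorem al_one : al 1 = 4 * W0 + C10 / 2 := by
  rw [al1 (by norm_num)]; norm_num; ring
theorem al_neg_one : al (-1) = W0 / 2 := by
  rw [al2 (by norm_num)]; norm_num
theorem be_one : be 1 = 3 / 2 := be1 (by norm_num)
theorem be_neg_one : be (-1) = 3 / 2 * C10 := be2 (by norm_num)
theorem al_zero : al 0 = 3 / 2 * W0 := by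
  rw [al0 (by norm_num)]; norm_num; ring
theorem be_zero : be 0 = 3 / 2 * W0 := be0 (by norm_num)

noncomputable def vW (n : ℤ) : ℝ :=
  if n = 1 then 12 + 3 / 2 * kk else if n = -1 then 9 / 2 * kk - bb / 2 else 0
noncomputable def vσ (n : ℤ) : ℝ := if n = 1 then 12 * W0 else 0

theorem T1 (f g p s : E) (σ W : ℝ) (n : ℤ) :
    (T (f, g, p, s, σ, W)).1 n =
      (al n * f n + be n * f (-n)) / (1 + (n : ℝ) ^ 2) + σ * vσ n + W * vW n := by
  have e : (T (f, g, p, s, σ, W)).1 n =
      (al n * f n + be n * f (-n)) / (1 + (n : ℝ) ^ 2)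
      + (2 * W0 * σ) * (N2 f0 n + N1 f0 n) + W * (N2 f0 n + 2 * N1 f0 n + Km f0 n + A4 f0 n) := by
    simp only [T, A0, A4, ContinuousLinearMap.prod_apply, prf_apply, add_app, smul_app, N1_apply,
      N2_apply, Km_apply, P1_apply, Qm_apply, R_apply, prW_apply, prσ_apply,
      add_apply, smul_apply, ContinuousLinearMap.smulRight_apply, smul_eq_mul,
      ContinuousLinearMap.comp_apply]
    unfold al be
    have h0 := (one_add_sq_pos n).ne'
    have h1 : ((-n : ℤ) : ℝ) = -(n : ℝ) := by push_cast; ring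
    have h2 : (1 : ℤ) - (-n) = 1 + n := by ring
    simp only [h1, h2, neg_neg, neg_sq]
    field_simp
    ring
  rw [e]
  have h3 : (2 * W0 * σ) * (N2 f0 n + N1 f0 n) = σ * vσ n := by
    simp only [N1_apply, N2_apply, f0_apply, vσ]
    by_cases e1 : n = 1
    · subst e1; norm_num; ring
    · by_cases e2 : n = -1
      · subst e2; norm_num
      · simp [e1, e2]
  have h4 : N2 f0 n + 2 * N1 f0 n + Km f0 n + A4 f0 n = vW n := by
    simp only [N1_apply, N2_apply, Km_apply, A4, add_apply, smul_apply, P1_apply, Qm_apply, R_apply,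
      ContinuousLinearMap.comp_apply, add_app, smul_app, f0_apply, vW]
    by_cases e1 : n = 1
    · subst e1; simp [i1, chi]; ring
    · by_cases e2 : n = -1
      · subst e2; simp [i1, chi]; ring
      · have e3 : ¬ (-n = 1) := by omega
        simp [e1, e2, e3]
  rw [h3, h4]

theorem i0_neg (n : ℤ) : i0 (-n) = i0 n := by
  unfold i0
  have : (-n) % 3 = 0 ↔ n % 3 = 0 := by omega
  simp only [this]

theorem chi_neg (n : ℤ) : chi (-n) = -chi n := by
  rcases (by omega : n % 3 = 0 ∨ n % 3 = 1 ∨ n % 3 = 2) with h | h | h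
  · rw [chi_of0 h, chi_of0 (by omega)]; simp
  · rw [chi_of1 h, chi_of2 (by omega)]
  · rw [chi_of2 h, chi_of1 (by omega)]; simp

theorem T2 (f g p s : E) (σ W : ℝ) (n : ℤ) :
    (T (f, g, p, s, σ, W)).2.1 n =
      ell n / (1 + (n : ℝ) ^ 2) * sy g n + od g n + (if n = 1 ∨ n = -1 then 2 * W0 * σ else 0) := by
  have e : (T (f, g, p, s, σ, W)).2.1 n =
      ell n / (1 + (n : ℝ) ^ 2) * sy g n + od g n
      + ((W + 2 * W0 * σ) * (B1 g0 n) + W * B4 g0 n) := by
    simp only [T, B0, B1, B4, ContinuousLinearMap.prod_apply, prg_apply, add_app, smul_app, N1_apply,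
      N2_apply, Km_apply, P0_apply, Qp_apply, sy_apply, od_apply, prW_apply, prσ_apply,
      add_apply, smul_apply, sub_apply, neg_apply, neg_app, sub_app,
      ContinuousLinearMap.smulRight_apply, smul_eq_mul, i0_neg, chi_neg,
      ContinuousLinearMap.comp_apply]
    unfold ell
    have h0 := (one_add_sq_pos n).ne'
    have h1 : ((-n : ℤ) : ℝ) = -(n : ℝ) := by push_cast; ring
    simp only [h1, neg_neg, neg_sq]
    field_simp
    ring
  rw [e]
  have h3 : ((W + 2 * W0 * σ) * (B1 g0 n) + W * B4 g0 n)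
      = (if n = 1 ∨ n = -1 then 2 * W0 * σ else 0) := by
    simp only [B0, B1, B4, g0, sy_apply, od_apply, add_app, smul_app, N2_apply, Km_apply, P0_apply, Qp_apply,
      add_apply, smul_apply, neg_apply,
      sub_apply, neg_app, sub_app,
      ContinuousLinearMap.comp_apply, pr11_apply]
    by_cases e1 : n = 1
    · subst e1
      simp [i0, chi]
      ring
    · by_cases e2 : n = -1
      · subst e2
        simp [i0, chi]
        ring
      · have e3 : ¬ (-n = 1) := by omega
        simp [e1, e2, e3]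
  rw [h3]

theorem det_ne : (3 / 4) * (9 / 2 * kk - bb / 2) - (W0 / 4) * (12 + 3 / 2 * kk) ≠ 0 := by
  have h : (3 / 4) * (9 / 2 * kk - bb / 2) - (W0 / 4) * (12 + 3 / 2 * kk) = 3 / 8 * (17 - 8 * kk) := by
    unfold bb C10; linear_combination (-3 / 4) * W0_eq
  rw [h]
  have := kk_lb
  intro h0
  nlinarith

theorem ell_one : ell 1 = 0 := by
  rw [ell1 (by norm_num)]; norm_num
theorem ell_neg_one : ell (-1) = 0 := by
  rw [ell1 (by norm_num)]; norm_num

theorem ell_bd {n : ℤ} (h1 : n ≠ 1) (h2 : n ≠ -1) : 1 + (n : ℝ) ^ 2 ≤ |ell n| := by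
  have hW := W0_lb
  have hC := C10_lb
  have hC' := C10_ub
  by_cases h : n % 3 = 0
  · rw [ell0 h]
    by_cases h0 : n = 0
    · subst h0
      rw [abs_of_neg (by norm_num; linarith)]
      norm_num; linarith
    · have hn2 : (9 : ℝ) ≤ (n : ℝ) ^ 2 := by
        have : (9 : ℤ) ≤ n ^ 2 := by
          rcases (by omega : n ≤ -3 ∨ 3 ≤ n) with h | h <;> nlinarith
        exact_mod_cast this
      have h3 : 2.85 * (n : ℝ) ^ 2 ≤ W0 * (n : ℝ) ^ 2 :=
        mul_le_mul_of_nonneg_right hW.le (sq_nonneg _)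
      rw [abs_of_nonneg (by linarith)]
      linarith
  · rw [ell1 h]
    have hn2 : (4 : ℝ) ≤ (n : ℝ) ^ 2 := by
      have : (4 : ℤ) ≤ n ^ 2 := by
        rcases (by omega : n ≤ -2 ∨ 2 ≤ n) with h | h <;> nlinarith
      exact_mod_cast this
    have h3 : 2.85 * ((n : ℝ) ^ 2 - 1) ≤ W0 * ((n : ℝ) ^ 2 - 1) :=
      mul_le_mul_of_nonneg_right hW.le (by linarith)
    rw [abs_of_nonneg (by linarith)]
    linarith

theorem ell_ne {n : ℤ} (h1 : n ≠ 1) (h2 : n ≠ -1) : ell n ≠ 0 := by
  intro h
  have := ell_bd h1 h2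
  rw [h, abs_zero] at this
  linarith [one_add_sq_pos n]

theorem sy_od (g : E) (n : ℤ) : g n = sy g n + od g n := by
  simp only [sy_apply, od_apply]; ring

theorem T_injective : Function.Injective T := by
  rw [injective_iff_map_eq_zero]
  rintro ⟨f, g, p, s, σ, W⟩ h
  have hW := W0_lb
  have hC := C10_lb
  have r1 : ∀ n : ℤ, (al n * f n + be n * f (-n)) / (1 + (n : ℝ) ^ 2) + σ * vσ n + W * vW n = 0 := by
    intro n; rw [← T1 f g p s σ W n, h]; rfl
  have r2 : ∀ n : ℤ, ell n / (1 + (n : ℝ) ^ 2) * sy g n + od g n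
      + (if n = 1 ∨ n = -1 then 2 * W0 * σ else 0) = 0 := by
    intro n; rw [← T2 f g p s σ W n, h]; rfl
  have r3 : (2 : ℝ) • p + A5 f + ((W0 - 1) • A6 f + W • A6 f0) = 0 := by
    have : (T (f, g, p, s, σ, W)).2.2.1 = 0 := by rw [h]; rfl
    exact this
  have r4 : (2 : ℝ) • s + A7 f = 0 := by
    have : (T (f, g, p, s, σ, W)).2.2.2.1 = 0 := by rw [h]; rfl
    exact this
  have r5 : f 1 = 0 := by
    have : (T (f, g, p, s, σ, W)).2.2.2.2.1 = 0 := by rw [h]; rfl
    exact this
  have r6 : g 1 + g (-1) = 0 := by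
    have : (T (f, g, p, s, σ, W)).2.2.2.2.2 = 0 := by rw [h]; rfl
    exact this
  -- σ
  have a1 := r2 1
  have a2 := r2 (-1)
  rw [ell_one] at a1
  rw [ell_neg_one] at a2
  simp only [od_apply, neg_neg] at a1 a2
  norm_num at a1 a2
  have hσ : σ = 0 := by
    have : W0 * σ = 0 := by linarith
    rcases mul_eq_zero.1 this with h | h
    · linarith
    · exact h
  subst hσ
  -- f at -1 and W
  have b1 := r1 1
  have b2 := r1 (-1)
  rw [al_one, be_one, r5] at b1
  rw [al_neg_one, be_neg_one, neg_neg, r5] at b2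
  simp only [vW] at b1 b2
  norm_num at b1 b2
  have hWW : W = 0 := by
    have : ((3 / 4) * (9 / 2 * kk - bb / 2) - (W0 / 4) * (12 + 3 / 2 * kk)) * W = 0 := by
      linear_combination (3 / 4) * b2 - (W0 / 4) * b1
    rcases mul_eq_zero.1 this with h | h
    · exact absurd h det_ne
    · exact h
  subst hWW
  have fm1 : f (-1) = 0 := by linarith
  have hf : f = 0 := by
    apply ext'; intro n
    by_cases n1 : n = 1
    · subst n1; exact r5
    by_cases n2 : n = -1
    · subst n2; exact fm1
    by_cases n0 : n = 0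
    · subst n0
      have c := r1 0
      rw [al_zero, be_zero] at c
      have c' : W0 * f 0 = 0 := by
        rw [neg_zero, zero_mul, zero_mul] at c
        norm_num at c
        rcases c with c | c
        · rw [c]; ring
        · rw [c]; ring
      rcases mul_eq_zero.1 c' with h | h
      · linarith
      · exact h
    have c1 := r1 n
    have c2 := r1 (-n)
    have q := (one_add_sq_pos n).ne'
    push_cast at c2
    rw [neg_sq, neg_neg] at c2
    rw [zero_mul, zero_mul, add_zero, add_zero, div_eq_zero_iff, or_iff_left q] at c1 c2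
    have : DD n * f n = 0 := by unfold DD; linear_combination al (-n) * c1 - be n * c2
    rcases mul_eq_zero.1 this with h | h
    · exact absurd h (DD_pos n0 n1 n2).ne'
    · exact h
  subst hf
  have hg : g = 0 := by
    apply ext'; intro n
    by_cases n1 : n = 1
    · subst n1; simp; linarith
    by_cases n2 : n = -1
    · subst n2; simp; linarith
    have c1 := r2 n
    have c2 := r2 (-n)
    have e1 : ell (-n) = ell n := by
      unfold ell; rw [i0_neg, chi_neg]; push_cast; ring
    have e2 : sy g (-n) = sy g n := by simp only [sy_apply, neg_neg]; ring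
    have e3 : od g (-n) = -od g n := by simp only [od_apply, neg_neg]; ring
    rw [e1, e2, e3] at c2
    rw [if_neg (by omega)] at c1 c2
    push_cast at c2
    rw [neg_sq] at c2
    have c3 : od g n = 0 := by linarith
    have c4 : ell n / (1 + (n : ℝ) ^ 2) * sy g n = 0 := by linarith
    have c5 : sy g n = 0 := by
      rcases mul_eq_zero.1 c4 with h | h
      · rw [div_eq_zero_iff] at h
        rcases h with h | h
        · exact absurd h (ell_ne n1 n2)
        · exact absurd h (one_add_sq_pos n).ne'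
      · exact h
    rw [sy_od g n, c3, c5]; simp
  subst hg
  have hp : p = 0 := by
    have : (2 : ℝ) • p = 0 := by simpa using r3
    simpa using this
  have hs : s = 0 := by
    have : (2 : ℝ) • s = 0 := by simpa using r4
    simpa using this
  subst hp hs
  rfl

theorem summable_of_bd {a : ℤ → ℝ} {b : ℤ → ℝ} (hb : Summable b)
    (h : ∀ n : ℤ, n ≠ 0 → n ≠ 1 → n ≠ -1 → |a n| ≤ b n) : Summable fun n => |a n| := by
  apply Summable.of_norm_bounded_eventually hb
  have hfin : ({0, 1, -1} : Set ℤ).Finite := Set.toFinite _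
  filter_upwards [hfin.compl_mem_cofinite] with n hn
  simp only [Set.mem_compl_iff, Set.mem_insert_iff, Set.mem_singleton_iff, not_or] at hn
  simpa using h n hn.1 hn.2.1 hn.2.2

theorem T_surjective : Function.Surjective T := by
  rintro ⟨h1, h2, h3, h4, h5, h6⟩
  have hW := W0_lb
  have hC := C10_lb
  set σ : ℝ := sy h2 1 / (2 * W0) with hσ
  set Δ : ℝ := (3 / 4) * (9 / 2 * kk - bb / 2) - (W0 / 4) * (12 + 3 / 2 * kk) with hΔ
  have hΔ0 : Δ ≠ 0 := det_ne
  set r1 : ℝ := h1 1 - 12 * W0 * σ - (4 * W0 + C10 / 2) * h5 / 2 with hr1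
  set r2 : ℝ := h1 (-1) - 3 / 4 * C10 * h5 with hr2
  set x : ℝ := (r1 * (9 / 2 * kk - bb / 2) - r2 * (12 + 3 / 2 * kk)) / Δ with hx
  set W : ℝ := ((3 / 4) * r2 - (W0 / 4) * r1) / Δ with hWd
  have e1 : (3 / 4) * x + (12 + 3 / 2 * kk) * W = r1 := by
    rw [hx, hWd]; field_simp; rw [hΔ]; ring
  have e2 : (W0 / 4) * x + (9 / 2 * kk - bb / 2) * W = r2 := by
    rw [hx, hWd]; field_simp; rw [hΔ]; ring
  -- the sequence f
  set F : ℤ → ℝ := fun n => if n = 1 then h5 else if n = -1 then x else if n = 0 then h1 0 / (3 * W0)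
    else (1 + (n : ℝ) ^ 2) * (al (-n) * h1 n - be n * h1 (-n)) / DD n with hF
  have sR : Summable fun n : ℤ => |h1 (-n)| := summable_abs (R h1)
  have hFs : Summable fun n => |F n| := by
    apply summable_of_bd (b := fun n => 10 * (|h1 n| + |h1 (-n)|))
      (((summable_abs h1).add sR).mul_left 10)
    intro n n0 n1 n2
    have hD := DD_pos n0 n1 n2
    have hb := block n0 n1 n2
    rw [hF]; simp only [n1, n2, n0, if_false]
    rw [abs_div, abs_of_pos hD, div_le_iff₀ hD, abs_mul, abs_of_pos (one_add_sq_pos n)]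
    have t1 : |al (-n) * h1 n - be n * h1 (-n)| ≤ al (-n) * |h1 n| + be n * |h1 (-n)| := by
      refine (abs_sub _ _).trans ?_
      rw [abs_mul, abs_mul, abs_of_nonneg (al_nonneg _), abs_of_nonneg (be_nonneg _)]
    calc (1 + (n : ℝ) ^ 2) * |al (-n) * h1 n - be n * h1 (-n)|
        ≤ (1 + (n : ℝ) ^ 2) * (al (-n) * |h1 n| + be n * |h1 (-n)|) :=
          mul_le_mul_of_nonneg_left t1 (one_add_sq_pos n).le
      _ = (al (-n) * (1 + (n : ℝ) ^ 2)) * |h1 n| + (be n * (1 + (n : ℝ) ^ 2)) * |h1 (-n)| := by ring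
      _ ≤ (10 * DD n) * |h1 n| + (10 * DD n) * |h1 (-n)| :=
          add_le_add (mul_le_mul_of_nonneg_right hb.1 (abs_nonneg _))
            (mul_le_mul_of_nonneg_right hb.2 (abs_nonneg _))
      _ = 10 * (|h1 n| + |h1 (-n)|) * DD n := by ring
  set f : E := mk F hFs with hf
  have f1 : f 1 = h5 := by rw [hf, mk_apply, hF]; simp
  have fm1 : f (-1) = x := by rw [hf, mk_apply, hF]; simp
  have f0' : f 0 = h1 0 / (3 * W0) := by rw [hf, mk_apply, hF]; simp
  have fn : ∀ n : ℤ, n ≠ 0 → n ≠ 1 → n ≠ -1 → f n = (1 + (n : ℝ) ^ 2) * (al (-n) * h1 n - be n * h1 (-n)) / DD n := by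
    intro n n0 n1 n2
    rw [hf, mk_apply, hF]; simp only [n1, n2, n0, if_false]
  -- the sequence g
  set Gt : ℤ → ℝ := fun n => (if n = 1 ∨ n = -1 then h6 / 2 else (1 + (n : ℝ) ^ 2) / ell n * sy h2 n)
    + od h2 n with hGt
  have hGs : Summable fun n => |Gt n| := by
    apply summable_of_bd (b := fun n => |sy h2 n| + |od h2 n|)
      ((summable_abs (sy h2)).add (summable_abs (od h2)))
    intro n n0 n1 n2
    rw [hGt]; simp only [n1, n2, or_self, if_false]
    refine (abs_add_le _ _).trans (add_le_add_left ?_ _)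
    rw [abs_mul, abs_div, abs_of_pos (one_add_sq_pos n)]
    have hb := ell_bd n1 n2
    have hpos : 0 < |ell n| := lt_of_lt_of_le (one_add_sq_pos n) hb
    have : (1 + (n : ℝ) ^ 2) / |ell n| ≤ 1 := by rw [div_le_one hpos]; exact hb
    exact mul_le_of_le_one_left (abs_nonneg _) this
  set g : E := mk Gt hGs with hg
  have gsy : ∀ n : ℤ, sy g n = (if n = 1 ∨ n = -1 then h6 / 2 else (1 + (n : ℝ) ^ 2) / ell n * sy h2 n) := by
    intro n
    rw [sy_apply, hg, mk_apply, mk_apply, hGt]
    have q1 : (-n = 1 ∨ -n = -1) ↔ (n = 1 ∨ n = -1) := by omega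
    have q2 : ell (-n) = ell n := by unfold ell; rw [i0_neg, chi_neg]; push_cast; ring
    have q3 : sy h2 (-n) = sy h2 n := by simp only [sy_apply, neg_neg]; ring
    have q4 : od h2 (-n) = -od h2 n := by simp only [od_apply, neg_neg]; ring
    simp only [q1, q2, q3, q4]
    push_cast
    rw [neg_sq]
    ring
  have god : ∀ n : ℤ, od g n = od h2 n := by
    intro n
    rw [od_apply, hg, mk_apply, mk_apply, hGt]
    have q1 : (-n = 1 ∨ -n = -1) ↔ (n = 1 ∨ n = -1) := by omega
    have q2 : ell (-n) = ell n := by unfold ell; rw [i0_neg, chi_neg]; push_cast; ring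
    have q3 : sy h2 (-n) = sy h2 n := by simp only [sy_apply, neg_neg]; ring
    have q4 : od h2 (-n) = -od h2 n := by simp only [od_apply, neg_neg]; ring
    simp only [q1, q2, q3, q4]
    push_cast
    rw [neg_sq]
    ring
  set p : E := (1 / 2 : ℝ) • (h3 - A5 f - ((W0 - 1) • A6 f + W • A6 f0)) with hp
  set s : E := (1 / 2 : ℝ) • (h4 - A7 f) with hs
  refine ⟨(f, g, p, s, σ, W), ?_⟩
  refine Prod.ext ?_ (Prod.ext ?_ (Prod.ext ?_ (Prod.ext ?_ (Prod.ext ?_ ?_))))
  · apply ext'; intro n
    rw [T1]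
    by_cases n1 : n = 1
    · subst n1
      rw [al_one, be_one, f1, fm1]
      simp only [vσ, vW]
      norm_num
      rw [hr1] at e1
      linear_combination e1
    by_cases n2 : n = -1
    · subst n2
      rw [al_neg_one, be_neg_one, neg_neg, f1, fm1]
      simp only [vσ, vW]
      norm_num
      rw [hr2] at e2
      linear_combination e2
    have v1 : vσ n = 0 := by simp [vσ, n1]
    have v2 : vW n = 0 := by simp [vW, n1, n2]
    rw [v1, v2, mul_zero, mul_zero, add_zero, add_zero]
    by_cases n0 : n = 0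
    · subst n0
      rw [neg_zero, al_zero, be_zero, f0']
      have : W0 ≠ 0 := by linarith
      field_simp
      norm_num
      ring
    · rw [fn n n0 n1 n2, fn (-n) (by omega) (by omega) (by omega), DD_neg, neg_neg]
      push_cast
      rw [neg_sq]
      have hD := (DD_pos n0 n1 n2).ne'
      have q := (one_add_sq_pos n).ne'
      field_simp
      unfold DD
      ring
  · apply ext'; intro n
    rw [T2, gsy, god]
    by_cases n1 : n = 1
    · subst n1
      rw [ell_one]
      simp only [true_or, if_true]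
      rw [sy_od h2 1, hσ]
      have : W0 ≠ 0 := by linarith
      field_simp
      ring
    by_cases n2 : n = -1
    · subst n2
      rw [ell_neg_one]
      simp only [or_true, if_true]
      rw [sy_od h2 (-1), hσ]
      have q3 : sy h2 (-1) = sy h2 1 := by simp only [sy_apply, neg_neg]; ring
      rw [q3]
      have : W0 ≠ 0 := by linarith
      field_simp
      ring
    · simp only [n1, n2, or_self, if_false]
      rw [sy_od h2 n]
      have := ell_ne n1 n2
      have q := (one_add_sq_pos n).ne'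
      field_simp
      ring
  · show (2 : ℝ) • p + A5 f + ((W0 - 1) • A6 f + W • A6 f0) = h3
    rw [hp, smul_smul]; norm_num; abel
  · show (2 : ℝ) • s + A7 f = h4
    rw [hs, smul_smul]; norm_num
  · exact f1
  · show g 1 + g (-1) = h6
    have := gsy 1
    rw [sy_apply] at this
    simp at this
    linarith

end Pool.Agent.FourBody
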