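import Pool.Agent.MP_7235ad_an.Bij

set_option autoImplicit false
set_option linter.unusedSimpArgs false
set_option linter.unusedVariables false

namespace Pool.Agent.FourBody

open Filter
open scoped Topology

theorem T_invertible : T.IsInvertible := by
  have h1 : T.ker = ⊥ := LinearMap.ker_eq_bot.2 T_injective
  have h2 : T.range = ⊤ := LinearMap.range_eq_top.2 T_surjective
  exact ⟨ContinuousLinearEquiv.ofBijective T h1 h2, ContinuousLinearEquiv.coe_ofBijective T h1 h2⟩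

theorem fderiv_inr : (fderiv ℝ G (0, y0)) ∘L (.inr ℝ ℝ Y) = T := by
  have hG : HasFDerivAt G (fderiv ℝ G (0, y0)) (0, y0) :=
    ((contDiff_G.differentiable (by norm_num)) _).hasFDerivAt
  have hi : HasFDerivAt (fun y : Y => ((0 : ℝ), y)) (ContinuousLinearMap.inr ℝ ℝ Y) y0 :=
    (ContinuousLinearMap.inr ℝ ℝ Y).hasFDerivAt
  have h1 : HasFDerivAt (fun y : Y => G (0, y)) ((fderiv ℝ G (0, y0)) ∘L (.inr ℝ ℝ Y)) y0 :=
    HasFDerivAt.comp y0 hG hi
  have h2 : (fun y : Y => G (0, y)) = G0 := funext G_zero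
  rw [h2] at h1
  exact h1.unique hasFDerivAt_G0

/-- the bifurcating branch -/
theorem exists_branch : ∃ ψ : ℝ → Y, Tendsto ψ (𝓝 0) (𝓝 y0) ∧ ∀ᶠ ε in 𝓝 (0 : ℝ), G (ε, ψ ε) = 0 := by
  have hc : ContDiffAt ℝ 1 G (0, y0) := contDiff_G.contDiffAt
  have hi : (fderiv ℝ G (0, y0) ∘L .inr ℝ ℝ Y).IsInvertible := by
    rw [fderiv_inr]; exact T_invertible
  have hs : HasStrictFDerivAt G (fderiv ℝ G (0, y0)) (0, y0) := hc.hasStrictFDerivAt (by norm_num)
  refine ⟨hs.implicitFunctionOfProdDomain hi, hs.tendsto_implicitFunctionOfProdDomain hi, ?_⟩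
  have := hs.eventually_apply_implicitFunctionOfProdDomain hi
  have h0 : G (0, y0) = 0 := by rw [G_zero, G0_y0]
  rw [h0] at this
  exact this

end Pool.Agent.FourBody
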