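import Pool.Agent.MP_7235ad_an.Gmap

set_option autoImplicit false
set_option linter.unusedSimpArgs false
set_option linter.unusedVariables false

namespace Pool.Agent.FourBody

noncomputable def W0 : ℝ := 9 * (kk - 1) / (kk + 8)
noncomputable def C10 : ℝ := 1 + kk * (W0 - 1)
noncomputable def bb : ℝ := 8 * W0 + C10

theorem kk_sq : kk ^ 2 = 27 := by
  unfold kk; rw [mul_pow, Real.sq_sqrt (by norm_num)]; norm_num
theorem kk_pos : 0 < kk := by unfold kk; positivity
theorem kk_lb : 5.19 < kk := by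
  nlinarith [kk_sq, kk_pos]
theorem kk_ub : kk < 5.2 := by
  nlinarith [kk_sq, kk_pos]
theorem W0_eq : W0 * (kk + 8) = 9 * (kk - 1) := by
  unfold W0; field_simp [ne_of_gt (by linarith [kk_pos] : (0 : ℝ) < kk + 8)]
theorem W0_lb : 2.85 < W0 := by
  have := W0_eq; nlinarith [kk_lb, kk_ub]
theorem W0_ub : W0 < 2.87 := by
  have := W0_eq; nlinarith [kk_lb, kk_ub]
theorem C10_lb : 10.5 < C10 := by
  unfold C10; nlinarith [kk_lb, kk_ub, W0_lb, W0_ub]
theorem C10_ub : C10 < 10.8 := by
  unfold C10; nlinarith [kk_lb, kk_ub, W0_lb, W0_ub]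
theorem resonance : 9 * C10 = W0 * bb := by
  unfold bb C10; linear_combination (1 - W0) * W0_eq

/-- coefficient operators of the linearisation -/
noncomputable def A0 : E →L[ℝ] E := (1 / 2 : ℝ) • Km + (3 / 2 : ℝ) • R.comp Km
noncomputable def A4 : E →L[ℝ] E :=
  kk • ((1 / 2 : ℝ) • P1.comp Km + (3 / 2 : ℝ) • R.comp (P1.comp Km)) +
    ((1 / 2 : ℝ) • Qm.comp (Qm.comp Km) + (3 / 2 : ℝ) • Qm.comp (R.comp (Qm.comp Km)))
noncomputable def A5 : E →L[ℝ] E := Km + R.comp Km
noncomputable def A6 : E →L[ℝ] E := kk • (P1.comp Km + R.comp (P1.comp Km))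
noncomputable def A7 : E →L[ℝ] E := Qm.comp Km + R.comp (Qm.comp Km)
noncomputable def B1 : E →L[ℝ] E := sy.comp (N2.comp sy)
noncomputable def B0 : E →L[ℝ] E := od - sy.comp (Km.comp sy)
noncomputable def B4 : E →L[ℝ] E :=
  -sy.comp ((kk • P0.comp Km + Qp.comp (Qp.comp Km)).comp sy)

noncomputable def G0 (y : Y) : Y :=
  match y with
  | (f, g, p, s, σ, W) =>
    ((W * σ ^ 2) • N2 f + (2 * W * σ) • N1 f + W • Km f + A0 f + (W - 1) • A4 f,
     (W * σ ^ 2) • B1 g + B0 g + (W - 1) • B4 g,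
     (2 : ℝ) • p + A5 f + (W - 1) • A6 f,
     (2 : ℝ) • s + A7 f,
     f 1 - 6, g 1 + g (-1) - 4)

theorem i1_neg (n : ℤ) : i1 (-n) = if n % 3 = 2 then 1 else 0 := by
  unfold i1
  have : (-n) % 3 = 1 ↔ n % 3 = 2 := by omega
  simp only [this]

theorem G_zero (y : Y) : G (0, y) = G0 y := by
  obtain ⟨f, g, p, s, σ, W⟩ := y
  simp only [G, G0]
  refine Prod.ext ?_ (Prod.ext ?_ (Prod.ext ?_ (Prod.ext ?_ rfl)))
  · apply ext'; intro n
    simp [G1, H1, G3, G4, sq2, cu3, dc, dp, cu, qu, A0, A4]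
    ring
  · apply ext'; intro n
    simp [G2, E2, cu3, cz, qz, B0, B1, B4]
    ring
  · apply ext'; intro n
    simp [G3, sq2, dc, cu, A5, A6]
    ring
  · apply ext'; intro n
    simp [G4, sq2, dp, qu, A7]

/-! ### projections -/
noncomputable def prf : Y →L[ℝ] E := ContinuousLinearMap.fst ℝ _ _
noncomputable def prg : Y →L[ℝ] E :=
  (ContinuousLinearMap.fst ℝ _ _).comp (ContinuousLinearMap.snd ℝ _ _)
noncomputable def prp : Y →L[ℝ] E :=
  (ContinuousLinearMap.fst ℝ _ _).comp ((ContinuousLinearMap.snd ℝ _ _).comp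
    (ContinuousLinearMap.snd ℝ _ _))
noncomputable def prs : Y →L[ℝ] E :=
  (ContinuousLinearMap.fst ℝ _ _).comp ((ContinuousLinearMap.snd ℝ _ _).comp
    ((ContinuousLinearMap.snd ℝ _ _).comp (ContinuousLinearMap.snd ℝ _ _)))
noncomputable def prσ : Y →L[ℝ] ℝ :=
  (ContinuousLinearMap.fst ℝ _ _).comp ((ContinuousLinearMap.snd ℝ _ _).comp
    ((ContinuousLinearMap.snd ℝ _ _).comp ((ContinuousLinearMap.snd ℝ _ _).comp
      (ContinuousLinearMap.snd ℝ _ _))))
noncomputable def prW : Y →L[ℝ] ℝ :=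
  (ContinuousLinearMap.snd ℝ _ _).comp ((ContinuousLinearMap.snd ℝ _ _).comp
    ((ContinuousLinearMap.snd ℝ _ _).comp ((ContinuousLinearMap.snd ℝ _ _).comp
      (ContinuousLinearMap.snd ℝ _ _))))

@[simp] theorem prf_apply (y : Y) : prf y = y.1 := rfl
@[simp] theorem prg_apply (y : Y) : prg y = y.2.1 := rfl
@[simp] theorem prp_apply (y : Y) : prp y = y.2.2.1 := rfl
@[simp] theorem prs_apply (y : Y) : prs y = y.2.2.2.1 := rfl
@[simp] theorem prσ_apply (y : Y) : prσ y = y.2.2.2.2.1 := rfl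
@[simp] theorem prW_apply (y : Y) : prW y = y.2.2.2.2.2 := rfl

/-! ### base point -/
noncomputable def f0 : E := (6 : ℝ) • dl 1 - (2 * bb) • dl (-1)
noncomputable def pr11 : E := dl 1 + dl (-1)
noncomputable def g0 : E := (2 : ℝ) • pr11
noncomputable def p0 : E := (4 * W0 - C10) • pr11
noncomputable def s0 : E := (-(bb / 2)) • pr11
noncomputable def y0 : Y := (f0, g0, p0, s0, 1, W0)

/-- the linearisation at the base point -/
noncomputable def T : Y →L[ℝ] Y :=
  ContinuousLinearMap.prod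
    (W0 • N2.comp prf + (prW + (2 * W0) • prσ).smulRight (N2 f0)
      + ((2 * W0) • N1.comp prf + ((2 : ℝ) • prW + (2 * W0) • prσ).smulRight (N1 f0))
      + (W0 • Km.comp prf + prW.smulRight (Km f0))
      + A0.comp prf
      + ((W0 - 1) • A4.comp prf + prW.smulRight (A4 f0)))
    (ContinuousLinearMap.prod
      (W0 • B1.comp prg + (prW + (2 * W0) • prσ).smulRight (B1 g0)
        + B0.comp prg + ((W0 - 1) • B4.comp prg + prW.smulRight (B4 g0)))
      (ContinuousLinearMap.prod
        ((2 : ℝ) • prp + A5.comp prf + ((W0 - 1) • A6.comp prf + prW.smulRight (A6 f0)))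
        (ContinuousLinearMap.prod
          ((2 : ℝ) • prs + A7.comp prf)
          (ContinuousLinearMap.prod
            ((coord 1).comp prf)
            ((coord 1).comp prg + (coord (-1)).comp prg)))))

theorem hasFDerivAt_G0 : HasFDerivAt G0 T y0 := by
  have hσ : HasFDerivAt (fun y : Y => y.2.2.2.2.1) prσ y0 := prσ.hasFDerivAt
  have hW : HasFDerivAt (fun y : Y => y.2.2.2.2.2) prW y0 := prW.hasFDerivAt
  have hc1 : HasFDerivAt (fun y : Y => y.2.2.2.2.2 * y.2.2.2.2.1 ^ 2) (prW + (2 * W0) • prσ) y0 := by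
    have := hW.mul (hσ.pow 2)
    refine this.congr_fderiv ?_
    ext y <;> simp [y0]; ring
  have hc2 : HasFDerivAt (fun y : Y => 2 * y.2.2.2.2.2 * y.2.2.2.2.1)
      ((2 : ℝ) • prW + (2 * W0) • prσ) y0 := by
    have := (hW.const_mul 2).mul hσ
    refine this.congr_fderiv ?_
    ext y <;> simp [y0]
  have hf : ∀ A : E →L[ℝ] E, HasFDerivAt (fun y : Y => A y.1) (A.comp prf) y0 := fun A =>
    (A.comp prf).hasFDerivAt
  have hg : ∀ A : E →L[ℝ] E, HasFDerivAt (fun y : Y => A y.2.1) (A.comp prg) y0 := fun A =>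
    (A.comp prg).hasFDerivAt
  have hp : HasFDerivAt (fun y : Y => (2 : ℝ) • y.2.2.1) ((2 : ℝ) • prp) y0 :=
    ((2 : ℝ) • prp).hasFDerivAt
  have hs : HasFDerivAt (fun y : Y => (2 : ℝ) • y.2.2.2.1) ((2 : ℝ) • prs) y0 :=
    ((2 : ℝ) • prs).hasFDerivAt
  have h5 : HasFDerivAt (fun y : Y => y.1 1 - 6) ((coord 1).comp prf) y0 :=
    (((coord 1).comp prf).hasFDerivAt).sub_const 6
  have h6 : HasFDerivAt (fun y : Y => y.2.1 1 + y.2.1 (-1) - 4)
      ((coord 1).comp prg + (coord (-1)).comp prg) y0 :=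
    (((coord 1).comp prg + (coord (-1)).comp prg).hasFDerivAt).sub_const 4
  have hW1 : HasFDerivAt (fun y : Y => y.2.2.2.2.2 - 1) prW y0 := hW.sub_const 1
  have e : G0 = fun y : Y =>
    ((y.2.2.2.2.2 * y.2.2.2.2.1 ^ 2) • N2 y.1 + (2 * y.2.2.2.2.2 * y.2.2.2.2.1) • N1 y.1
      + y.2.2.2.2.2 • Km y.1 + A0 y.1 + (y.2.2.2.2.2 - 1) • A4 y.1,
     (y.2.2.2.2.2 * y.2.2.2.2.1 ^ 2) • B1 y.2.1 + B0 y.2.1 + (y.2.2.2.2.2 - 1) • B4 y.2.1,
     (2 : ℝ) • y.2.2.1 + A5 y.1 + (y.2.2.2.2.2 - 1) • A6 y.1,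
     (2 : ℝ) • y.2.2.2.1 + A7 y.1,
     y.1 1 - 6, y.2.1 1 + y.2.1 (-1) - 4) := rfl
  rw [e]
  have k1 := ((((hc1.smul (hf N2)).add (hc2.smul (hf N1))).add (hW.smul (hf Km))).add (hf A0)).add
    (hW1.smul (hf A4))
  have k2 := ((hc1.smul (hg B1)).add (hg B0)).add (hW1.smul (hg B4))
  have k3 := (hp.add (hf A5)).add (hW1.smul (hf A6))
  have k4 := hs.add (hf A7)
  refine ((k1.prodMk (k2.prodMk (k3.prodMk (k4.prodMk (h5.prodMk h6)))))).congr_fderiv ?_
  unfold T
  simp [y0]

theorem f0_apply (n : ℤ) : f0 n = if n = 1 then 6 else if n = -1 then -(2 * bb) else 0 := by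
  simp only [f0, sub_app, smul_app, dl_apply]
  by_cases h1 : n = 1
  · subst h1; simp
  · by_cases h2 : n = -1
    · subst h2; simp
    · simp [h1, h2]

theorem pr11_apply (n : ℤ) : pr11 n = if n = 1 ∨ n = -1 then 1 else 0 := by
  simp only [pr11, add_app, dl_apply]
  by_cases h1 : n = 1
  · subst h1; simp
  · by_cases h2 : n = -1
    · subst h2; simp
    · simp [h1, h2]

theorem G0_y0 : G0 y0 = 0 := by
  have h1 : f0 1 = 6 := by rw [f0_apply]; simp
  have h2 : g0 1 = 2 := by simp only [g0, smul_app, pr11_apply]; simp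
  have h3 : g0 (-1) = 2 := by simp only [g0, smul_app, pr11_apply]; simp
  simp only [G0, y0]
  refine Prod.ext ?_ (Prod.ext ?_ (Prod.ext ?_ (Prod.ext ?_ (Prod.ext ?_ ?_))))
  · apply ext'; intro n
    simp only [A0, A4, add_app, smul_app, N1_apply, N2_apply, Km_apply, P1_apply, Qm_apply, R_apply,
      add_apply, smul_apply,
      ContinuousLinearMap.comp_apply, f0_apply]
    by_cases e1 : n = 1
    · subst e1
      simp [i1, chi]
      have := resonance
      unfold bb C10 at *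
      linarith
    · by_cases e2 : n = -1
      · subst e2
        simp [i1, chi]
        have := resonance
        unfold bb C10 at *
        linarith
      · have e3 : ¬ (-n = 1) := by omega
        simp [e1, e2, e3]
  · apply ext'; intro n
    simp only [B0, B1, B4, g0, sy_apply, od_apply, add_app, smul_app, N2_apply, Km_apply, P0_apply, Qp_apply,
      add_apply, smul_apply, neg_apply,
      sub_apply, neg_app, sub_app,
      ContinuousLinearMap.comp_apply, pr11_apply]
    by_cases e1 : n = 1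
    · subst e1
      simp [i0, chi]
      ring
    · by_cases e2 : n = -1
      · subst e2
        simp [i0, chi]
        ring
      · have e3 : ¬ (-n = 1) := by omega
        simp [e1, e2, e3]
  · apply ext'; intro n
    simp only [A5, A6, p0, add_app, smul_app, N1_apply, N2_apply, Km_apply, P1_apply, Qm_apply, R_apply,
      add_apply, smul_apply,
      ContinuousLinearMap.comp_apply, f0_apply, pr11_apply]
    by_cases e1 : n = 1
    · subst e1
      simp [i1, chi]
      unfold bb C10 at *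
      ring
    · by_cases e2 : n = -1
      · subst e2
        simp [i1, chi]
        unfold bb C10 at *
        ring
      · have e3 : ¬ (-n = 1) := by omega
        simp [e1, e2, e3]
  · apply ext'; intro n
    simp only [A7, s0, add_app, smul_app, N1_apply, N2_apply, Km_apply, P1_apply, Qm_apply, R_apply,
      add_apply, smul_apply,
      ContinuousLinearMap.comp_apply, f0_apply, pr11_apply]
    by_cases e1 : n = 1
    · subst e1
      simp [i1, chi]
      ring
    · by_cases e2 : n = -1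
      · subst e2
        simp [i1, chi]
        ring
      · have e3 : ¬ (-n = 1) := by omega
        simp [e1, e2, e3]
  · simp [h1]
  · simp [h2, h3]; norm_num

end Pool.Agent.FourBody
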