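import Pool.Agent.MP_7235ad_an.Final

set_option autoImplicit false
set_option linter.unusedSimpArgs false
set_option linter.unusedVariables false

namespace Pool.Agent.FourBody

open Complex

theorem nr_nonneg (a : ℂ) (b : ℝ) : 0 ≤ nr a b := Real.sqrt_nonneg _

theorem nr_sq (a : ℂ) (b : ℝ) : nr a b ^ 2 = ‖a‖ ^ 2 + b ^ 2 := Real.sq_sqrt (by positivity)

section
variable {m W σ : ℝ} {u u1 u2 : ℝ → ℂ} {z z1 z2 : ℝ → ℝ}

theorem Sol.σ_bd (S : Sol m W σ u u1 u2 z z1 z2) : |σ| ≤ 1.01 := by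
  have := S.hσ
  calc |σ| = |(σ - 1) + 1| := by ring_nf
    _ ≤ |σ - 1| + |1| := abs_add_le _ _
    _ ≤ 1.01 := by rw [abs_one]; linarith

/-- velocity bounds -/
theorem Sol.vel (S : Sol m W σ u u1 u2 z z1 z2) {w : ℝ} (hw0 : 0 < w) (hw : w * w = W) (t : ℝ) :
    nr (I * w * u t + (σ * w : ℝ) * u1 t) ((σ * w) * z1 t) ^ 2 ≤ 1.041 * W := by
  rw [nr_sq]
  have hs := S.σ_bd
  have hs0 := abs_nonneg σ
  have h1 : ‖I * w * u t + (σ * w : ℝ) * u1 t‖ ≤ 1.0201 * w := by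
    refine (norm_add_le _ _).trans ?_
    rw [norm_mul, norm_mul, norm_mul, Complex.norm_I, one_mul, Complex.norm_real, Complex.norm_real,
      Real.norm_eq_abs, Real.norm_eq_abs, abs_mul, abs_of_pos hw0]
    have a1 : w * ‖u t‖ ≤ w * 1.01 := mul_le_mul_of_nonneg_left (S.normu t) hw0.le
    have a2 : |σ| * w * ‖u1 t‖ ≤ (1.01 * w) * (1 / 100) :=
      mul_le_mul (mul_le_mul_of_nonneg_right hs hw0.le) (S.bu1 t) (norm_nonneg _) (by positivity)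
    linarith
  have h2 : |(σ * w) * z1 t| ≤ 0.0101 * w := by
    rw [abs_mul, abs_mul, abs_of_pos hw0]
    have a2 : |σ| * w * |z1 t| ≤ (1.01 * w) * (1 / 100) :=
      mul_le_mul (mul_le_mul_of_nonneg_right hs hw0.le) (S.bz1 t) (abs_nonneg _) (by positivity)
    linarith
  have h3 : ‖I * w * u t + (σ * w : ℝ) * u1 t‖ ^ 2 ≤ (1.0201 * w) ^ 2 :=
    pow_le_pow_left₀ (norm_nonneg _) h1 2
  have h4 : ((σ * w) * z1 t) ^ 2 ≤ (0.0101 * w) ^ 2 := by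
    rw [← sq_abs]; exact pow_le_pow_left₀ (abs_nonneg _) h2 2
  have hW := S.hW
  nlinarith

theorem Sol.velS (S : Sol m W σ u u1 u2 z z1 z2) {w : ℝ} (hw0 : 0 < w) (hw : w * w = W) (t : ℝ) :
    nr (pS (fun t => I * w * u t + (σ * w : ℝ) * u1 t) (fun t => (σ * w) * z1 t) t).1
      (pS (fun t => I * w * u t + (σ * w : ℝ) * u1 t) (fun t => (σ * w) * z1 t) t).2 ^ 2
      ≤ 0.005 * W := by
  rw [nr_sq]
  have hs := S.σ_bd
  have hs0 := abs_nonneg σ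
  have e1 : (pS (fun t => I * w * u t + (σ * w : ℝ) * u1 t) (fun t => (σ * w) * z1 t) t).1
      = I * w * (u t + ze * u (t - th) + ze ^ 2 * u (t - 2 * th))
        + (σ * w : ℝ) * (u1 t + ze * u1 (t - th) + ze ^ 2 * u1 (t - 2 * th)) := by
    simp [pS, pA, pB, pC]; ring
  have e2 : (pS (fun t => I * w * u t + (σ * w : ℝ) * u1 t) (fun t => (σ * w) * z1 t) t).2
      = (σ * w) * (z1 t + z1 (t - th) + z1 (t - 2 * th)) := by
    simp [pS, pA, pB, pC]; ring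
  rw [e1, e2]
  set Su := u t + ze * u (t - th) + ze ^ 2 * u (t - 2 * th) with hSu
  set Su1 := u1 t + ze * u1 (t - th) + ze ^ 2 * u1 (t - 2 * th) with hSu1
  have h1 : ‖I * w * Su + (σ * w : ℝ) * Su1‖ ≤ 0.0603 * w := by
    refine (norm_add_le _ _).trans ?_
    rw [norm_mul, norm_mul, norm_mul, Complex.norm_I, one_mul, Complex.norm_real, Complex.norm_real,
      Real.norm_eq_abs, Real.norm_eq_abs, abs_mul, abs_of_pos hw0]
    have a1 : w * ‖Su‖ ≤ w * (3 / 100) := mul_le_mul_of_nonneg_left (S.sumq t) hw0.le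
    have a2 : |σ| * w * ‖Su1‖ ≤ (1.01 * w) * (3 / 100) :=
      mul_le_mul (mul_le_mul_of_nonneg_right hs hw0.le) (S.sumq1 t) (norm_nonneg _) (by positivity)
    linarith
  have h2 : |(σ * w) * (z1 t + z1 (t - th) + z1 (t - 2 * th))| ≤ 0.0303 * w := by
    rw [abs_mul, abs_mul, abs_of_pos hw0]
    have a2 : |σ| * w * |z1 t + z1 (t - th) + z1 (t - 2 * th)| ≤ (1.01 * w) * (3 / 100) :=
      mul_le_mul (mul_le_mul_of_nonneg_right hs hw0.le) (S.sumz1 t) (abs_nonneg _) (by positivity)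
    linarith
  have h3 : ‖I * w * Su + (σ * w : ℝ) * Su1‖ ^ 2 ≤ (0.0603 * w) ^ 2 :=
    pow_le_pow_left₀ (norm_nonneg _) h1 2
  have h4 : ((σ * w) * (z1 t + z1 (t - th) + z1 (t - 2 * th))) ^ 2 ≤ (0.0303 * w) ^ 2 := by
    rw [← sq_abs]; exact pow_le_pow_left₀ (abs_nonneg _) h2 2
  have hW := S.hW
  nlinarith

theorem energy_num {m W : ℝ} (hW : 2.8 < W) (hm : 1.732 * (W - 1) < m) (hm' : m < 3.3)
    {a0 a1 a2 a3 d01 d02 d12 d03 d13 d23 : ℝ}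
    (h0 : a0 ≤ 1.041 * W) (h1 : a1 ≤ 1.041 * W) (h2 : a2 ≤ 1.041 * W) (h3 : a3 ≤ m ^ 2 * (0.005 * W))
    (p01 : 0 < d01) (p02 : 0 < d02) (p12 : 0 < d12) (p03 : 0 < d03) (p13 : 0 < d13) (p23 : 0 < d23)
    (b01 : d01 ≤ 1.8) (b02 : d02 ≤ 1.8) (b12 : d12 ≤ 1.8) (b03 : d03 ≤ 1.22) (b13 : d13 ≤ 1.22)
    (b23 : d23 ≤ 1.22) :
    (1 / 2 : ℝ) * (m * a0 + m * a1 + m * a2 + 1 * a3) -
      (1 / 2 : ℝ) * ((m * m / d01 + m * m / d02 + m * 1 / d03) + (m * m / d01 + m * m / d12 + m * 1 / d13)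
        + (m * m / d02 + m * m / d12 + m * 1 / d23) + (1 * m / d03 + 1 * m / d13 + 1 * m / d23)) < 0 := by
  have hm0 : 0 < m := by linarith
  have q : ∀ d : ℝ, 0 < d → d ≤ 1.8 → m * m / 1.8 ≤ m * m / d := fun d hd hd' =>
    div_le_div_of_nonneg_left (by positivity) hd hd'
  have q' : ∀ d : ℝ, 0 < d → d ≤ 1.22 → m / 1.22 ≤ m / d := fun d hd hd' =>
    div_le_div_of_nonneg_left (by positivity) hd hd'
  have c1 := q _ p01 b01
  have c2 := q _ p02 b02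
  have c3 := q _ p12 b12
  have c4 := q' _ p03 b03
  have c5 := q' _ p13 b13
  have c6 := q' _ p23 b23
  have k0 : m * a0 ≤ m * (1.041 * W) := mul_le_mul_of_nonneg_left h0 hm0.le
  have k1 : m * a1 ≤ m * (1.041 * W) := mul_le_mul_of_nonneg_left h1 hm0.le
  have k2 : m * a2 ≤ m * (1.041 * W) := mul_le_mul_of_nonneg_left h2 hm0.le
  have key : (1 / 2 : ℝ) * (3 * (1.041 * W) + m * (0.005 * W)) - 3 / 1.22 - 3 * (m / 1.8) < 0 := by
    have hmW : m * W ≤ 3.3 * W := mul_le_mul_of_nonneg_right hm'.le (by linarith)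
    norm_num at hmW hm hm' hW ⊢
    linarith
  have key2 : m * ((1 / 2 : ℝ) * (3 * (1.041 * W) + m * (0.005 * W)) - 3 / 1.22 - 3 * (m / 1.8)) < 0 :=
    mul_neg_of_pos_of_neg hm0 key
  rw [mul_one, one_mul, one_mul]
  have r1 : m * ((1 / 2 : ℝ) * (3 * (1.041 * W) + m * (0.005 * W)) - 3 / 1.22 - 3 * (m / 1.8)) =
    (1 / 2 : ℝ) * (3 * (m * (1.041 * W)) + m ^ 2 * (0.005 * W)) - 3 * (m / 1.22) - 3 * (m * m / 1.8) := by
    ring
  rw [r1] at key2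
  linarith

theorem of_sol (S : Sol m W σ u u1 u2 z z1 z2) :
    ∃ (m : Fin 4 → ℝ) (x : Fin 4 → ℝ → EuclideanSpace ℝ (Fin 3)),
      (∀ i, 0 < m i) ∧
      (∀ i, ContDiff ℝ 2 (x i)) ∧
      (∀ t : ℝ, ∀ i j : Fin 4, i ≠ j → x i t ≠ x j t) ∧
      (∀ t : ℝ, ∀ i : Fin 4,
        deriv (deriv (x i)) t =
          ∑ j ∈ Finset.univ.erase i, (m j / ‖x j t - x i t‖ ^ 3) • (x j t - x i t)) ∧
      (∀ t : ℝ, ∑ i, m i • x i t = 0) ∧
      (∀ t : ℝ,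
        (1 / 2 : ℝ) * ∑ i, m i * ‖deriv (x i) t‖ ^ 2
          - (1 / 2 : ℝ) * ∑ i, ∑ j ∈ Finset.univ.erase i, m i * m j / ‖x i t - x j t‖ < 0) ∧
      (∀ t : ℝ, AffineIndependent ℝ (fun i => x i t)) ∧
      (∃ R : ℝ, ∀ i : Fin 4, ∀ t : ℝ, ‖x i t‖ ≤ R) := by
  have hW := S.hW
  have hm := S.m_pos
  have hm' := S.m_ub
  have hml := S.m_lb
  obtain ⟨w, hw0, hw⟩ : ∃ w : ℝ, 0 < w ∧ w * w = W :=
    ⟨Real.sqrt W, Real.sqrt_pos.2 (by linarith), Real.mul_self_sqrt (by linarith)⟩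
  set κ : ℝ := σ * w with hκ
  set v : ℝ → ℂ := fun t => I * w * u t + (κ : ℝ) * u1 t with hv
  set y : ℝ → ℝ := fun t => κ * z1 t with hy
  set X0 : ℝ → V3 := Gx w κ 1 0 u z with hX0
  set X1 : ℝ → V3 := Gx w κ ze th u z with hX1
  set X2 : ℝ → V3 := Gx w κ (ze ^ 2) (2 * th) u z with hX2
  set X3 : ℝ → V3 := fun τ => -(m • (X0 τ + X1 τ + X2 τ)) with hX3
  have pos0 : ∀ τ, X0 τ = Lx w τ (pA u z (κ * τ)) := by
    intro τ; simp [hX0, Gx, Lx, pA, ex]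
  have pos1 : ∀ τ, X1 τ = Lx w τ (pB u z (κ * τ)) := fun τ => rfl
  have pos2 : ∀ τ, X2 τ = Lx w τ (pC u z (κ * τ)) := fun τ => rfl
  have posS : ∀ τ, X0 τ + X1 τ + X2 τ = Lx w τ (pS u z (κ * τ)) := by
    intro τ; rw [pos0, pos1, pos2, ← map_add, ← map_add]; rfl
  obtain ⟨c0, dd0, d0⟩ := contDiff_Gx w κ 1 0 S.du S.dz S.du1 S.dz1 S.cu2 S.cz2
  obtain ⟨c1, dd1, d1⟩ := contDiff_Gx w κ ze th S.du S.dz S.du1 S.dz1 S.cu2 S.cz2
  obtain ⟨c2, dd2, d2⟩ := contDiff_Gx w κ (ze ^ 2) (2 * th) S.du S.dz S.du1 S.dz1 S.cu2 S.cz2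
  rw [← hX0] at c0 dd0 d0
  rw [← hX1] at c1 dd1 d1
  rw [← hX2] at c2 dd2 d2
  have c3 : ContDiff ℝ 2 X3 := (((c0.add c1).add c2).const_smul m).neg
  -- velocities
  have vel0 : ∀ τ, deriv X0 τ = Lx w τ (pA v y (κ * τ)) := by
    intro τ; rw [d0]; simp [Gx, Lx, pA, ex, hv, hy]
  have vel1 : ∀ τ, deriv X1 τ = Lx w τ (pB v y (κ * τ)) := by
    intro τ; rw [d1]; rfl
  have vel2 : ∀ τ, deriv X2 τ = Lx w τ (pC v y (κ * τ)) := by
    intro τ; rw [d2]; rfl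
  have dif : ∀ {X : ℝ → V3}, ContDiff ℝ 2 X → (∀ τ, DifferentiableAt ℝ X τ) ∧
      (∀ τ, DifferentiableAt ℝ (deriv X) τ) := by
    intro X hX
    have hX' : ContDiff ℝ (1 + 1) X := hX
    rw [contDiff_succ_iff_deriv] at hX'
    exact ⟨fun τ => hX'.1 τ, fun τ => (hX'.2.2.differentiable (by norm_num)) τ⟩
  have vel3 : ∀ τ, deriv X3 τ = -(m • (deriv X0 τ + deriv X1 τ + deriv X2 τ)) := by
    intro τ
    exact (((((dif c0).1 τ).hasDerivAt.add ((dif c1).1 τ).hasDerivAt).add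
      ((dif c2).1 τ).hasDerivAt).const_smul m).neg.deriv
  have acc3 : ∀ τ, deriv (deriv X3) τ =
      -(m • (deriv (deriv X0) τ + deriv (deriv X1) τ + deriv (deriv X2) τ)) := by
    intro τ
    have e : deriv X3 = fun τ => -(m • (deriv X0 τ + deriv X1 τ + deriv X2 τ)) := funext vel3
    rw [e]
    exact (((((dif c0).2 τ).hasDerivAt.add ((dif c1).2 τ).hasDerivAt).add
      ((dif c2).2 τ).hasDerivAt).const_smul m).neg.deriv
  -- accelerations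
  have hk0 : κ = σ * w := rfl
  have acc0 : ∀ τ, deriv (deriv X0) τ = -Lx w τ (ac W σ u u1 u2 z2 (κ * τ)) := by
    intro τ; rw [dd0, hk0, Gx_second 1 0 hw τ]; simp [Lx]
  have acc1 : ∀ τ, deriv (deriv X1) τ = -Lx w τ (ro ze (ac W σ u u1 u2 z2 (κ * τ - th))) := by
    intro τ; rw [dd1, hk0, Gx_second ze th hw τ]; rfl
  have acc2 : ∀ τ, deriv (deriv X2) τ =
      -Lx w τ (ro (ze ^ 2) (ac W σ u u1 u2 z2 (κ * τ - 2 * th))) := by
    intro τ; rw [dd2, hk0, Gx_second (ze ^ 2) (2 * th) hw τ]; rfl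
  have r0 : ∀ τ, X0 τ - X3 τ = Lx w τ (pA u z (κ * τ) + m • pS u z (κ * τ)) := by
    intro τ; rw [map_add, map_smul, ← posS, ← pos0]; simp only [hX3]; abel
  have r1 : ∀ τ, X1 τ - X3 τ = Lx w τ (pB u z (κ * τ) + m • pS u z (κ * τ)) := by
    intro τ; rw [map_add, map_smul, ← posS, ← pos1]; simp only [hX3]; abel
  have r2 : ∀ τ, X2 τ - X3 τ = Lx w τ (pC u z (κ * τ) + m • pS u z (κ * τ)) := by
    intro τ; rw [map_add, map_smul, ← posS, ← pos2]; simp only [hX3]; abel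
  have n0 : ∀ τ, deriv (deriv X0) τ = -((1 / ‖X0 τ - X3 τ‖ ^ 3) • (X0 τ - X3 τ)
      + (m / ‖X0 τ - X1 τ‖ ^ 3) • (X0 τ - X1 τ) + (m / ‖X0 τ - X2 τ‖ ^ 3) • (X0 τ - X2 τ)) := by
    intro τ
    rw [acc0, newtA S, map_add, map_add, Lx_fo, Lx_fo, Lx_fo, ← r0, map_sub, map_sub, ← pos0,
      ← pos1, ← pos2]
  have n1 : ∀ τ, deriv (deriv X1) τ = -((1 / ‖X1 τ - X3 τ‖ ^ 3) • (X1 τ - X3 τ)
      + (m / ‖X1 τ - X2 τ‖ ^ 3) • (X1 τ - X2 τ) + (m / ‖X1 τ - X0 τ‖ ^ 3) • (X1 τ - X0 τ)) := by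
    intro τ
    rw [acc1, newtB S, map_add, map_add, Lx_fo, Lx_fo, Lx_fo, ← r1, map_sub, map_sub, ← pos0,
      ← pos1, ← pos2]
  have n2 : ∀ τ, deriv (deriv X2) τ = -((1 / ‖X2 τ - X3 τ‖ ^ 3) • (X2 τ - X3 τ)
      + (m / ‖X2 τ - X0 τ‖ ^ 3) • (X2 τ - X0 τ) + (m / ‖X2 τ - X1 τ‖ ^ 3) • (X2 τ - X1 τ)) := by
    intro τ
    rw [acc2, newtC S, map_add, map_add, Lx_fo, Lx_fo, Lx_fo, ← r2, map_sub, map_sub, ← pos0,
      ← pos1, ← pos2]
  -- affine independence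
  have aff : ∀ τ, AffineIndependent ℝ (fun i : Fin 4 => (![X0, X1, X2, X3] i) τ) := by
    intro τ
    rw [affineIndependent_iff_linearIndependent_vsub ℝ _ (3 : Fin 4)]
    rw [Fintype.linearIndependent_iff]
    intro c hc
    have hc' : c ⟨0, by decide⟩ • (X0 τ - X3 τ) + c ⟨1, by decide⟩ • (X1 τ - X3 τ)
        + c ⟨2, by decide⟩ • (X2 τ - X3 τ) = 0 := by
      rw [← hc]
      have e : (Finset.univ : Finset {x : Fin 4 // x ≠ 3}) =
        {⟨0, by decide⟩, ⟨1, by decide⟩, ⟨2, by decide⟩} := by decide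
      rw [e, Finset.sum_insert (by decide), Finset.sum_insert (by decide), Finset.sum_singleton]
      simp [add_assoc]
    set a := c ⟨0, by decide⟩ with ha
    set b := c ⟨1, by decide⟩ with hb
    set d := c ⟨2, by decide⟩ with hd
    rw [r0, r1, r2, ← map_smul, ← map_smul, ← map_smul, ← map_add, ← map_add] at hc'
    have h1 := Lx_inj _ _ hc'
    have h2 : (a + m * (a + b + d)) • pA u z (κ * τ) + (b + m * (a + b + d)) • pB u z (κ * τ)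
        + (d + m * (a + b + d)) • pC u z (κ * τ) = 0 := by
      rw [← h1]; unfold pS; module
    obtain ⟨q1, q2, q3⟩ := S.indep _ _ _ _ h2
    have q4 : a + b + d = 0 := by
      have : (1 + 3 * m) * (a + b + d) = 0 := by linear_combination q1 + q2 + q3
      rcases mul_eq_zero.1 this with h | h
      · linarith
      · exact h
    rw [q4] at q1 q2 q3
    intro i
    obtain ⟨i, hi⟩ := i
    fin_cases i
    · show a = 0; linarith
    · show b = 0; linarith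
    · show d = 0; linarith
    · exact absurd rfl hi
  have inj : ∀ (τ : ℝ) (i j : Fin 4), i ≠ j → (![X0, X1, X2, X3] i) τ ≠ (![X0, X1, X2, X3] j) τ :=
    fun τ i j hij h => hij ((aff τ).injective h)
  have E0 : Finset.univ.erase (0 : Fin 4) = {1, 2, 3} := by decide
  have E1 : Finset.univ.erase (1 : Fin 4) = {0, 2, 3} := by decide
  have E2 : Finset.univ.erase (2 : Fin 4) = {0, 1, 3} := by decide
  have E3 : Finset.univ.erase (3 : Fin 4) = {0, 1, 2} := by decide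
  refine ⟨![m, m, m, 1], ![X0, X1, X2, X3], ?_, ?_, ?_, ?_, ?_, ?_, aff, ?_⟩
  · intro i; fin_cases i
    · exact hm
    · exact hm
    · exact hm
    · exact one_pos
  · intro i; fin_cases i
    · exact c0
    · exact c1
    · exact c2
    · exact c3
  · exact inj
  · intro τ i
    fin_cases i
    · show deriv (deriv X0) τ = ∑ j ∈ Finset.univ.erase (0 : Fin 4),
        ((![m, m, m, 1] j) / ‖(![X0, X1, X2, X3] j) τ - X0 τ‖ ^ 3) • ((![X0, X1, X2, X3] j) τ - X0 τ)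
      rw [E0, Finset.sum_insert (by decide), Finset.sum_insert (by decide), Finset.sum_singleton]
      show deriv (deriv X0) τ = (m / ‖X1 τ - X0 τ‖ ^ 3) • (X1 τ - X0 τ)
        + ((m / ‖X2 τ - X0 τ‖ ^ 3) • (X2 τ - X0 τ) + (1 / ‖X3 τ - X0 τ‖ ^ 3) • (X3 τ - X0 τ))
      rw [n0, norm_sub_rev (X0 τ) (X1 τ), norm_sub_rev (X0 τ) (X2 τ), norm_sub_rev (X0 τ) (X3 τ)]
      module
    · show deriv (deriv X1) τ = ∑ j ∈ Finset.univ.erase (1 : Fin 4),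
        ((![m, m, m, 1] j) / ‖(![X0, X1, X2, X3] j) τ - X1 τ‖ ^ 3) • ((![X0, X1, X2, X3] j) τ - X1 τ)
      rw [E1, Finset.sum_insert (by decide), Finset.sum_insert (by decide), Finset.sum_singleton]
      show deriv (deriv X1) τ = (m / ‖X0 τ - X1 τ‖ ^ 3) • (X0 τ - X1 τ)
        + ((m / ‖X2 τ - X1 τ‖ ^ 3) • (X2 τ - X1 τ) + (1 / ‖X3 τ - X1 τ‖ ^ 3) • (X3 τ - X1 τ))
      rw [n1, norm_sub_rev (X1 τ) (X0 τ), norm_sub_rev (X1 τ) (X2 τ), norm_sub_rev (X1 τ) (X3 τ)]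
      module
    · show deriv (deriv X2) τ = ∑ j ∈ Finset.univ.erase (2 : Fin 4),
        ((![m, m, m, 1] j) / ‖(![X0, X1, X2, X3] j) τ - X2 τ‖ ^ 3) • ((![X0, X1, X2, X3] j) τ - X2 τ)
      rw [E2, Finset.sum_insert (by decide), Finset.sum_insert (by decide), Finset.sum_singleton]
      show deriv (deriv X2) τ = (m / ‖X0 τ - X2 τ‖ ^ 3) • (X0 τ - X2 τ)
        + ((m / ‖X1 τ - X2 τ‖ ^ 3) • (X1 τ - X2 τ) + (1 / ‖X3 τ - X2 τ‖ ^ 3) • (X3 τ - X2 τ))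
      rw [n2, norm_sub_rev (X2 τ) (X0 τ), norm_sub_rev (X2 τ) (X1 τ), norm_sub_rev (X2 τ) (X3 τ)]
      module
    · show deriv (deriv X3) τ = ∑ j ∈ Finset.univ.erase (3 : Fin 4),
        ((![m, m, m, 1] j) / ‖(![X0, X1, X2, X3] j) τ - X3 τ‖ ^ 3) • ((![X0, X1, X2, X3] j) τ - X3 τ)
      rw [E3, Finset.sum_insert (by decide), Finset.sum_insert (by decide), Finset.sum_singleton]
      show deriv (deriv X3) τ = (m / ‖X0 τ - X3 τ‖ ^ 3) • (X0 τ - X3 τ)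
        + ((m / ‖X1 τ - X3 τ‖ ^ 3) • (X1 τ - X3 τ) + (m / ‖X2 τ - X3 τ‖ ^ 3) • (X2 τ - X3 τ))
      rw [acc3, n0, n1, n2, norm_sub_rev (X1 τ) (X0 τ), norm_sub_rev (X2 τ) (X0 τ),
        norm_sub_rev (X2 τ) (X1 τ)]
      module
  · intro τ
    rw [Fin.sum_univ_four]
    show m • X0 τ + m • X1 τ + m • X2 τ + (1 : ℝ) • X3 τ = 0
    simp only [hX3]
    module
  · intro τ
    have hv0 : ‖deriv X0 τ‖ ^ 2 ≤ 1.041 * W := by
      rw [vel0, norm_Lx]; exact S.vel hw0 hw _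
    have hv1 : ‖deriv X1 τ‖ ^ 2 ≤ 1.041 * W := by
      rw [vel1, norm_Lx, pB, ro_apply, nr_mul _ _ _ norm_ze]; exact S.vel hw0 hw _
    have hv2 : ‖deriv X2 τ‖ ^ 2 ≤ 1.041 * W := by
      rw [vel2, norm_Lx, pC, ro_apply, nr_mul _ _ _ (by rw [norm_pow, norm_ze, one_pow])]
      exact S.vel hw0 hw _
    have hv3 : ‖deriv X3 τ‖ ^ 2 ≤ m ^ 2 * (0.005 * W) := by
      rw [vel3, norm_neg, norm_smul, Real.norm_eq_abs, mul_pow, sq_abs]
      apply mul_le_mul_of_nonneg_left _ (sq_nonneg m)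
      have : deriv X0 τ + deriv X1 τ + deriv X2 τ = Lx w τ (pS v y (κ * τ)) := by
        rw [vel0, vel1, vel2, ← map_add, ← map_add]; rfl
      rw [this, norm_Lx]
      exact S.velS hw0 hw _
    have nze2 : ‖ze ^ 2‖ = 1 := by rw [norm_pow, norm_ze, one_pow]
    have b12 : ‖X1 τ - X2 τ‖ ≤ 1.8 := by
      rw [pos1, pos2, ← map_sub, norm_Lx]; exact S.distp _
    have b02 : ‖X0 τ - X2 τ‖ ≤ 1.8 := by
      rw [norm_sub_rev, pos0, pos2, ← map_sub, norm_Lx, ← shiftB, ← shiftC S.pu S.pz, ← map_sub,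
        ro_apply, nr_mul _ _ _ norm_ze]
      exact S.distp _
    have b01 : ‖X0 τ - X1 τ‖ ≤ 1.8 := by
      rw [pos0, pos1, ← map_sub, norm_Lx, ← shiftC S.pu S.pz, ← shiftA, ← map_sub,
        ro_apply, nr_mul _ _ _ norm_ze, ← shiftB, ← shiftC S.pu S.pz, ← map_sub,
        ro_apply, nr_mul _ _ _ norm_ze]
      exact S.distp _
    have b03 : ‖X0 τ - X3 τ‖ ≤ 1.22 := by
      rw [r0, norm_Lx]; exact S.distc _
    have b13 : ‖X1 τ - X3 τ‖ ≤ 1.22 := by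
      rw [r1, norm_Lx, ← shiftA, ← pS_shift S.pu S.pz, ← map_smul, ← map_add,
        ro_apply, nr_mul _ _ _ norm_ze]
      exact S.distc _
    have b23 : ‖X2 τ - X3 τ‖ ≤ 1.22 := by
      rw [r2, norm_Lx, ← shiftB, ← shiftA, ← pS_shift S.pu S.pz, ← pS_shift S.pu S.pz,
        ← map_smul, ← map_smul, ← map_add, ← map_add,
        ro_apply, nr_mul _ _ _ norm_ze, ro_apply, nr_mul _ _ _ norm_ze]
      exact S.distc _
    have p01 : 0 < ‖X0 τ - X1 τ‖ := norm_sub_pos_iff.2 (inj τ 0 1 (by decide))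
    have p02 : 0 < ‖X0 τ - X2 τ‖ := norm_sub_pos_iff.2 (inj τ 0 2 (by decide))
    have p12 : 0 < ‖X1 τ - X2 τ‖ := norm_sub_pos_iff.2 (inj τ 1 2 (by decide))
    have p03 : 0 < ‖X0 τ - X3 τ‖ := norm_sub_pos_iff.2 (inj τ 0 3 (by decide))
    have p13 : 0 < ‖X1 τ - X3 τ‖ := norm_sub_pos_iff.2 (inj τ 1 3 (by decide))
    have p23 : 0 < ‖X2 τ - X3 τ‖ := norm_sub_pos_iff.2 (inj τ 2 3 (by decide))
    rw [Fin.sum_univ_four, Fin.sum_univ_four, E0, E1, E2, E3]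
    rw [Finset.sum_insert (by decide), Finset.sum_insert (by decide), Finset.sum_singleton,
      Finset.sum_insert (by decide), Finset.sum_insert (by decide), Finset.sum_singleton,
      Finset.sum_insert (by decide), Finset.sum_insert (by decide), Finset.sum_singleton,
      Finset.sum_insert (by decide), Finset.sum_insert (by decide), Finset.sum_singleton]
    have key := energy_num hW hml hm' hv0 hv1 hv2 hv3 p01 p02 p12 p03 p13 p23 b01 b02 b12 b03 b13 b23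
    refine lt_of_eq_of_lt ?_ key
    show (1 / 2 : ℝ) * (m * ‖deriv X0 τ‖ ^ 2 + m * ‖deriv X1 τ‖ ^ 2 + m * ‖deriv X2 τ‖ ^ 2
        + 1 * ‖deriv X3 τ‖ ^ 2) - (1 / 2 : ℝ) * (
        (m * m / ‖X0 τ - X1 τ‖ + (m * m / ‖X0 τ - X2 τ‖ + m * 1 / ‖X0 τ - X3 τ‖))
        + (m * m / ‖X1 τ - X0 τ‖ + (m * m / ‖X1 τ - X2 τ‖ + m * 1 / ‖X1 τ - X3 τ‖))
        + (m * m / ‖X2 τ - X0 τ‖ + (m * m / ‖X2 τ - X1 τ‖ + m * 1 / ‖X2 τ - X3 τ‖))
        + (1 * m / ‖X3 τ - X0 τ‖ + (1 * m / ‖X3 τ - X1 τ‖ + 1 * m / ‖X3 τ - X2 τ‖))) = _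
    rw [norm_sub_rev (X1 τ) (X0 τ), norm_sub_rev (X2 τ) (X0 τ), norm_sub_rev (X2 τ) (X1 τ),
      norm_sub_rev (X3 τ) (X0 τ), norm_sub_rev (X3 τ) (X1 τ), norm_sub_rev (X3 τ) (X2 τ)]
    ring
  · refine ⟨20, fun i τ => ?_⟩
    have hb : ∀ t, nr (u t) (z t) ≤ 1.02 := fun t => by
      refine (nr_le _ _).trans ?_
      have h1 := S.normu t
      have h2 := S.bz t
      norm_num at h1 ⊢
      linarith
    have b0 : ‖X0 τ‖ ≤ 1.02 := by rw [pos0, norm_Lx]; exact hb _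
    have b1 : ‖X1 τ‖ ≤ 1.02 := by
      rw [pos1, norm_Lx, pB, ro_apply, nr_mul _ _ _ norm_ze]; exact hb _
    have b2 : ‖X2 τ‖ ≤ 1.02 := by
      rw [pos2, norm_Lx, pC, ro_apply, nr_mul _ _ _ (by rw [norm_pow, norm_ze, one_pow])]
      exact hb _
    have b3 : ‖X3 τ‖ ≤ 3.3 * 3.06 := by
      simp only [hX3]
      rw [norm_neg, norm_smul, Real.norm_eq_abs, abs_of_pos hm]
      have : ‖X0 τ + X1 τ + X2 τ‖ ≤ 3.06 := by
        refine norm_add₃_le.trans ?_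
        norm_num at b0 b1 b2 ⊢
        linarith
      exact mul_le_mul hm'.le this (norm_nonneg _) (by norm_num)
    fin_cases i
    · show ‖X0 τ‖ ≤ 20
      norm_num at b0 ⊢; linarith
    · show ‖X1 τ‖ ≤ 20
      norm_num at b1 ⊢; linarith
    · show ‖X2 τ‖ ≤ 20
      norm_num at b2 ⊢; linarith
    · show ‖X3 τ‖ ≤ 20
      norm_num at b3 ⊢; linarith

end

end Pool.Agent.FourBody
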