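import Pool.Agent.MP_7235ad_an.Limit
import Pool.Agent.MP_7235ad_an.Main

set_option autoImplicit false
set_option linter.unusedSimpArgs false
set_option linter.unusedVariables false

namespace Pool.Agent.FourBody

open Complex Filter
open scoped Topology

theorem vol_ne {e σ W : ℝ} {f g p s : E} (h2 : G2 e σ W g p s = 0) (he : e ≠ 0)
    (hW : 2.8 < W) (hW' : W < 2.9) (hσ : |σ - 1| ≤ 1 / 100)
    (herr : err (e, (f, g, p, s, σ, W)) < |Dinf|) (t : ℝ) :
    Zf e g t * ((ze * Uf e f (t - th)).re * (ze ^ 2 * Uf e f (t - 2 * th)).im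
        - (ze * Uf e f (t - th)).im * (ze ^ 2 * Uf e f (t - 2 * th)).re)
      + Zf e g (t - th) * ((ze ^ 2 * Uf e f (t - 2 * th)).re * (Uf e f t).im
        - (ze ^ 2 * Uf e f (t - 2 * th)).im * (Uf e f t).re)
      + Zf e g (t - 2 * th) * ((Uf e f t).re * (ze * Uf e f (t - th)).im
        - (Uf e f t).im * (ze * Uf e f (t - th)).re) ≠ 0 := by
  intro hv
  have hvol := vol_eq e f g t
  rw [hv] at hvol
  set K := Km (sy g) with hK
  set D : E := (Real.sqrt 3 / 2) • ((1 / e) • P0 K) + P0 (cv K (Psi1 e f)) with hD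
  have e1 : P0 (cv (e • K) ((Real.sqrt 3 / 2) • dl 0 + e • Psi1 e f)) = (e ^ 2) • D := by
    rw [hD, map_smul, smul_apply, map_add, map_smul, map_smul, cv_zero_right, map_smul, map_add,
      map_smul, map_smul, smul_add, smul_add, smul_smul, smul_smul, smul_smul, smul_smul]
    congr 2
    · field_simp
    · ring
  rw [e1, map_smul, Complex.real_smul] at hvol
  have h0 : ev t D = 0 := by
    have he2 : ((e ^ 2 : ℝ) : ℂ) ≠ 0 := by
      exact_mod_cast pow_ne_zero 2 he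
    have h3 : (3 : ℂ) * (((e ^ 2 : ℝ) : ℂ) * ev t D) = 0 := by rw [← hvol]; simp
    rcases mul_eq_zero.1 h3 with h | h
    · norm_num at h
    · exact (mul_eq_zero.1 h).resolve_left he2
  have h1 : ‖D - Dinf • dl 0‖ ≤ err (e, (f, g, p, s, σ, W)) := by
    have ha := a_bd h2 he hW hW' hσ c0
    have e2 : D - Dinf • dl 0 =
        (Real.sqrt 3 / 2) • ((1 / e) • P0 K + (c0 / (1 + kk * (W - 1))) • dl 0)
        + (-(Real.sqrt 3 / 2 * (c0 / (1 + kk * (W - 1)) - c0 / C10))) • dl 0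
        + (P0 (cv K (Psi1 e f)) - (-(3 * Real.sqrt 3)) • dl 0) := by
      rw [hD]; unfold Dinf; module
    rw [e2]
    have hs : 0 ≤ Real.sqrt 3 / 2 := by positivity
    refine (norm_add₃_le).trans ?_
    unfold err
    simp only
    refine add_le_add (add_le_add ?_ ?_) le_rfl
    · rw [norm_smul, Real.norm_eq_abs, abs_of_nonneg hs]
      exact mul_le_mul_of_nonneg_left ha hs
    · rw [norm_smul, Real.norm_eq_abs, abs_neg, abs_mul, abs_of_nonneg hs]
  have h2' : |Dinf| ≤ ‖D - Dinf • dl 0‖ := by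
    have h3 := norm_ev_le t (D - Dinf • dl 0)
    rw [map_sub, h0, map_smul, ev_zero, zero_sub, norm_neg, Complex.real_smul, mul_one,
      Complex.norm_real, Real.norm_eq_abs] at h3
    exact h3
  linarith

theorem bd_ev (e : ℝ) (X : E) (h : |e| * ‖X‖ ≤ 1 / 100) (t : ℝ) : ‖(e : ℂ) * ev t X‖ ≤ 1 / 100 := by
  rw [norm_mul, Complex.norm_real, Real.norm_eq_abs]
  exact (mul_le_mul_of_nonneg_left (norm_ev_le t X) (abs_nonneg _)).trans h

theorem exists_sol : ∃ (m W σ : ℝ) (u u1 u2 : ℝ → ℂ) (z z1 z2 : ℝ → ℝ),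
    Sol m W σ u u1 u2 z z1 z2 := by
  obtain ⟨ψ, hψ, hG⟩ := exists_branch
  have hx : Tendsto (fun ε : ℝ => (ε, ψ ε)) (𝓝 0) (𝓝 ((0 : ℝ), y0)) :=
    (tendsto_id (α := ℝ)).prodMk_nhds hψ
  have small : ∀ F : ℝ × Y → ℝ, ContinuousAt F ((0 : ℝ), y0) → ∀ c : ℝ, F ((0 : ℝ), y0) < c →
      ∀ᶠ ε : ℝ in 𝓝 0, F (ε, ψ ε) < c := by
    intro F hF c hc
    exact (hF.tendsto.comp hx).eventually (gt_mem_nhds hc)
  have nA : ∀ A : E →L[ℝ] E, ∀ π : Y →L[ℝ] E, ∀ᶠ ε : ℝ in 𝓝 0, |ε| * ‖A (π (ψ ε))‖ < 1 / 100 := by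
    intro A π
    refine small (fun x => |x.1| * ‖A (π x.2)‖) ?_ _ ?_
    · apply Continuous.continuousAt
      exact (continuous_fst.abs).mul ((A.continuous.comp (π.continuous.comp continuous_snd)).norm)
    · simp
  have v1 := nA Km prf
  have v2 := nA N1 prf
  have v3 := nA (Km.comp sy) prg
  have v4 := nA (N1.comp sy) prg
  have v5 := nA (ContinuousLinearMap.id ℝ E) prp
  have v6 := nA (ContinuousLinearMap.id ℝ E) prs
  have v7 := small (fun x => |x.2.2.2.2.2.1 - 1|) (by fun_prop) (1 / 100) (by simp [y0])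
  have v8 := small (fun x => x.2.2.2.2.2.2) (by fun_prop) 2.9 (by
    show W0 < 2.9
    have := W0_ub; linarith)
  have v9 := small (fun x => -x.2.2.2.2.2.2) (by fun_prop) (-2.8) (by
    show -W0 < -2.8
    have := W0_lb; linarith)
  have v10 := small err err_cont |Dinf| (by rw [err_zero]; exact abs_pos.2 Dinf_ne)
  have hall := (((((((((v1.and v2).and v3).and v4).and v5).and v6).and v7).and v8).and v9).and v10).and hG
  have hne : ∃ᶠ ε : ℝ in 𝓝 0, ε ≠ 0 := by
    have : (𝓝[≠] (0 : ℝ)).NeBot := inferInstance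
    exact (frequently_mem_iff_neBot (s := {x : ℝ | x ≠ 0})).2 this
  obtain ⟨ε, he, hall'⟩ := (hne.and_eventually hall).exists
  obtain ⟨⟨⟨⟨⟨⟨⟨⟨⟨⟨w1, w2⟩, w3⟩, w4⟩, w5⟩, w6⟩, w7⟩, w8⟩, w9⟩, w10⟩, wG⟩ := hall'
  obtain ⟨⟨f, g, p, s, σ, W⟩, hy⟩ : ∃ y : Y, ψ ε = y := ⟨_, rfl⟩
  rw [hy] at w1 w2 w3 w4 w5 w6 w7 w8 w9 w10 wG
  simp only [prf_apply, prg_apply, prp_apply, prs_apply, ContinuousLinearMap.comp_apply,
    ContinuousLinearMap.id_apply] at w1 w2 w3 w4 w5 w6 w7 w8 w9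
  have hG1 : G1 ε σ W f g p s = 0 := congrArg (fun x : Y => x.1) wG
  have hG2 : G2 ε σ W g p s = 0 := congrArg (fun x : Y => x.2.1) wG
  have hG3 : G3 ε W f g p = 0 := congrArg (fun x : Y => x.2.2.1) wG
  have hG4 : G4 ε f g s = 0 := congrArg (fun x : Y => x.2.2.2.1) wG
  have hW : 2.8 < W := by linarith
  have hp : |ε| * ‖p‖ < 1 := by linarith
  have hs : |ε| * ‖s‖ < 1 := by linarith
  refine ⟨Real.sqrt 3 * (W - 1), W, σ, Uf ε f, Uf1 ε f, Uf2 ε f, Zf ε g, Zf1 ε g, Zf2 ε g, ?_⟩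
  exact
  { hm := rfl
    hW := hW
    hW' := w8
    hσ := w7.le
    du := Uf_deriv ε f
    du1 := Uf1_deriv ε f
    cu2 := (continuous_const.mul (continuous_ev _)).neg
    dz := Zf_deriv ε g
    dz1 := Zf1_deriv ε g
    cz2 := Complex.continuous_re.comp ((continuous_const.mul (continuous_ev _)).neg)
    pu := Uf_per ε f
    pu1 := fun t => by unfold Uf1; rw [ev_periodic]
    pu2 := fun t => by unfold Uf2; rw [ev_periodic]
    pz := Zf_per ε g
    bu := fun t => by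
      rw [Uf_eq, add_sub_cancel_left]; exact bd_ev ε _ w1.le t
    bu1 := fun t => by
      have h := bd_ev ε _ w2.le t
      unfold Uf1
      have e : (ε : ℂ) * (I * ev t (N1 f)) = I * (ε * ev t (N1 f)) := by ring
      rw [e, norm_mul, Complex.norm_I, one_mul]; exact h
    bz := fun t => by
      have h := bd_ev ε _ w3.le t
      rw [← Zf_eq, Complex.norm_real, Real.norm_eq_abs] at h
      exact h
    bz1 := fun t => by
      have h := bd_ev ε _ w4.le t
      unfold Zf1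
      have e : (ε : ℂ) * (I * ev t (N1 (sy g))) = I * (ε * ev t (N1 (sy g))) := by ring
      refine (Complex.abs_re_le_norm _).trans ?_
      rw [e, norm_mul, Complex.norm_I, one_mul]; exact h
    posc := fun t => (rho_c ε W f g p _ rfl hG3 hp t).1
    posp := fun t => (rho_p ε f g s hG4 hs t).1
    newt1 := fun t => newton1 ε W σ f g p s _ rfl hG1 hG3 hG4 hp hs t
    newt2 := fun t => newton2 ε W σ f g p s _ rfl hG2 hG3 hG4 hp hs t
    det := fun t => vol_ne hG2 he hW w8 w7.le w10 t }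

end Pool.Agent.FourBody
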