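import Pool.Agent.MP_7235ad_an.Assembly

set_option autoImplicit false
set_option linter.unusedSimpArgs false
set_option linter.unusedVariables false

namespace Pool.Agent.FourBody

open Complex

section
variable {m W σ : ℝ} {u u1 u2 : ℝ → ℂ} {z z1 z2 : ℝ → ℝ}

theorem nr_le (a : ℂ) (b : ℝ) : nr a b ≤ ‖a‖ + |b| := by
  unfold nr
  apply Real.sqrt_le_iff.2
  constructor
  · positivity
  · nlinarith [mul_nonneg (norm_nonneg a) (abs_nonneg b), sq_abs b]

theorem Sol.m_lb (S : Sol m W σ u u1 u2 z z1 z2) : 1.732 * (W - 1) < m := by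
  have h1 := S.hm
  have h2 := S.hW
  have h3 : (1.732 : ℝ) < Real.sqrt 3 := by
    apply Real.lt_sqrt_of_sq_lt; norm_num
  rw [h1]
  apply mul_lt_mul_of_pos_right h3 (by linarith)

theorem Sol.m_ub (S : Sol m W σ u u1 u2 z z1 z2) : m < 3.3 := by
  have h1 := S.hm
  have h2 := S.hW
  have h2' := S.hW'
  have h3 : Real.sqrt 3 < 1.7321 := by
    rw [Real.sqrt_lt' (by norm_num)]; norm_num
  rw [h1]
  nlinarith

theorem Sol.m_pos (S : Sol m W σ u u1 u2 z z1 z2) : 0 < m := by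
  have := S.m_lb
  have h2 := S.hW
  nlinarith

/-- the sum of the three rotated values is small -/
theorem Sol.sumq (S : Sol m W σ u u1 u2 z z1 z2) (t : ℝ) :
    ‖u t + ze * u (t - th) + ze ^ 2 * u (t - 2 * th)‖ ≤ 3 / 100 := by
  have e : u t + ze * u (t - th) + ze ^ 2 * u (t - 2 * th) =
      (u t - 1) + ze * (u (t - th) - 1) + ze ^ 2 * (u (t - 2 * th) - 1) := by
    linear_combination ze_sq
  rw [e]
  have h1 := S.bu t
  have h2 := S.bu (t - th)
  have h3 := S.bu (t - 2 * th)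
  have n1 : ‖ze * (u (t - th) - 1)‖ = ‖u (t - th) - 1‖ := by rw [norm_mul, norm_ze, one_mul]
  have n2 : ‖ze ^ 2 * (u (t - 2 * th) - 1)‖ = ‖u (t - 2 * th) - 1‖ := by
    rw [norm_mul, norm_pow, norm_ze, one_pow, one_mul]
  calc _ ≤ ‖u t - 1‖ + ‖ze * (u (t - th) - 1)‖ + ‖ze ^ 2 * (u (t - 2 * th) - 1)‖ := norm_add₃_le
    _ ≤ 3 / 100 := by rw [n1, n2]; linarith

theorem Sol.sumq1 (S : Sol m W σ u u1 u2 z z1 z2) (t : ℝ) :
    ‖u1 t + ze * u1 (t - th) + ze ^ 2 * u1 (t - 2 * th)‖ ≤ 3 / 100 := by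
  have h1 := S.bu1 t
  have h2 := S.bu1 (t - th)
  have h3 := S.bu1 (t - 2 * th)
  have n1 : ‖ze * (u1 (t - th))‖ = ‖u1 (t - th)‖ := by rw [norm_mul, norm_ze, one_mul]
  have n2 : ‖ze ^ 2 * (u1 (t - 2 * th))‖ = ‖u1 (t - 2 * th)‖ := by
    rw [norm_mul, norm_pow, norm_ze, one_pow, one_mul]
  calc _ ≤ ‖u1 t‖ + ‖ze * (u1 (t - th))‖ + ‖ze ^ 2 * (u1 (t - 2 * th))‖ := norm_add₃_le
    _ ≤ 3 / 100 := by rw [n1, n2]; linarith

theorem Sol.sumz (S : Sol m W σ u u1 u2 z z1 z2) (t : ℝ) :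
    |z t + z (t - th) + z (t - 2 * th)| ≤ 3 / 100 := by
  have h1 := S.bz t
  have h2 := S.bz (t - th)
  have h3 := S.bz (t - 2 * th)
  calc _ ≤ |z t| + |z (t - th)| + |z (t - 2 * th)| := abs_add_three _ _ _
    _ ≤ 3 / 100 := by linarith

theorem Sol.sumz1 (S : Sol m W σ u u1 u2 z z1 z2) (t : ℝ) :
    |z1 t + z1 (t - th) + z1 (t - 2 * th)| ≤ 3 / 100 := by
  have h1 := S.bz1 t
  have h2 := S.bz1 (t - th)
  have h3 := S.bz1 (t - 2 * th)
  calc _ ≤ |z1 t| + |z1 (t - th)| + |z1 (t - 2 * th)| := abs_add_three _ _ _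
    _ ≤ 3 / 100 := by linarith

theorem Sol.normu (S : Sol m W σ u u1 u2 z z1 z2) (t : ℝ) : ‖u t‖ ≤ 1.01 := by
  have h1 := S.bu t
  calc ‖u t‖ = ‖(u t - 1) + 1‖ := by ring_nf
    _ ≤ ‖u t - 1‖ + ‖(1 : ℂ)‖ := norm_add_le _ _
    _ ≤ 1.01 := by rw [norm_one]; linarith

/-- planet to centre distances -/
theorem Sol.distc (S : Sol m W σ u u1 u2 z z1 z2) (t : ℝ) :
    nr (pA u z t + m • pS u z t).1 (pA u z t + m • pS u z t).2 ≤ 1.22 := by
  refine (nr_le _ _).trans ?_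
  have hm := S.m_pos
  have hm' := S.m_ub
  have e1 : (pA u z t + m • pS u z t).1 = u t + m * (u t + ze * u (t - th) + ze ^ 2 * u (t - 2 * th)) := by
    simp [pA, pS, pB, pC]; ring
  have e2 : (pA u z t + m • pS u z t).2 = z t + m * (z t + z (t - th) + z (t - 2 * th)) := by
    simp [pA, pS, pB, pC]
  rw [e1, e2]
  have h1 : ‖u t + m * (u t + ze * u (t - th) + ze ^ 2 * u (t - 2 * th))‖ ≤ 1.01 + 3.3 * (3 / 100) := by
    refine (norm_add_le _ _).trans (add_le_add (S.normu t) ?_)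
    rw [norm_mul, Complex.norm_real, Real.norm_eq_abs, abs_of_pos hm]
    exact mul_le_mul hm'.le (S.sumq t) (norm_nonneg _) (by norm_num)
  have h2 : |z t + m * (z t + z (t - th) + z (t - 2 * th))| ≤ 1 / 100 + 3.3 * (3 / 100) := by
    refine (abs_add_le _ _).trans (add_le_add (S.bz t) ?_)
    rw [abs_mul, abs_of_pos hm]
    exact mul_le_mul hm'.le (S.sumz t) (abs_nonneg _) (by norm_num)
  norm_num at h1 h2 ⊢
  linarith

theorem norm_rt : ‖rt‖ = Real.sqrt 3 := by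
  have : ‖rt‖ ^ 2 = 3 := by
    rw [← Complex.normSq_eq_norm_sq, Complex.normSq_apply]
    simp [rt]
  rw [← this, Real.sqrt_sq (norm_nonneg _)]

theorem Sol.distp (S : Sol m W σ u u1 u2 z z1 z2) (t : ℝ) :
    nr (pB u z t - pC u z t).1 (pB u z t - pC u z t).2 ≤ 1.8 := by
  refine (nr_le _ _).trans ?_
  have e1 : (pB u z t - pC u z t).1 = ze * (u (t - th) - 1) - ze ^ 2 * (u (t - 2 * th) - 1) + rt := by
    simp [pB, pC, rt_eq]; linear_combination (-1 : ℂ) * ze_sq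
  have e2 : (pB u z t - pC u z t).2 = z (t - th) - z (t - 2 * th) := by
    simp [pB, pC]
  rw [e1, e2]
  have h2 := S.bu (t - th)
  have h3 := S.bu (t - 2 * th)
  have h4 := S.bz (t - th)
  have h5 := S.bz (t - 2 * th)
  have n1 : ‖ze * (u (t - th) - 1)‖ = ‖u (t - th) - 1‖ := by rw [norm_mul, norm_ze, one_mul]
  have n2 : ‖ze ^ 2 * (u (t - 2 * th) - 1)‖ = ‖u (t - 2 * th) - 1‖ := by
    rw [norm_mul, norm_pow, norm_ze, one_pow, one_mul]
  have h6 : Real.sqrt 3 < 1.7321 := by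
    rw [Real.sqrt_lt' (by norm_num)]; norm_num
  have h7 : ‖ze * (u (t - th) - 1) - ze ^ 2 * (u (t - 2 * th) - 1) + rt‖ ≤ 1 / 100 + 1 / 100 + 1.7321 := by
    refine (norm_add_le _ _).trans (add_le_add ?_ (by rw [norm_rt]; exact h6.le))
    refine (norm_sub_le _ _).trans (add_le_add ?_ ?_)
    · rw [n1]; exact h2
    · rw [n2]; exact h3
  have h8 : |z (t - th) - z (t - 2 * th)| ≤ 1 / 100 + 1 / 100 :=
    (abs_sub _ _).trans (add_le_add h4 h5)
  norm_num at h7 h8 ⊢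
  linarith

/-- the linear isometry carrying reduced coordinates to space at time `τ` -/
noncomputable def Lx (w τ : ℝ) : ℂ × ℝ →L[ℝ] V3 := emb.comp (ro (ex w τ))

theorem norm_Lx (w τ : ℝ) (a : ℂ × ℝ) : ‖Lx w τ a‖ = nr a.1 a.2 := by
  have : Lx w τ a = emb (ex w τ * a.1, a.2) := rfl
  rw [this, norm_emb, nr_mul _ _ _ (norm_ex w τ)]

theorem Lx_fo (w τ c : ℝ) (a : ℂ × ℝ) : Lx w τ (fo c a) = (c / ‖Lx w τ a‖ ^ 3) • Lx w τ a := by
  unfold Lx
  rw [ContinuousLinearMap.comp_apply, ro_fo _ _ _ (norm_ex w τ), emb_fo]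
  rfl

theorem Lx_inj (w τ : ℝ) {a : ℂ × ℝ} (h : Lx w τ a = 0) : a = 0 := by
  have h1 : ‖Lx w τ a‖ = 0 := by rw [h, norm_zero]
  rw [norm_Lx] at h1
  by_contra h2
  have := (nr_pos_iff a.1 a.2).2 h2
  linarith

/-- the linear independence of the three planets -/
theorem Sol.indep (S : Sol m W σ u u1 u2 z z1 z2) (t a b c : ℝ)
    (h : a • pA u z t + b • pB u z t + c • pC u z t = 0) : a = 0 ∧ b = 0 ∧ c = 0 := by
  have hd := S.det t
  set xA := (u t).re with hxA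
  set yA := (u t).im with hyA
  set zA := z t with hzA
  set xB := (ze * u (t - th)).re with hxB
  set yB := (ze * u (t - th)).im with hyB
  set zB := z (t - th) with hzB
  set xC := (ze ^ 2 * u (t - 2 * th)).re with hxC
  set yC := (ze ^ 2 * u (t - 2 * th)).im with hyC
  set zC := z (t - 2 * th) with hzC
  have e1 : a * xA + b * xB + c * xC = 0 := by
    have := congrArg (fun x : ℂ × ℝ => x.1.re) h
    simp only [pA, pB, pC, ro_apply, Prod.fst_add, Prod.smul_fst, Complex.add_re,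
      Complex.real_smul, Complex.re_ofReal_mul, Prod.fst_zero, Complex.zero_re] at this
    exact this
  have e2 : a * yA + b * yB + c * yC = 0 := by
    have := congrArg (fun x : ℂ × ℝ => x.1.im) h
    simp only [pA, pB, pC, ro_apply, Prod.fst_add, Prod.smul_fst, Complex.add_im,
      Complex.real_smul, Complex.im_ofReal_mul, Prod.fst_zero, Complex.zero_im] at this
    exact this
  have e3 : a * zA + b * zB + c * zC = 0 := by
    have := congrArg (fun x : ℂ × ℝ => x.2) h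
    simp only [pA, pB, pC, ro_apply, Prod.snd_add, Prod.smul_snd, smul_eq_mul, Prod.snd_zero] at this
    exact this
  set D := zA * (xB * yC - yB * xC) + zB * (xC * yA - yC * xA) + zC * (xA * yB - yA * xB) with hD
  have ha : a * D = 0 := by
    rw [hD]
    linear_combination (yB * zC - zB * yC) * e1 + (zB * xC - xB * zC) * e2 + (xB * yC - yB * xC) * e3
  have hb : b * D = 0 := by
    rw [hD]
    linear_combination (yC * zA - zC * yA) * e1 + (zC * xA - xC * zA) * e2 + (xC * yA - yC * xA) * e3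
  have hc : c * D = 0 := by
    rw [hD]
    linear_combination (yA * zB - zA * yB) * e1 + (zA * xB - xA * zB) * e2 + (xA * yB - yA * xB) * e3
  exact ⟨(mul_eq_zero.1 ha).resolve_right hd, (mul_eq_zero.1 hb).resolve_right hd,
    (mul_eq_zero.1 hc).resolve_right hd⟩

end

end Pool.Agent.FourBody
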