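import Pool.Agent.MP_7235ad_an.Seq

set_option autoImplicit false
set_option linter.unusedSimpArgs false
set_option linter.unusedVariables false

namespace Pool.Agent.FourBody

/-- the odd character modulo three, as a real valued function on the integers -/
noncomputable def chi (n : ℤ) : ℝ := if n % 3 = 1 then 1 else if n % 3 = 2 then -1 else 0

theorem abs_chi_le (n : ℤ) : |chi n| ≤ 1 := by
  unfold chi; split_ifs <;> simp

/-- indicator of the residue class `0` modulo three -/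
noncomputable def i0 (n : ℤ) : ℝ := if n % 3 = 0 then 1 else 0
/-- indicator of the residue class `1` modulo three -/
noncomputable def i1 (n : ℤ) : ℝ := if n % 3 = 1 then 1 else 0

theorem abs_i0_le (n : ℤ) : |i0 n| ≤ 1 := by
  unfold i0; split_ifs <;> simp
theorem abs_i1_le (n : ℤ) : |i1 n| ≤ 1 := by
  unfold i1; split_ifs <;> simp

theorem one_add_sq_pos (n : ℤ) : (0 : ℝ) < 1 + (n : ℝ) ^ 2 := by positivity

theorem kb (n : ℤ) : |1 / (1 + (n : ℝ) ^ 2)| ≤ 1 := by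
  rw [abs_of_pos (by positivity), div_le_one (one_add_sq_pos n)]
  nlinarith [sq_nonneg (n : ℝ)]

theorem n1b (n : ℤ) : |(n : ℝ) / (1 + (n : ℝ) ^ 2)| ≤ 1 := by
  rw [abs_div, abs_of_pos (one_add_sq_pos n), div_le_one (one_add_sq_pos n)]
  rcases abs_cases (n : ℝ) with h | h <;> nlinarith [sq_nonneg ((n : ℝ) - 1), sq_nonneg ((n : ℝ) + 1)]

theorem n2b (n : ℤ) : |(n : ℝ) ^ 2 / (1 + (n : ℝ) ^ 2)| ≤ 1 := by
  rw [abs_of_nonneg (by positivity), div_le_one (one_add_sq_pos n)]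
  linarith

/-- smoothing multiplier -/
noncomputable def Km : E →L[ℝ] E := mul (fun n => 1 / (1 + (n : ℝ) ^ 2)) 1 kb
noncomputable def N1 : E →L[ℝ] E := mul (fun n => (n : ℝ) / (1 + (n : ℝ) ^ 2)) 1 n1b
noncomputable def N2 : E →L[ℝ] E := mul (fun n => (n : ℝ) ^ 2 / (1 + (n : ℝ) ^ 2)) 1 n2b
noncomputable def P0 : E →L[ℝ] E := mul i0 1 abs_i0_le
noncomputable def P1 : E →L[ℝ] E := mul i1 1 abs_i1_le
noncomputable def Qm : E →L[ℝ] E := mul (fun n => chi (1 - n)) 1 (fun n => abs_chi_le _)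
noncomputable def Qp : E →L[ℝ] E := mul (fun n => chi n) 1 (fun n => abs_chi_le _)
/-- even and odd parts -/
noncomputable def sy : E →L[ℝ] E := (1 / 2 : ℝ) • (ContinuousLinearMap.id ℝ E + R)
noncomputable def od : E →L[ℝ] E := (1 / 2 : ℝ) • (ContinuousLinearMap.id ℝ E - R)

@[simp] theorem Km_apply (f : E) (n : ℤ) : Km f n = 1 / (1 + (n : ℝ) ^ 2) * f n := rfl
@[simp] theorem N1_apply (f : E) (n : ℤ) : N1 f n = (n : ℝ) / (1 + (n : ℝ) ^ 2) * f n := rfl
@[simp] theorem N2_apply (f : E) (n : ℤ) : N2 f n = (n : ℝ) ^ 2 / (1 + (n : ℝ) ^ 2) * f n := rfl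
@[simp] theorem P0_apply (f : E) (n : ℤ) : P0 f n = i0 n * f n := rfl
@[simp] theorem P1_apply (f : E) (n : ℤ) : P1 f n = i1 n * f n := rfl
@[simp] theorem Qm_apply (f : E) (n : ℤ) : Qm f n = chi (1 - n) * f n := rfl
@[simp] theorem Qp_apply (f : E) (n : ℤ) : Qp f n = chi n * f n := rfl
@[simp] theorem sy_apply (f : E) (n : ℤ) : sy f n = 1 / 2 * (f n + f (-n)) := rfl
@[simp] theorem od_apply (f : E) (n : ℤ) : od f n = 1 / 2 * (f n - f (-n)) := rfl

/-- the constant `3 * sqrt 3` -/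
noncomputable def kk : ℝ := 3 * Real.sqrt 3

/-- the parameter and unknown space -/
abbrev Y := E × E × E × E × ℝ × ℝ

noncomputable def cu (W : ℝ) (f : E) : E := Km f + (kk * (W - 1)) • P1 (Km f)
noncomputable def cz (W : ℝ) (g : E) : E := Km (sy g) + (kk * (W - 1)) • P0 (Km (sy g))
noncomputable def qu (f : E) : E := Qm (Km f)
noncomputable def qz (g : E) : E := Qp (Km (sy g))

noncomputable def dc (e W : ℝ) (f g : E) : E :=
  cu W f + R (cu W f) + e • (cv (cu W f) (R (cu W f)) + cv (cz W g) (cz W g))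
noncomputable def dp (e : ℝ) (f g : E) : E :=
  qu f + R (qu f) + e • (cv (qu f) (R (qu f)) - cv (qz g) (qz g))
noncomputable def sq2 (e : ℝ) (p : E) : E := (2 : ℝ) • p + e • cv p p
noncomputable def cu3 (e : ℝ) (p : E) : E := (3 : ℝ) • p + (3 * e) • cv p p + (e ^ 2) • cv p (cv p p)

noncomputable def G3 (e W : ℝ) (f g p : E) : E :=
  sq2 e p + dc e W f g + e • cv (sq2 e p) (dc e W f g)
noncomputable def G4 (e : ℝ) (f g s : E) : E :=
  sq2 e s + dp e f g + e • cv (sq2 e s) (dp e f g)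
noncomputable def H1 (e σ W : ℝ) (f p s : E) : E :=
  W • (σ ^ 2 • N2 f + (2 * σ) • N1 f + Km f) -
    (cu W f + cu3 e p + e • cv (cu W f) (cu3 e p)
      + (W - 1) • Qm (qu f + cu3 e s + e • cv (qu f) (cu3 e s)))
noncomputable def G1 (e σ W : ℝ) (f g p s : E) : E :=
  H1 e σ W f p s + (3 / 2 : ℝ) • G3 e W f g p + (3 / 2 * (W - 1)) • Qm (G4 e f g s)
noncomputable def E2 (e σ W : ℝ) (g p s : E) : E :=
  (W * σ ^ 2) • N2 (sy g) -
    (cz W g + e • cv (cz W g) (cu3 e p) + (W - 1) • Qp (qz g + e • cv (qz g) (cu3 e s)))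
noncomputable def G2 (e σ W : ℝ) (g p s : E) : E := sy (E2 e σ W g p s) + od g

noncomputable def G (x : ℝ × Y) : Y :=
  match x with
  | (e, f, g, p, s, σ, W) =>
    (G1 e σ W f g p s, G2 e σ W g p s, G3 e W f g p, G4 e f g s, f 1 - 6, g 1 + g (-1) - 4)

section smooth
variable {X : Type*} [NormedAddCommGroup X] [NormedSpace ℝ X] {f g : X → E}

theorem cdA (A : E →L[ℝ] E) (hf : ContDiff ℝ 1 f) : ContDiff ℝ 1 (fun x => A (f x)) :=
  A.contDiff.comp hf
@[fun_prop] theorem cdKm (hf : ContDiff ℝ 1 f) : ContDiff ℝ 1 (fun x => Km (f x)) := cdA _ hf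
@[fun_prop] theorem cdN1 (hf : ContDiff ℝ 1 f) : ContDiff ℝ 1 (fun x => N1 (f x)) := cdA _ hf
@[fun_prop] theorem cdN2 (hf : ContDiff ℝ 1 f) : ContDiff ℝ 1 (fun x => N2 (f x)) := cdA _ hf
@[fun_prop] theorem cdP0 (hf : ContDiff ℝ 1 f) : ContDiff ℝ 1 (fun x => P0 (f x)) := cdA _ hf
@[fun_prop] theorem cdP1 (hf : ContDiff ℝ 1 f) : ContDiff ℝ 1 (fun x => P1 (f x)) := cdA _ hf
@[fun_prop] theorem cdQm (hf : ContDiff ℝ 1 f) : ContDiff ℝ 1 (fun x => Qm (f x)) := cdA _ hf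
@[fun_prop] theorem cdQp (hf : ContDiff ℝ 1 f) : ContDiff ℝ 1 (fun x => Qp (f x)) := cdA _ hf
@[fun_prop] theorem cdR (hf : ContDiff ℝ 1 f) : ContDiff ℝ 1 (fun x => R (f x)) := cdA _ hf
@[fun_prop] theorem cdsy (hf : ContDiff ℝ 1 f) : ContDiff ℝ 1 (fun x => sy (f x)) := cdA _ hf
@[fun_prop] theorem cdod (hf : ContDiff ℝ 1 f) : ContDiff ℝ 1 (fun x => od (f x)) := cdA _ hf
@[fun_prop] theorem cdcv (hf : ContDiff ℝ 1 f) (hg : ContDiff ℝ 1 g) :
    ContDiff ℝ 1 (fun x => cv (f x) (g x)) :=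
  (cv.contDiff.comp hf).clm_apply hg

end smooth

theorem contDiff_G : ContDiff ℝ 1 G := by
  have h1 : ContDiff ℝ 1 (fun x : ℝ × Y => x.2.1 1) := (coord 1).contDiff.comp (by fun_prop)
  have h2 : ContDiff ℝ 1 (fun x : ℝ × Y => x.2.2.1 1) := (coord 1).contDiff.comp (by fun_prop)
  have h3 : ContDiff ℝ 1 (fun x : ℝ × Y => x.2.2.1 (-1)) := (coord (-1)).contDiff.comp (by fun_prop)
  unfold G G1 G2 H1 E2 G3 G4 cu3 sq2 dc dp cu cz qu qz
  simp only
  fun_prop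

end Pool.Agent.FourBody
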