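import Pool.Agent.MP_7235ad_an.Deriv

set_option autoImplicit false
set_option linter.unusedSimpArgs false
set_option linter.unusedVariables false

namespace Pool.Agent.FourBody

noncomputable def al (n : ℤ) : ℝ :=
  W0 * ((n : ℝ) + 1) ^ 2 + 1 / 2 + (W0 - 1) * (kk / 2 * i1 n + 1 / 2 * chi (1 - n) ^ 2)
noncomputable def be (n : ℤ) : ℝ :=
  3 / 2 + (W0 - 1) * (3 / 2) * (kk * i1 (-n) + chi (1 - n) * chi (1 + n))
noncomputable def ell (n : ℤ) : ℝ :=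
  W0 * (n : ℝ) ^ 2 - 1 - (W0 - 1) * (kk * i0 n + chi n ^ 2)

theorem chi_of0 {n : ℤ} (h : n % 3 = 0) : chi n = 0 := by
  unfold chi; rw [if_neg (by omega), if_neg (by omega)]
theorem chi_of1 {n : ℤ} (h : n % 3 = 1) : chi n = 1 := by
  unfold chi; rw [if_pos h]
theorem chi_of2 {n : ℤ} (h : n % 3 = 2) : chi n = -1 := by
  unfold chi; rw [if_neg (by omega), if_pos h]
theorem i1_of1 {n : ℤ} (h : n % 3 = 1) : i1 n = 1 := by unfold i1; rw [if_pos h]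
theorem i1_of {n : ℤ} (h : n % 3 ≠ 1) : i1 n = 0 := by unfold i1; rw [if_neg h]
theorem i0_of0 {n : ℤ} (h : n % 3 = 0) : i0 n = 1 := by unfold i0; rw [if_pos h]
theorem i0_of {n : ℤ} (h : n % 3 ≠ 0) : i0 n = 0 := by unfold i0; rw [if_neg h]

theorem al0 {n : ℤ} (h : n % 3 = 0) : al n = W0 * ((n : ℝ) + 1) ^ 2 + W0 / 2 := by
  unfold al; rw [i1_of (by omega), chi_of1 (by omega)]; ring
theorem al1 {n : ℤ} (h : n % 3 = 1) : al n = W0 * ((n : ℝ) + 1) ^ 2 + C10 / 2 := by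
  unfold al C10; rw [i1_of1 (by omega), chi_of0 (by omega)]; ring
theorem al2 {n : ℤ} (h : n % 3 = 2) : al n = W0 * ((n : ℝ) + 1) ^ 2 + W0 / 2 := by
  unfold al; rw [i1_of (by omega), chi_of2 (by omega)]; ring
theorem be0 {n : ℤ} (h : n % 3 = 0) : be n = 3 / 2 * W0 := by
  unfold be; rw [i1_of (by omega), chi_of1 (by omega), chi_of1 (by omega)]; ring
theorem be1 {n : ℤ} (h : n % 3 = 1) : be n = 3 / 2 := by
  unfold be; rw [i1_of (by omega), chi_of0 (by omega)]; ring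
theorem be2 {n : ℤ} (h : n % 3 = 2) : be n = 3 / 2 * C10 := by
  unfold be C10; rw [i1_of1 (by omega), chi_of0 (n := 1 + n) (by omega)]; ring
theorem ell0 {n : ℤ} (h : n % 3 = 0) : ell n = W0 * (n : ℝ) ^ 2 - C10 := by
  unfold ell C10; rw [i0_of0 h, chi_of0 h]; ring
theorem ell1 {n : ℤ} (h : n % 3 ≠ 0) : ell n = W0 * (n : ℝ) ^ 2 - W0 := by
  unfold ell; rw [i0_of h]
  rcases (by omega : n % 3 = 1 ∨ n % 3 = 2) with h | h
  · rw [chi_of1 h]; ring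
  · rw [chi_of2 h]; ring

noncomputable def DD (n : ℤ) : ℝ := al n * al (-n) - be n * be (-n)

theorem DD_neg (n : ℤ) : DD (-n) = DD n := by unfold DD; rw [neg_neg]; ring

/-- the estimate on the blocks of the horizontal linearisation, in the resonant residue class -/
theorem block1 {n : ℤ} (h : n % 3 = 1) (hn : n ≠ 1) :
    al n * (1 + (n : ℝ) ^ 2) ≤ 10 * DD n ∧ al (-n) * (1 + (n : ℝ) ^ 2) ≤ 10 * DD n ∧
    be n * (1 + (n : ℝ) ^ 2) ≤ 10 * DD n ∧ be (-n) * (1 + (n : ℝ) ^ 2) ≤ 10 * DD n := by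
  have hW := W0_lb
  have hW' := W0_ub
  have hC := C10_lb
  have hC' := C10_ub
  have e1 : al n = W0 * ((n : ℝ) + 1) ^ 2 + C10 / 2 := al1 h
  have e2 : al (-n) = W0 * ((n : ℝ) - 1) ^ 2 + W0 / 2 := by
    rw [al2 (by omega)]; push_cast; ring
  have e3 : be n = 3 / 2 := be1 h
  have e4 : be (-n) = 3 / 2 * C10 := be2 (by omega)
  have hn2 : (n : ℝ) ≤ -2 ∨ (4 : ℝ) ≤ n := by
    rcases (by omega : n ≤ -2 ∨ 4 ≤ n) with h | h
    · left; exact_mod_cast h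
    · right; exact_mod_cast h
  set x : ℝ := (n : ℝ) with hx
  have l1 : (1 + x ^ 2) ≤ al n := by
    rw [e1]
    have h1 : 2.85 * (x + 1) ^ 2 ≤ W0 * (x + 1) ^ 2 :=
      mul_le_mul_of_nonneg_right hW.le (sq_nonneg _)
    nlinarith [sq_nonneg (x + 1.54)]
  have l2 : (1 + x ^ 2) ≤ al (-n) := by
    rw [e2]; rcases hn2 with h | h <;> nlinarith
  have l3 : 27 ≤ al (-n) := by
    rw [e2]; rcases hn2 with h | h <;> nlinarith
  have l4 : C10 / 2 ≤ al n := by rw [e1]; nlinarith [sq_nonneg (x + 1)]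
  have hpos : 0 < 1 + x ^ 2 := by positivity
  have hD : 1 / 2 * (al n * al (-n)) ≤ DD n := by
    unfold DD; rw [e3, e4]
    nlinarith [mul_le_mul l4 l3 (by norm_num) (by linarith)]
  have hd1 : al n * (1 + x ^ 2) ≤ al n * al (-n) := mul_le_mul_of_nonneg_left l2 (by linarith)
  have hd2 : al (-n) * (1 + x ^ 2) ≤ al n * al (-n) := by
    rw [mul_comm (al n)]; exact mul_le_mul_of_nonneg_left l1 (by linarith)
  have hd3 : 27 * (1 + x ^ 2) ≤ al n * al (-n) := by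
    rw [mul_comm (al n)]
    exact mul_le_mul l3 l1 hpos.le (by linarith)
  refine ⟨by linarith, by linarith, ?_, ?_⟩
  · rw [e3]; linarith
  · rw [e4]; nlinarith

theorem block0 {n : ℤ} (h : n % 3 = 0) (hn : n ≠ 0) :
    al (-n) * (1 + (n : ℝ) ^ 2) ≤ 10 * DD n ∧ be n * (1 + (n : ℝ) ^ 2) ≤ 10 * DD n := by
  have hW := W0_lb
  have hW' := W0_ub
  have e1 : al n = W0 * ((n : ℝ) + 1) ^ 2 + W0 / 2 := al0 h
  have e2 : al (-n) = W0 * ((n : ℝ) - 1) ^ 2 + W0 / 2 := by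
    rw [al0 (by omega)]; push_cast; ring
  have e3 : be n = 3 / 2 * W0 := be0 h
  have e4 : be (-n) = 3 / 2 * W0 := be0 (by omega)
  have hn2 : (9 : ℝ) ≤ (n : ℝ) ^ 2 := by
    have : (9 : ℤ) ≤ n ^ 2 := by
      rcases (by omega : n ≤ -3 ∨ 3 ≤ n) with h | h <;> nlinarith
    exact_mod_cast this
  have hD : DD n = W0 ^ 2 * ((n : ℝ) ^ 2 * ((n : ℝ) ^ 2 - 1)) := by
    unfold DD; rw [e1, e2, e3, e4]; ring
  set x : ℝ := (n : ℝ) with hx
  have hD2 : W0 * (2.85 * (x ^ 2 * (x ^ 2 - 1))) ≤ DD n := by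
    have ht : 0 ≤ x ^ 2 * (x ^ 2 - 1) := by apply mul_nonneg <;> linarith
    have h1 : 2.85 * (x ^ 2 * (x ^ 2 - 1)) ≤ W0 * (x ^ 2 * (x ^ 2 - 1)) :=
      mul_le_mul_of_nonneg_right hW.le ht
    have h2 := mul_le_mul_of_nonneg_left h1 (by linarith : (0:ℝ) ≤ W0)
    calc W0 * (2.85 * (x ^ 2 * (x ^ 2 - 1))) ≤ W0 * (W0 * (x ^ 2 * (x ^ 2 - 1))) := h2
      _ = DD n := by rw [hD]; ring
  constructor
  · have : ((x - 1) ^ 2 + 1 / 2) * (1 + x ^ 2) ≤ 28.5 * (x ^ 2 * (x ^ 2 - 1)) := by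
      have a1 : -2 * x ≤ 1 + x ^ 2 := by nlinarith [sq_nonneg (x + 1)]
      have a2 : x ^ 2 * (-2 * x) ≤ x ^ 2 * (1 + x ^ 2) := mul_le_mul_of_nonneg_left a1 (by positivity)
      nlinarith
    calc al (-n) * (1 + x ^ 2) = W0 * (((x - 1) ^ 2 + 1 / 2) * (1 + x ^ 2)) := by rw [e2]; ring
      _ ≤ W0 * (28.5 * (x ^ 2 * (x ^ 2 - 1))) := mul_le_mul_of_nonneg_left this (by linarith)
      _ ≤ 10 * DD n := by linarith
  · have : 3 / 2 * (1 + x ^ 2) ≤ 28.5 * (x ^ 2 * (x ^ 2 - 1)) := by nlinarith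
    calc be n * (1 + x ^ 2) = W0 * (3 / 2 * (1 + x ^ 2)) := by rw [e3]; ring
      _ ≤ W0 * (28.5 * (x ^ 2 * (x ^ 2 - 1))) := mul_le_mul_of_nonneg_left this (by linarith)
      _ ≤ 10 * DD n := by linarith

theorem al_nonneg (n : ℤ) : 0 ≤ al n := by
  have hW := W0_lb
  have hk := kk_lb
  unfold al
  have h1 : 0 ≤ i1 n := by unfold i1; split_ifs <;> norm_num
  have h2 : 0 ≤ kk / 2 * i1 n := mul_nonneg (by linarith) h1
  have h3 : 0 ≤ (W0 - 1) * (kk / 2 * i1 n + 1 / 2 * chi (1 - n) ^ 2) := by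
    apply mul_nonneg (by linarith); positivity
  positivity

theorem be_nonneg (n : ℤ) : 0 ≤ be n := by
  have hW := W0_lb
  have hC := C10_lb
  rcases (by omega : n % 3 = 0 ∨ n % 3 = 1 ∨ n % 3 = 2) with h | h | h
  · rw [be0 h]; linarith
  · rw [be1 h]; norm_num
  · rw [be2 h]; linarith

theorem block {n : ℤ} (hn : n ≠ 0) (hn1 : n ≠ 1) (hn2 : n ≠ -1) :
    al (-n) * (1 + (n : ℝ) ^ 2) ≤ 10 * DD n ∧ be n * (1 + (n : ℝ) ^ 2) ≤ 10 * DD n := by
  rcases (by omega : n % 3 = 0 ∨ n % 3 = 1 ∨ n % 3 = 2) with h | h | h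
  · exact block0 h hn
  · have := block1 h hn1
    exact ⟨this.2.1, this.2.2.1⟩
  · have := block1 (n := -n) (by omega) (by omega)
    rw [DD_neg, neg_neg] at this
    push_cast at this
    rw [neg_sq] at this
    exact ⟨this.1, this.2.2.2⟩

theorem DD_pos {n : ℤ} (hn : n ≠ 0) (hn1 : n ≠ 1) (hn2 : n ≠ -1) : 0 < DD n := by
  have hb := (block hn hn1 hn2).2
  have hpos := one_add_sq_pos n
  have hbe : 0 < be n := by
    have hW := W0_lb
    have hC := C10_lb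
    rcases (by omega : n % 3 = 0 ∨ n % 3 = 1 ∨ n % 3 = 2) with h | h | h
    · rw [be0 h]; linarith
    · rw [be1 h]; norm_num
    · rw [be2 h]; linarith
  nlinarith [mul_pos hbe hpos]

end Pool.Agent.FourBody
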