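import Pool.Agent.MP_7235ad_an.Vol
import Pool.Agent.MP_7235ad_an.Branch

set_option autoImplicit false
set_option linter.unusedSimpArgs false
set_option linter.unusedVariables false

namespace Pool.Agent.FourBody

open Complex Filter
open scoped Topology

theorem norm_le_of_abs_le {a b : E} (h : ∀ n : ℤ, |a n| ≤ |b n|) : ‖a‖ ≤ ‖b‖ := by
  rw [norm_eq, norm_eq]
  exact (summable_abs a).tsum_le_tsum h (summable_abs b)

/-- right hand side of the averaged vertical equation -/
noncomputable def LL (e W : ℝ) (g p : E) : E := P0 (sy (cv (cz W g) (cu3 e p)))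

theorem sy_E2 {e σ W : ℝ} {g p s : E} (h2 : G2 e σ W g p s = 0) : sy (E2 e σ W g p s) = 0 := by
  have h := congrArg sy h2
  unfold G2 at h
  rw [map_add, map_zero] at h
  have a1 : sy (sy (E2 e σ W g p s)) = sy (E2 e σ W g p s) := by
    apply ext'; intro n; simp only [sy_apply, neg_neg]; ring
  have a2 : sy (od g) = 0 := by
    apply ext'; intro n; simp only [sy_apply, od_apply, neg_neg, zero_app]; ring
  rw [a1, a2, add_zero] at h
  exact h

/-- coordinates of the averaged vertical equation -/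
theorem avg_eq {e σ W : ℝ} {g p s : E} (h2 : G2 e σ W g p s = 0) {n : ℤ} (hn : n % 3 = 0) :
    (W * σ ^ 2 * (n : ℝ) ^ 2 - (1 + kk * (W - 1))) * P0 (Km (sy g)) n = e * LL e W g p n := by
  have h := congrArg (fun x : E => x n) (sy_E2 h2)
  have hn' : (-n) % 3 = 0 := by omega
  simp only [E2, cz, sy_apply, sub_app, add_app, smul_app, N2_apply, Km_apply, P0_apply, Qp_apply,
    zero_app, chi_of0 hn, chi_of0 hn', i0_of0 hn, i0_of0 hn', neg_neg] at h
  push_cast at h
  simp only [neg_sq] at h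
  simp only [LL, P0_apply, sy_apply, i0_of0 hn, Km_apply]
  have hc : cz W g = Km (sy g) + (kk * (W - 1)) • P0 (Km (sy g)) := rfl
  rw [← hc] at h
  have q := (one_add_sq_pos n).ne'
  field_simp at h ⊢
  linear_combination (1 / 2 : ℝ) * h

theorem LL_zero {e W : ℝ} {g p : E} {n : ℤ} (hn : n % 3 ≠ 0) : LL e W g p n = 0 := by
  simp only [LL, P0_apply, i0_of hn, zero_mul]

theorem P0K_zero {g : E} {n : ℤ} (hn : n % 3 ≠ 0) : P0 (Km (sy g)) n = 0 := by
  simp only [P0_apply, i0_of hn, zero_mul]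

theorem denom_bd {W σ : ℝ} (hW : 2.8 < W) (hW' : W < 2.9) (hσ : |σ - 1| ≤ 1 / 100) {n : ℤ}
    (hn : n % 3 = 0) (h0 : n ≠ 0) : 1 ≤ W * σ ^ 2 * (n : ℝ) ^ 2 - (1 + kk * (W - 1)) := by
  have hn2 : (9 : ℝ) ≤ (n : ℝ) ^ 2 := by
    have : (9 : ℤ) ≤ n ^ 2 := by
      rcases (by omega : n ≤ -3 ∨ 3 ≤ n) with h | h <;> nlinarith
    exact_mod_cast this
  have hs : 0.98 ≤ σ ^ 2 := by
    rw [abs_le] at hσ; nlinarith
  have hk := kk_ub
  have hk' := kk_lb
  have h1 : 2.744 ≤ W * σ ^ 2 := by nlinarith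
  have h2 : 2.744 * 9 ≤ W * σ ^ 2 * (n : ℝ) ^ 2 := mul_le_mul h1 hn2 (by norm_num) (by linarith)
  nlinarith

/-- the rescaled averaged vertical motion is controlled -/
theorem a_bd {e σ W : ℝ} {g p s : E} (h2 : G2 e σ W g p s = 0) (he : e ≠ 0)
    (hW : 2.8 < W) (hW' : W < 2.9) (hσ : |σ - 1| ≤ 1 / 100) (c : ℝ) :
    ‖(1 / e) • P0 (Km (sy g)) + (c / (1 + kk * (W - 1))) • dl 0‖ ≤ ‖LL e W g p - c • dl 0‖ := by
  apply norm_le_of_abs_le
  intro n
  have hk := kk_lb
  have hC : 1 ≤ 1 + kk * (W - 1) := by nlinarith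
  simp only [add_app, sub_app, smul_app]
  by_cases hn : n % 3 = 0
  · have h := avg_eq h2 hn
    by_cases h0 : n = 0
    · subst h0
      rw [dl_self]
      have h' : (1 / e) * P0 (Km (sy g)) 0 + c / (1 + kk * (W - 1)) * 1
          = -(LL e W g p 0 - c * 1) / (1 + kk * (W - 1)) := by
        rw [Int.cast_zero] at h
        have h3 : 1 + kk * (W - 1) ≠ 0 := by linarith
        field_simp
        linear_combination (-1 : ℝ) * h
      rw [h', abs_div, abs_neg, abs_of_nonneg (by linarith : (0:ℝ) ≤ 1 + kk * (W - 1))]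
      exact div_le_self (abs_nonneg _) hC
    · rw [dl_ne h0, mul_zero, mul_zero, add_zero, sub_zero]
      have hb := denom_bd hW hW' hσ hn h0
      set d := W * σ ^ 2 * (n : ℝ) ^ 2 - (1 + kk * (W - 1)) with hd
      have h' : (1 / e) * P0 (Km (sy g)) n = LL e W g p n / d := by
        have h3 : d ≠ 0 := by linarith
        field_simp
        linear_combination h
      rw [h', abs_div, abs_of_nonneg (by linarith : (0:ℝ) ≤ d)]
      exact div_le_self (abs_nonneg _) hb
  · have h0 : n ≠ 0 := by rintro rfl; exact hn rfl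
    rw [P0K_zero hn, LL_zero hn, dl_ne h0]
    simp

theorem cv_zero_right (f : E) : cv f (dl 0) = f := by
  have : cv.flip (dl 0) = ContinuousLinearMap.id ℝ E := by
    apply clm_ext; intro n
    rw [ContinuousLinearMap.flip_apply, cv_dl_dl, add_zero]; rfl
  exact DFunLike.congr_fun this f

/-! ### values at the base point -/

noncomputable def c0 : ℝ := 6 * (4 * W0 - C10)
noncomputable def Dinf : ℝ := -(Real.sqrt 3 / 2) * (c0 / C10) - 3 * Real.sqrt 3

theorem Dinf_ne : Dinf ≠ 0 := by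
  have h3 : 0 < Real.sqrt 3 := Real.sqrt_pos.2 (by norm_num)
  have hC := C10_lb
  have hW := W0_lb
  have h : Dinf = -(12 * Real.sqrt 3 * W0 / C10) := by
    unfold Dinf c0
    have : C10 ≠ 0 := by linarith
    field_simp
    ring
  rw [h, neg_ne_zero]
  apply div_ne_zero _ (by linarith)
  have : 0 < 12 * Real.sqrt 3 * W0 := by
    apply mul_pos (by linarith) (by linarith)
  exact this.ne'

theorem Kg0 : Km (sy g0) = pr11 := by
  apply ext'; intro n
  simp only [Km_apply, sy_apply, g0, smul_app, pr11_apply]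
  have q1 : (-n = 1 ∨ -n = -1) ↔ (n = 1 ∨ n = -1) := by omega
  simp only [q1]
  by_cases h : n = 1 ∨ n = -1
  · rcases h with h | h
    · subst h; norm_num
    · subst h; norm_num
  · simp [h]

theorem P0_pr11 : P0 pr11 = 0 := by
  unfold pr11
  rw [map_add, P0_dl, P0_dl]
  simp [i0]

theorem cz0 : cz W0 g0 = pr11 := by
  unfold cz
  rw [Kg0, P0_pr11, smul_zero, add_zero]

theorem cv_pr : cv pr11 pr11 = dl 2 + (2 : ℝ) • dl 0 + dl (-2) := by
  unfold pr11
  rw [map_add, map_add, add_apply, add_apply, cv_dl_dl, cv_dl_dl, cv_dl_dl, cv_dl_dl]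
  norm_num
  rw [two_smul]
  abel

theorem P0_cv_pr : P0 (cv pr11 pr11) = (2 : ℝ) • dl 0 := by
  rw [cv_pr, map_add, map_add, map_smul, P0_dl, P0_dl, P0_dl]
  simp [i0]

theorem sy_P0 (f : E) : P0 (sy f) = sy (P0 f) := by
  apply ext'; intro n
  simp only [P0_apply, sy_apply, i0_neg]; ring

theorem sy_zero : sy (dl 0) = dl 0 := by
  apply ext'; intro n
  simp only [sy_apply, dl_apply]
  have : -n = 0 ↔ n = 0 := by omega
  simp only [this]; ring

theorem cu30 : cu3 0 p0 = (3 * (4 * W0 - C10)) • pr11 := by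
  unfold cu3
  rw [mul_zero, zero_smul, add_zero, zero_pow two_ne_zero, zero_smul, add_zero]
  unfold p0
  rw [smul_smul]

theorem LL0 : LL 0 W0 g0 p0 = c0 • dl 0 := by
  unfold LL c0
  rw [cz0, sy_P0, cu30, map_smul, map_smul, P0_cv_pr, map_smul, map_smul, sy_zero, smul_smul]
  congr 1; ring

theorem XX0 : XX f0 = (6 : ℝ) • dl 1 + bb • dl (-1) := by
  apply ext'; intro n
  simp only [XX, sub_app, add_app, smul_app, P1_apply, Km_apply, f0_apply, dl_apply]
  by_cases h1 : n = 1
  · subst h1; simp [i1]; norm_num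
  · by_cases h2 : n = -1
    · subst h2; simp [i1]; ring
    · simp [h1, h2]

theorem qu0 : qu f0 = bb • dl (-1) := by
  apply ext'; intro n
  simp only [qu, smul_app, Qm_apply, Km_apply, f0_apply, dl_apply]
  by_cases h1 : n = 1
  · subst h1; simp [chi]
  · by_cases h2 : n = -1
    · subst h2; simp [chi]; ring
    · simp [h1, h2]

theorem R_dl (n : ℤ) : R (dl n) = dl (-n) := by
  apply ext'; intro m
  simp only [R_apply, dl_apply]
  congr 1
  simp only [eq_iff_iff]
  constructor <;> intro h <;> omega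

theorem Psi10 : Psi1 0 f0 = (-(3 * Real.sqrt 3 / 2)) • pr11 := by
  unfold Psi1 pr11
  rw [XX0, qu0]
  simp only [map_add, map_smul, R_dl, neg_neg, zero_smul, add_zero]
  module

theorem lim2 : P0 (cv (Km (sy g0)) (Psi1 0 f0)) = (-(3 * Real.sqrt 3)) • dl 0 := by
  rw [Kg0, Psi10, map_smul, map_smul, P0_cv_pr, smul_smul]
  congr 1; ring

/-! ### continuity -/

theorem cont_LL : Continuous (fun x : ℝ × Y => LL x.1 x.2.2.2.2.2.2 x.2.2.1 x.2.2.2.1) := by
  have : ContDiff ℝ 1 (fun x : ℝ × Y => LL x.1 x.2.2.2.2.2.2 x.2.2.1 x.2.2.2.1) := by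
    unfold LL cz cu3
    fun_prop
  exact this.continuous

theorem cont_Psi : Continuous (fun x : ℝ × Y => P0 (cv (Km (sy x.2.2.1)) (Psi1 x.1 x.2.1))) := by
  have : ContDiff ℝ 1 (fun x : ℝ × Y => P0 (cv (Km (sy x.2.2.1)) (Psi1 x.1 x.2.1))) := by
    unfold Psi1 XX qu
    fun_prop
  exact this.continuous

/-- error in the volume expansion -/
noncomputable def err (x : ℝ × Y) : ℝ :=
  Real.sqrt 3 / 2 * ‖LL x.1 x.2.2.2.2.2.2 x.2.2.1 x.2.2.2.1 - c0 • dl 0‖
  + Real.sqrt 3 / 2 * |c0 / (1 + kk * (x.2.2.2.2.2.2 - 1)) - c0 / C10| * ‖dl 0‖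
  + ‖P0 (cv (Km (sy x.2.2.1)) (Psi1 x.1 x.2.1)) - (-(3 * Real.sqrt 3)) • dl 0‖

theorem err_zero : err (0, y0) = 0 := by
  unfold err y0
  simp only
  rw [LL0, lim2]
  have : 1 + kk * (W0 - 1) = C10 := rfl
  rw [this]
  simp

theorem err_cont : ContinuousAt err (0, y0) := by
  unfold err
  have hC := C10_lb
  have h1 := cont_LL
  have h2 := cont_Psi
  apply ContinuousAt.add
  · apply ContinuousAt.add
    · exact (continuous_const.mul (h1.sub continuous_const).norm).continuousAt
    · have h3 : ContinuousAt (fun x : ℝ × Y => c0 / (1 + kk * (x.2.2.2.2.2.2 - 1))) (0, y0) := by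
        apply ContinuousAt.div
        · exact continuousAt_const
        · fun_prop
        · show 1 + kk * (W0 - 1) ≠ 0
          have : 1 + kk * (W0 - 1) = C10 := rfl
          rw [this]; linarith
      exact (continuousAt_const.mul (h3.sub continuousAt_const).abs).mul continuousAt_const
  · exact ((h2.sub continuous_const).norm).continuousAt

end Pool.Agent.FourBody
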