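import Pool.Agent.MP_7235ad_an.Shift

set_option autoImplicit false
set_option linter.unusedSimpArgs false
set_option linter.unusedVariables false

namespace Pool.Agent.FourBody

open Complex

abbrev V3 := EuclideanSpace ℝ (Fin 3)

/-- the identification of `ℂ × ℝ` with space -/
noncomputable def emb : ℂ × ℝ →L[ℝ] V3 :=
  LinearMap.toContinuousLinearMap
    { toFun := fun x => !₂[x.1.re, x.1.im, x.2]
      map_add' := by
        intro x y
        ext i; fin_cases i <;> simp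
      map_smul' := by
        intro c x
        ext i; fin_cases i <;> simp }

theorem emb_apply (x : ℂ × ℝ) : emb x = !₂[x.1.re, x.1.im, x.2] := rfl

/-- length of a vector of `ℂ × ℝ` -/
noncomputable def nr (a : ℂ) (b : ℝ) : ℝ := Real.sqrt (‖a‖ ^ 2 + b ^ 2)

theorem norm_emb (a : ℂ) (b : ℝ) : ‖emb (a, b)‖ = nr a b := by
  rw [EuclideanSpace.norm_eq, nr, emb_apply]
  simp only [Fin.sum_univ_three, Real.norm_eq_abs, sq_abs]
  congr 1
  simp [← Complex.normSq_eq_norm_sq, Complex.normSq_apply]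
  ring

theorem nr_neg (a : ℂ) (b : ℝ) : nr (-a) (-b) = nr a b := by simp [nr]

theorem nr_sub_rev (a a' : ℂ) (b b' : ℝ) : nr (a - a') (b - b') = nr (a' - a) (b' - b) := by
  rw [← nr_neg, neg_sub, neg_sub]

theorem nr_mul (c a : ℂ) (b : ℝ) (hc : ‖c‖ = 1) : nr (c * a) b = nr a b := by
  simp [nr, hc]

theorem nr_pos_iff (a : ℂ) (b : ℝ) : 0 < nr a b ↔ (a, b) ≠ 0 := by
  rw [nr, Real.sqrt_pos]
  constructor
  · intro h h0
    rw [Prod.mk_eq_zero] at h0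
    rw [h0.1, h0.2] at h
    simp at h
  · intro h
    by_contra h1
    apply h
    have h2 : ‖a‖ ^ 2 + b ^ 2 = 0 := le_antisymm (not_lt.1 h1) (by positivity)
    have h3 : ‖a‖ ^ 2 = 0 := by nlinarith [sq_nonneg ‖a‖, sq_nonneg b]
    have h4 : b ^ 2 = 0 := by nlinarith [sq_nonneg ‖a‖, sq_nonneg b]
    have h5 : a = 0 := by simpa using h3
    have h6 : b = 0 := by simpa using h4
    rw [h5, h6]; rfl

/-- a symmetric relative periodic configuration in reduced variables -/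
structure Sol (m W σ : ℝ) (u u1 u2 : ℝ → ℂ) (z z1 z2 : ℝ → ℝ) : Prop where
  hm : m = Real.sqrt 3 * (W - 1)
  hW : 2.8 < W
  hW' : W < 2.9
  hσ : |σ - 1| ≤ 1 / 100
  du : ∀ t, HasDerivAt u (u1 t) t
  du1 : ∀ t, HasDerivAt u1 (u2 t) t
  cu2 : Continuous u2
  dz : ∀ t, HasDerivAt z (z1 t) t
  dz1 : ∀ t, HasDerivAt z1 (z2 t) t
  cz2 : Continuous z2
  pu : ∀ t, u (t - 3 * th) = u t
  pu1 : ∀ t, u1 (t - 3 * th) = u1 t
  pu2 : ∀ t, u2 (t - 3 * th) = u2 t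
  pz : ∀ t, z (t - 3 * th) = z t
  bu : ∀ t, ‖u t - 1‖ ≤ 1 / 100
  bu1 : ∀ t, ‖u1 t‖ ≤ 1 / 100
  bz : ∀ t, |z t| ≤ 1 / 100
  bz1 : ∀ t, |z1 t| ≤ 1 / 100
  posc : ∀ t, 0 < nr (u t + m * (u t + ze * u (t - th) + ze ^ 2 * u (t - 2 * th)))
      (z t + m * (z t + z (t - th) + z (t - 2 * th)))
  posp : ∀ t, 0 < nr (ze * u (t - th) - ze ^ 2 * u (t - 2 * th)) (z (t - th) - z (t - 2 * th))
  newt1 : ∀ t, W * (u t - 2 * I * σ * u1 t - σ ^ 2 * u2 t) =
      ((1 / nr (u t + m * (u t + ze * u (t - th) + ze ^ 2 * u (t - 2 * th)))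
        (z t + m * (z t + z (t - th) + z (t - 2 * th))) ^ 3 : ℝ) : ℂ)
          * (u t + m * (u t + ze * u (t - th) + ze ^ 2 * u (t - 2 * th)))
      + ((m / nr (u t - ze * u (t - th)) (z t - z (t - th)) ^ 3 : ℝ) : ℂ) * (u t - ze * u (t - th))
      + ((m / nr (u t - ze ^ 2 * u (t - 2 * th)) (z t - z (t - 2 * th)) ^ 3 : ℝ) : ℂ)
          * (u t - ze ^ 2 * u (t - 2 * th))
  newt2 : ∀ t, -(W * σ ^ 2) * z2 t =
      (1 / nr (u t + m * (u t + ze * u (t - th) + ze ^ 2 * u (t - 2 * th)))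
        (z t + m * (z t + z (t - th) + z (t - 2 * th))) ^ 3)
          * (z t + m * (z t + z (t - th) + z (t - 2 * th)))
      + (m / nr (u t - ze * u (t - th)) (z t - z (t - th)) ^ 3) * (z t - z (t - th))
      + (m / nr (u t - ze ^ 2 * u (t - 2 * th)) (z t - z (t - 2 * th)) ^ 3)
          * (z t - z (t - 2 * th))
  det : ∀ t, z t * ((ze * u (t - th)).re * (ze ^ 2 * u (t - 2 * th)).im
        - (ze * u (t - th)).im * (ze ^ 2 * u (t - 2 * th)).re)
      + z (t - th) * ((ze ^ 2 * u (t - 2 * th)).re * (u t).im - (ze ^ 2 * u (t - 2 * th)).im * (u t).re)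
      + z (t - 2 * th) * ((u t).re * (ze * u (t - th)).im - (u t).im * (ze * u (t - th)).re) ≠ 0

/-- rotation about the vertical axis and scaling -/
noncomputable def ro (c : ℂ) : ℂ × ℝ →L[ℝ] ℂ × ℝ :=
  (ContinuousLinearMap.prodMap (mc c) (ContinuousLinearMap.id ℝ ℝ))

@[simp] theorem ro_apply (c : ℂ) (x : ℂ × ℝ) : ro c x = (c * x.1, x.2) := rfl

theorem ro_ro (c d : ℂ) (x : ℂ × ℝ) : ro c (ro d x) = ro (c * d) x := by
  simp [mul_assoc]

/-- attraction -/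
noncomputable def fo (c : ℝ) (a : ℂ × ℝ) : ℂ × ℝ := (c / nr a.1 a.2 ^ 3) • a

theorem ro_fo (c : ℝ) (a : ℂ × ℝ) (d : ℂ) (hd : ‖d‖ = 1) : ro d (fo c a) = fo c (ro d a) := by
  unfold fo
  rw [map_smul]
  congr 3
  simp only [ro_apply]
  rw [nr_mul _ _ _ hd]

theorem emb_fo (c : ℝ) (a : ℂ × ℝ) : emb (fo c a) = (c / ‖emb a‖ ^ 3) • emb a := by
  unfold fo
  rw [map_smul]
  have : ‖emb a‖ = nr a.1 a.2 := norm_emb a.1 a.2
  rw [this]

end Pool.Agent.FourBody
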