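import Pool.Agent.MP_7235ad_an.Newton

set_option autoImplicit false
set_option linter.unusedSimpArgs false
set_option linter.unusedVariables false

namespace Pool.Agent.FourBody

open Complex

theorem rt_sq : rt * rt = -3 := by
  apply Complex.ext
  · simp [rt, sqrt3_sq]
  · simp [rt]

theorem rt_ne : rt ≠ 0 := by
  intro h; have := rt_sq; rw [h] at this; norm_num at this

theorem kk_eq : kk = 3 * Real.sqrt 3 := rfl

theorem root_of_sq {ρ : ℂ} {D : ℝ} (hD : 0 ≤ D) (h : ρ ^ 2 * (D : ℂ) = 1) (h1 : ‖ρ - 1‖ < 1) :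
    0 < Real.sqrt D ∧ ρ = ((1 / Real.sqrt D : ℝ) : ℂ) := by
  have hD0 : D ≠ 0 := by
    intro h0; rw [h0] at h; norm_num at h
  have hDp : 0 < D := lt_of_le_of_ne hD (Ne.symm hD0)
  have hs : 0 < Real.sqrt D := Real.sqrt_pos.2 hDp
  refine ⟨hs, ?_⟩
  set r : ℝ := 1 / Real.sqrt D with hr
  have hrp : 0 < r := by positivity
  have hr2 : r ^ 2 * D = 1 := by
    rw [hr, div_pow, one_pow, Real.sq_sqrt hD]; field_simp
  have h2 : (ρ - r) * (ρ + r) = 0 := by
    have h3 : ((r : ℂ)) ^ 2 * (D : ℂ) = 1 := by exact_mod_cast hr2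
    have h4 : (D : ℂ) ≠ 0 := by exact_mod_cast hD0
    have h5 : ((ρ - r) * (ρ + r)) * D = 0 := by linear_combination h - h3
    rcases mul_eq_zero.1 h5 with h6 | h6
    · exact h6
    · exact absurd h6 h4
  rcases mul_eq_zero.1 h2 with h6 | h6
  · exact sub_eq_zero.1 h6
  · exfalso
    have h7 : ρ = -r := eq_neg_of_add_eq_zero_left h6
    rw [h7] at h1
    have h8 : (-(r : ℂ) - 1) = ((-(r + 1) : ℝ) : ℂ) := by push_cast; ring
    rw [h8, Complex.norm_real, Real.norm_eq_abs, abs_neg, abs_of_pos (by linarith)] at h1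
    linarith

theorem P1_zero : P1 (dl 0) = 0 := by
  rw [P1_dl]; simp [i1]
theorem P0_zero : P0 (dl 0) = dl 0 := by
  rw [P0_dl]; simp [i0]
theorem Qm_zero : Qm (dl 0) = dl 0 := by
  rw [Qm_dl]; simp [chi]
theorem ev_zero (t : ℝ) : ev t (dl 0) = 1 := by
  rw [ev_dl]; simp

section
variable (e W σ : ℝ) (f g p s : E)

noncomputable def Uf (t : ℝ) : ℂ := ev t (dl 0 + e • Km f)
noncomputable def Uf1 (t : ℝ) : ℂ := e * (I * ev t (N1 f))
noncomputable def Uf2 (t : ℝ) : ℂ := -(e * ev t (N2 f))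
noncomputable def Zf (t : ℝ) : ℝ := (ev t (e • Km (sy g))).re
noncomputable def Zf1 (t : ℝ) : ℝ := (e * (I * ev t (N1 (sy g)))).re
noncomputable def Zf2 (t : ℝ) : ℝ := (-(e * ev t (N2 (sy g)))).re

theorem Uf_eq (t : ℝ) : Uf e f t = 1 + e * ev t (Km f) := by
  unfold Uf; rw [map_add, ev_zero, map_smul, Complex.real_smul]

theorem R_sy (g : E) : R (sy g) = sy g := by
  apply ext'; intro n; simp only [R_apply, sy_apply, neg_neg]; ring

theorem R_Km (g : E) : R (Km g) = Km (R g) := by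
  apply ext'; intro n; simp only [R_apply, Km_apply]; push_cast; rw [neg_sq]

theorem R_N2 (g : E) : R (N2 g) = N2 (R g) := by
  apply ext'; intro n; simp only [R_apply, N2_apply]; push_cast; rw [neg_sq]

theorem i0_neg' (n : ℤ) : i0 (-n) = i0 n := by
  unfold i0
  have : (-n) % 3 = 0 ↔ n % 3 = 0 := by omega
  simp only [this]

theorem R_P0 (g : E) : R (P0 g) = P0 (R g) := by
  apply ext'; intro n; simp only [R_apply, P0_apply]; rw [i0_neg']

theorem R_cz : R (cz W g) = cz W g := by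
  unfold cz
  rw [map_add, map_smul, R_P0, R_Km, R_sy]

theorem Zf_eq (t : ℝ) : ((Zf e g t : ℝ) : ℂ) = e * ev t (Km (sy g)) := by
  unfold Zf
  have h : R (e • Km (sy g)) = e • Km (sy g) := by rw [map_smul, R_Km, R_sy]
  rw [ev_even h, map_smul, Complex.real_smul]

theorem Uf_deriv (t : ℝ) : HasDerivAt (Uf e f) (Uf1 e f t) t := by
  have h1 := ((deriv_Km f t).const_mul (e : ℂ)).const_add (1 : ℂ)
  have h2 : Uf e f = fun t => 1 + e * ev t (Km f) := funext (Uf_eq e f)
  rw [h2]; exact h1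

theorem Uf1_deriv (t : ℝ) : HasDerivAt (Uf1 e f) (Uf2 e f t) t := by
  have h1 := ((deriv_N1 f t).const_mul (I : ℂ)).const_mul (e : ℂ)
  refine h1.congr_deriv ?_
  unfold Uf2
  linear_combination (e * ev t (N2 f)) * Complex.I_sq

theorem re_deriv {F : ℝ → ℂ} {F' : ℂ} {t : ℝ} (h : HasDerivAt F F' t) :
    HasDerivAt (fun t => (F t).re) F'.re t :=
  (Complex.reCLM.hasFDerivAt (x := F t)).comp_hasDerivAt t h

theorem Zf_deriv (t : ℝ) : HasDerivAt (Zf e g) (Zf1 e g t) t := by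
  have h1 := re_deriv ((deriv_Km (sy g) t).const_mul (e : ℂ))
  have h2 : Zf e g = fun t => (e * ev t (Km (sy g))).re := by
    ext1 t; unfold Zf; rw [map_smul, Complex.real_smul]
  rw [h2]; exact h1

theorem Zf1_deriv (t : ℝ) : HasDerivAt (Zf1 e g) (Zf2 e g t) t := by
  have h1 := re_deriv (((deriv_N1 (sy g) t).const_mul (I : ℂ)).const_mul (e : ℂ))
  refine h1.congr_deriv ?_
  unfold Zf2
  congr 1
  linear_combination (e * ev t (N2 (sy g))) * Complex.I_sq

theorem Uf_per (t : ℝ) : Uf e f (t - 3 * th) = Uf e f t := ev_periodic _ _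
theorem Zf_per (t : ℝ) : Zf e g (t - 3 * th) = Zf e g t := by unfold Zf; rw [ev_periodic]

theorem rel1 (m : ℝ) (hm : m = Real.sqrt 3 * (W - 1)) (t : ℝ) :
    1 + e * ev t (cu W f) =
      Uf e f t + m * (Uf e f t + ze * Uf e f (t - th) + ze ^ 2 * Uf e f (t - 2 * th)) := by
  have h1 := shift1 t (dl 0 + e • Km f)
  unfold Uf
  rw [h1]
  unfold cu
  simp only [map_add, map_smul, P1_zero, ev_zero, Complex.real_smul, map_zero, kk_eq, hm]
  push_cast
  ring

theorem rel2 (m : ℝ) (hm : m = Real.sqrt 3 * (W - 1)) (t : ℝ) :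
    e * ev t (cz W g) =
      ((Zf e g t + m * (Zf e g t + Zf e g (t - th) + Zf e g (t - 2 * th)) : ℝ) : ℂ) := by
  have h1 := shift0 t (e • Km (sy g))
  push_cast
  rw [Zf_eq, Zf_eq, Zf_eq]
  simp only [map_smul, Complex.real_smul] at h1
  rw [h1]
  unfold cz
  simp only [map_add, map_smul, Complex.real_smul, kk_eq, hm]
  push_cast
  ring

theorem rel3 (t : ℝ) :
    rt * (1 + e * ev t (qu f)) = ze * Uf e f (t - th) - ze ^ 2 * Uf e f (t - 2 * th) := by
  have h1 := shiftQ t (dl 0 + e • Km f)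
  unfold Uf
  rw [h1]
  unfold qu
  simp only [map_add, map_smul, Qm_zero, ev_zero, Complex.real_smul]

theorem rel4 (t : ℝ) :
    -rt * (e * ev t (qz g)) = ((Zf e g (t - th) - Zf e g (t - 2 * th) : ℝ) : ℂ) := by
  have h1 := shiftQ' t (e • Km (sy g))
  push_cast
  rw [Zf_eq, Zf_eq]
  simp only [map_smul, Complex.real_smul] at h1
  rw [h1]
  unfold qz
  ring

theorem conj_mul_self (x : ℂ) : x * (starRingEnd ℂ) x = ((‖x‖ ^ 2 : ℝ) : ℂ) := by
  rw [Complex.mul_conj, Complex.normSq_eq_norm_sq]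

theorem ev_sq2 (t : ℝ) : ev t (sq2 e p) = 2 * ev t p + e * (ev t p * ev t p) := by
  unfold sq2
  rw [map_add, map_smul, map_smul, ev_cv, Complex.real_smul, Complex.real_smul, Complex.ofReal_ofNat]

theorem ev_cu3 (t : ℝ) : ev t (cu3 e p) = 3 * ev t p + 3 * e * (ev t p * ev t p)
    + e ^ 2 * (ev t p * (ev t p * ev t p)) := by
  unfold cu3
  rw [map_add, map_add, map_smul, map_smul, map_smul, ev_cv, ev_cv, ev_cv, Complex.real_smul,
    Complex.real_smul, Complex.real_smul]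
  push_cast
  ring

theorem ev_dc (t : ℝ) : ev t (dc e W f g) = ev t (cu W f) + (starRingEnd ℂ) (ev t (cu W f))
    + e * (ev t (cu W f) * (starRingEnd ℂ) (ev t (cu W f)) + ev t (cz W g) * ev t (cz W g)) := by
  unfold dc
  rw [map_add, map_add, map_smul, map_add, ev_cv, ev_cv, ev_R, Complex.real_smul]

theorem ev_dp (t : ℝ) : ev t (dp e f g) = ev t (qu f) + (starRingEnd ℂ) (ev t (qu f))
    + e * (ev t (qu f) * (starRingEnd ℂ) (ev t (qu f)) - ev t (qz g) * ev t (qz g)) := by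
  unfold dp
  rw [map_add, map_add, map_smul, map_sub, ev_cv, ev_cv, ev_R, Complex.real_smul]

/-- planet-centre distance -/
theorem rho_c (m : ℝ) (hm : m = Real.sqrt 3 * (W - 1)) (h3 : G3 e W f g p = 0)
    (hp : |e| * ‖p‖ < 1) (t : ℝ) :
    0 < nr (Uf e f t + m * (Uf e f t + ze * Uf e f (t - th) + ze ^ 2 * Uf e f (t - 2 * th)))
      (Zf e g t + m * (Zf e g t + Zf e g (t - th) + Zf e g (t - 2 * th))) ∧
    1 + e * ev t p =
      ((1 / nr (Uf e f t + m * (Uf e f t + ze * Uf e f (t - th) + ze ^ 2 * Uf e f (t - 2 * th)))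
      (Zf e g t + m * (Zf e g t + Zf e g (t - th) + Zf e g (t - 2 * th))) : ℝ) : ℂ) := by
  have k1 := rel1 e W f m hm t
  have k2 := rel2 e W g m hm t
  set X : ℂ := Uf e f t + m * (Uf e f t + ze * Uf e f (t - th) + ze ^ 2 * Uf e f (t - 2 * th)) with hX
  set x : ℝ := Zf e g t + m * (Zf e g t + Zf e g (t - th) + Zf e g (t - 2 * th)) with hx
  apply root_of_sq (by positivity)
  · have h := congrArg (ev t) h3
    unfold G3 at h
    rw [map_add, map_add, map_smul, ev_cv, ev_sq2, ev_dc, Complex.real_smul, map_zero] at h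
    have hX2 : (X : ℂ) * (starRingEnd ℂ) X = ((‖X‖ ^ 2 : ℝ) : ℂ) := conj_mul_self X
    have hcX : (starRingEnd ℂ) X = 1 + e * (starRingEnd ℂ) (ev t (cu W f)) := by
      rw [← k1]; simp
    push_cast
    push_cast at hX2
    rw [← hX2, hcX, ← k1, ← k2]
    linear_combination (e : ℂ) * h
  · rw [add_sub_cancel_left, norm_mul, Complex.norm_real, Real.norm_eq_abs]
    exact lt_of_le_of_lt (mul_le_mul_of_nonneg_left (norm_ev_le t p) (abs_nonneg _)) hp

/-- planet-planet distance -/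
theorem rho_p (h4 : G4 e f g s = 0) (hs : |e| * ‖s‖ < 1) (t : ℝ) :
    0 < nr (ze * Uf e f (t - th) - ze ^ 2 * Uf e f (t - 2 * th))
      (Zf e g (t - th) - Zf e g (t - 2 * th)) ∧
    1 + e * ev t s =
      ((Real.sqrt 3 / nr (ze * Uf e f (t - th) - ze ^ 2 * Uf e f (t - 2 * th))
      (Zf e g (t - th) - Zf e g (t - 2 * th)) : ℝ) : ℂ) := by
  have k1 := rel3 e f t
  have k2 := rel4 e g t
  set X : ℂ := ze * Uf e f (t - th) - ze ^ 2 * Uf e f (t - 2 * th) with hX
  set x : ℝ := Zf e g (t - th) - Zf e g (t - 2 * th) with hx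
  have key := root_of_sq (ρ := 1 + e * ev t s) (D := (‖X‖ ^ 2 + x ^ 2) / 3) (by positivity) (by
    have h := congrArg (ev t) h4
    unfold G4 at h
    rw [map_add, map_add, map_smul, ev_cv, ev_sq2, ev_dp, Complex.real_smul, map_zero] at h
    have hX2 : (X : ℂ) * (starRingEnd ℂ) X = ((‖X‖ ^ 2 : ℝ) : ℂ) := conj_mul_self X
    have hcrt : (starRingEnd ℂ) rt = -rt := by
      apply Complex.ext <;> simp [rt]
    have hcX : (starRingEnd ℂ) X = -rt * (1 + e * (starRingEnd ℂ) (ev t (qu f))) := by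
      rw [← k1]; simp [hcrt]
    push_cast
    push_cast at hX2
    rw [← hX2, hcX, ← k1, ← k2]
    linear_combination (e : ℂ) * h + (-(1 + e * ev t s) ^ 2 * (1 + e * ev t (qu f)) *
      (1 + e * (starRingEnd ℂ) (ev t (qu f))) / 3 + (1 + e * ev t s) ^ 2 * (e * ev t (qz g)) ^ 2 / 3)
        * rt_sq) (by
    rw [add_sub_cancel_left, norm_mul, Complex.norm_real, Real.norm_eq_abs]
    exact lt_of_le_of_lt (mul_le_mul_of_nonneg_left (norm_ev_le t s) (abs_nonneg _)) hs)
  have h5 : Real.sqrt ((‖X‖ ^ 2 + x ^ 2) / 3) = nr X x / Real.sqrt 3 := by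
    rw [Real.sqrt_div (by positivity)]; rfl
  rw [h5] at key
  have h6 : 0 < Real.sqrt 3 := Real.sqrt_pos.2 (by norm_num)
  refine ⟨?_, ?_⟩
  · have := key.1
    rwa [lt_div_iff₀ h6, zero_mul] at this
  · rw [key.2, one_div_div]

end

end Pool.Agent.FourBody
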