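import Pool.Agent.MP_7235ad_an.Point

set_option autoImplicit false
set_option linter.unusedSimpArgs false
set_option linter.unusedVariables false

namespace Pool.Agent.FourBody

open Complex

section
variable (e W σ : ℝ) (f g p s : E)

/-- the planet-planet force sequences -/
noncomputable def HH : E := dl 0 + e • (qu f + cu3 e s + e • cv (qu f) (cu3 e s))
noncomputable def HZ : E := e • (qz g + e • cv (qz g) (cu3 e s))

theorem ev_HH (t : ℝ) : ev t (HH e f s) = (1 + e * ev t (qu f)) * (1 + e * ev t s) ^ 3 := by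
  unfold HH
  rw [map_add, ev_zero, map_smul, map_add, map_add, map_smul, ev_cv, ev_cu3]
  simp only [Complex.real_smul]
  ring

theorem ev_HZ (t : ℝ) : ev t (HZ e g s) = (e * ev t (qz g)) * (1 + e * ev t s) ^ 3 := by
  unfold HZ
  rw [map_smul, map_add, map_smul, ev_cv, ev_cu3]
  simp only [Complex.real_smul]
  ring

theorem Uf_per2 (t : ℝ) : Uf e f (t - th - 2 * th) = Uf e f t := by
  rw [← Uf_per e f t]; congr 1; ring
theorem Uf_per3 (t : ℝ) : Uf e f (t - 2 * th - th) = Uf e f t := by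
  rw [← Uf_per e f t]; congr 1; ring
theorem Uf_per4 (t : ℝ) : Uf e f (t - 2 * th - 2 * th) = Uf e f (t - th) := by
  rw [← Uf_per e f (t - th)]; congr 1; ring
theorem Uf_per5 (t : ℝ) : Uf e f (t - th - th) = Uf e f (t - 2 * th) := by
  congr 1; ring
theorem Zf_per2 (t : ℝ) : Zf e g (t - th - 2 * th) = Zf e g t := by
  rw [← Zf_per e g t]; congr 1; ring
theorem Zf_per3 (t : ℝ) : Zf e g (t - 2 * th - th) = Zf e g t := by
  rw [← Zf_per e g t]; congr 1; ring
theorem Zf_per4 (t : ℝ) : Zf e g (t - 2 * th - 2 * th) = Zf e g (t - th) := by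
  rw [← Zf_per e g (t - th)]; congr 1; ring
theorem Zf_per5 (t : ℝ) : Zf e g (t - th - th) = Zf e g (t - 2 * th) := by
  congr 1; ring

/-- distances between other pairs by symmetry -/
theorem nr_shift1 (t : ℝ) :
    nr (ze * Uf e f (t - th - th) - ze ^ 2 * Uf e f (t - th - 2 * th))
      (Zf e g (t - th - th) - Zf e g (t - th - 2 * th)) =
    nr (Uf e f t - ze ^ 2 * Uf e f (t - 2 * th)) (Zf e g t - Zf e g (t - 2 * th)) := by
  rw [Uf_per2, Uf_per5, Zf_per2, Zf_per5]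
  rw [← nr_mul ze _ _ norm_ze, ← nr_neg]
  congr 1
  · linear_combination (Uf e f t) * ze_cube
  · ring

theorem nr_shift2 (t : ℝ) :
    nr (ze * Uf e f (t - 2 * th - th) - ze ^ 2 * Uf e f (t - 2 * th - 2 * th))
      (Zf e g (t - 2 * th - th) - Zf e g (t - 2 * th - 2 * th)) =
    nr (Uf e f t - ze * Uf e f (t - th)) (Zf e g t - Zf e g (t - th)) := by
  rw [Uf_per3, Uf_per4, Zf_per3, Zf_per4]
  rw [← nr_mul (ze ^ 2) _ _ (by rw [norm_pow, norm_ze, one_pow])]
  congr 1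
  linear_combination (Uf e f t - ze * Uf e f (t - th)) * ze_cube

theorem rho_p1 (h4 : G4 e f g s = 0) (hs : |e| * ‖s‖ < 1) (t : ℝ) :
    1 + e * ev (t - th) s =
      ((Real.sqrt 3 / nr (Uf e f t - ze ^ 2 * Uf e f (t - 2 * th))
        (Zf e g t - Zf e g (t - 2 * th)) : ℝ) : ℂ) := by
  rw [(rho_p e f g s h4 hs (t - th)).2, nr_shift1]

theorem rho_p2 (h4 : G4 e f g s = 0) (hs : |e| * ‖s‖ < 1) (t : ℝ) :
    1 + e * ev (t - 2 * th) s =
      ((Real.sqrt 3 / nr (Uf e f t - ze * Uf e f (t - th))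
        (Zf e g t - Zf e g (t - th)) : ℝ) : ℂ) := by
  rw [(rho_p e f g s h4 hs (t - 2 * th)).2, nr_shift2]

/-- planet-planet force, horizontal -/
theorem force1 (t : ℝ) :
    3 * ev t (Qm (HH e f s)) =
      (Uf e f t - ze ^ 2 * Uf e f (t - 2 * th)) * (1 + e * ev (t - th) s) ^ 3
      + (Uf e f t - ze * Uf e f (t - th)) * (1 + e * ev (t - 2 * th) s) ^ 3 := by
  have h1 := shiftQ t (HH e f s)
  rw [ev_HH, ev_HH] at h1
  have h2 := rel3 e f (t - th)
  have h3 := rel3 e f (t - 2 * th)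
  rw [Uf_per2, Uf_per5] at h2
  rw [Uf_per3, Uf_per4] at h3
  set A := (1 + e * ev (t - th) s) ^ 3 with hA
  set B := (1 + e * ev (t - 2 * th) s) ^ 3 with hB
  linear_combination (rt) * h1 + (ev t (Qm (HH e f s))) * rt_sq - ze * A * h2 + ze ^ 2 * B * h3
    + (Uf e f t * A + (Uf e f t - ze * Uf e f (t - th)) * B) * ze_cube

/-- planet-planet force, vertical -/
theorem force2 (t : ℝ) :
    3 * ev t (Qp (HZ e g s)) =
      (Zf e g t - Zf e g (t - 2 * th)) * (1 + e * ev (t - th) s) ^ 3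
      + (Zf e g t - Zf e g (t - th)) * (1 + e * ev (t - 2 * th) s) ^ 3 := by
  have h1 := shiftQ' t (HZ e g s)
  rw [ev_HZ, ev_HZ] at h1
  have h2 := rel4 e g (t - th)
  have h3 := rel4 e g (t - 2 * th)
  rw [Zf_per2, Zf_per5] at h2
  rw [Zf_per3, Zf_per4] at h3
  push_cast at h2 h3
  set A := (1 + e * ev (t - th) s) ^ 3 with hA
  set B := (1 + e * ev (t - 2 * th) s) ^ 3 with hB
  linear_combination (-rt) * h1 + (ev t (Qp (HZ e g s))) * rt_sq - A * h2 + B * h3

theorem s3cube : Real.sqrt 3 ^ 3 = 3 * Real.sqrt 3 := by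
  have := sqrt3_sq
  calc Real.sqrt 3 ^ 3 = (Real.sqrt 3 * Real.sqrt 3) * Real.sqrt 3 := by ring
    _ = 3 * Real.sqrt 3 := by rw [this]

theorem newton1 (m : ℝ) (hm : m = Real.sqrt 3 * (W - 1)) (h1 : G1 e σ W f g p s = 0)
    (h3 : G3 e W f g p = 0) (h4 : G4 e f g s = 0)
    (hp : |e| * ‖p‖ < 1) (hs : |e| * ‖s‖ < 1) (t : ℝ) :
    W * (Uf e f t - 2 * I * σ * Uf1 e f t - σ ^ 2 * Uf2 e f t) =
      ((1 / nr (Uf e f t + m * (Uf e f t + ze * Uf e f (t - th) + ze ^ 2 * Uf e f (t - 2 * th)))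
        (Zf e g t + m * (Zf e g t + Zf e g (t - th) + Zf e g (t - 2 * th))) ^ 3 : ℝ) : ℂ)
          * (Uf e f t + m * (Uf e f t + ze * Uf e f (t - th) + ze ^ 2 * Uf e f (t - 2 * th)))
      + ((m / nr (Uf e f t - ze * Uf e f (t - th)) (Zf e g t - Zf e g (t - th)) ^ 3 : ℝ) : ℂ)
          * (Uf e f t - ze * Uf e f (t - th))
      + ((m / nr (Uf e f t - ze ^ 2 * Uf e f (t - 2 * th)) (Zf e g t - Zf e g (t - 2 * th)) ^ 3 : ℝ) : ℂ)
          * (Uf e f t - ze ^ 2 * Uf e f (t - 2 * th)) := by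
  have hH : H1 e σ W f p s = 0 := by
    have := h1
    unfold G1 at this
    rw [h3, h4, map_zero, smul_zero, smul_zero, add_zero, add_zero] at this
    exact this
  have k1 := rel1 e W f m hm t
  obtain ⟨-, k2⟩ := rho_c e W f g p m hm h3 hp t
  have k3 := rho_p1 e f g s h4 hs t
  have k4 := rho_p2 e f g s h4 hs t
  have k5 := force1 e f s t
  have h := congrArg (ev t) hH
  have e1 : Qm (HH e f s) = dl 0 + e • Qm (qu f + cu3 e s + e • cv (qu f) (cu3 e s)) := by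
    unfold HH; rw [map_add, map_smul, Qm_zero]
  rw [e1, map_add, map_smul, ev_zero, Complex.real_smul] at k5
  unfold H1 at h
  rw [map_sub, map_smul, map_add, map_add, map_smul, map_smul, map_add, map_add, map_add, map_smul,
    map_smul, ev_cv, ev_cu3, map_zero] at h
  simp only [Complex.real_smul] at h
  set K := ev t (Qm (qu f + cu3 e s + e • cv (qu f) (cu3 e s))) with hK
  set X : ℂ := Uf e f t + m * (Uf e f t + ze * Uf e f (t - th) + ze ^ 2 * Uf e f (t - 2 * th)) with hX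
  set x : ℝ := Zf e g t + m * (Zf e g t + Zf e g (t - th) + Zf e g (t - 2 * th)) with hx
  set d1 := nr (Uf e f t - ze * Uf e f (t - th)) (Zf e g t - Zf e g (t - th)) with hd1
  set d2 := nr (Uf e f t - ze ^ 2 * Uf e f (t - 2 * th)) (Zf e g t - Zf e g (t - 2 * th)) with hd2
  have q1 : ((1 / nr X x ^ 3 : ℝ) : ℂ) = (1 + e * ev t p) ^ 3 := by
    rw [k2]; push_cast; ring
  have q2 : ((m / d2 ^ 3 : ℝ) : ℂ) = (W - 1) / 3 * (1 + e * ev (t - th) s) ^ 3 := by
    rw [k3, hm]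
    have : (Real.sqrt 3 * (W - 1)) / d2 ^ 3 = (W - 1) / 3 * (Real.sqrt 3 / d2) ^ 3 := by
      rw [div_pow, s3cube]; ring
    rw [this]; push_cast; ring
  have q3 : ((m / d1 ^ 3 : ℝ) : ℂ) = (W - 1) / 3 * (1 + e * ev (t - 2 * th) s) ^ 3 := by
    rw [k4, hm]
    have : (Real.sqrt 3 * (W - 1)) / d1 ^ 3 = (W - 1) / 3 * (Real.sqrt 3 / d1) ^ 3 := by
      rw [div_pow, s3cube]; ring
    rw [this]; push_cast; ring
  rw [q1, q2, q3, ← k1]
  have q5 : Uf e f t = 1 + e * ev t (Km f) := Uf_eq e f t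
  have q6 : W * (Uf e f t - 2 * I * σ * Uf1 e f t - σ ^ 2 * Uf2 e f t) =
    W * (1 + e * (σ ^ 2 * ev t (N2 f) + 2 * σ * ev t (N1 f) + ev t (Km f))) := by
    rw [q5]; unfold Uf1 Uf2
    linear_combination (-(2 * W * σ * e * ev t (N1 f))) * Complex.I_sq
  rw [q6]
  push_cast at h
  linear_combination (e : ℂ) * h + ((W : ℂ) - 1) / 3 * k5

theorem newton2 (m : ℝ) (hm : m = Real.sqrt 3 * (W - 1)) (h2 : G2 e σ W g p s = 0)
    (h3 : G3 e W f g p = 0) (h4 : G4 e f g s = 0)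
    (hp : |e| * ‖p‖ < 1) (hs : |e| * ‖s‖ < 1) (t : ℝ) :
    -(W * σ ^ 2) * Zf2 e g t =
      (1 / nr (Uf e f t + m * (Uf e f t + ze * Uf e f (t - th) + ze ^ 2 * Uf e f (t - 2 * th)))
        (Zf e g t + m * (Zf e g t + Zf e g (t - th) + Zf e g (t - 2 * th))) ^ 3)
          * (Zf e g t + m * (Zf e g t + Zf e g (t - th) + Zf e g (t - 2 * th)))
      + (m / nr (Uf e f t - ze * Uf e f (t - th)) (Zf e g t - Zf e g (t - th)) ^ 3)
          * (Zf e g t - Zf e g (t - th))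
      + (m / nr (Uf e f t - ze ^ 2 * Uf e f (t - 2 * th)) (Zf e g t - Zf e g (t - 2 * th)) ^ 3)
          * (Zf e g t - Zf e g (t - 2 * th)) := by
  have hE : sy (E2 e σ W g p s) = 0 := by
    have h := congrArg sy h2
    unfold G2 at h
    rw [map_add, map_zero] at h
    have a1 : sy (sy (E2 e σ W g p s)) = sy (E2 e σ W g p s) := by
      apply ext'; intro n; simp only [sy_apply, neg_neg]; ring
    have a2 : sy (od g) = 0 := by
      apply ext'; intro n; simp only [sy_apply, od_apply, neg_neg, zero_app]; ring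
    rw [a1, a2, add_zero] at h
    exact h
  have hre : (ev t (E2 e σ W g p s)).re = 0 := by
    have h := congrArg (ev t) hE
    have a1 : sy (E2 e σ W g p s) = (1 / 2 : ℝ) • (E2 e σ W g p s + R (E2 e σ W g p s)) := rfl
    rw [a1, map_smul, map_add, ev_R, map_zero] at h
    have := congrArg Complex.re h
    simp at this
    linarith
  have k1 := rel2 e W g m hm t
  obtain ⟨-, k2⟩ := rho_c e W f g p m hm h3 hp t
  have k3 := rho_p1 e f g s h4 hs t
  have k4 := rho_p2 e f g s h4 hs t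
  have k5 := force2 e g s t
  have e1 : Qp (HZ e g s) = e • Qp (qz g + e • cv (qz g) (cu3 e s)) := by
    unfold HZ; rw [map_smul]
  rw [e1, map_smul, Complex.real_smul] at k5
  have h : ev t (E2 e σ W g p s) = (W * σ ^ 2 : ℝ) * ev t (N2 (sy g)) - (ev t (cz W g) +
      e * (ev t (cz W g) * ev t (cu3 e p)) + ((W - 1 : ℝ)) *
        ev t (Qp (qz g + e • cv (qz g) (cu3 e s)))) := by
    unfold E2
    rw [map_sub, map_smul, map_add, map_add, map_smul, map_smul, ev_cv]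
    simp only [Complex.real_smul]
  rw [ev_cu3] at h
  set K := ev t (Qp (qz g + e • cv (qz g) (cu3 e s))) with hK
  set X : ℂ := Uf e f t + m * (Uf e f t + ze * Uf e f (t - th) + ze ^ 2 * Uf e f (t - 2 * th)) with hX
  set x : ℝ := Zf e g t + m * (Zf e g t + Zf e g (t - th) + Zf e g (t - 2 * th)) with hx
  set d1 := nr (Uf e f t - ze * Uf e f (t - th)) (Zf e g t - Zf e g (t - th)) with hd1
  set d2 := nr (Uf e f t - ze ^ 2 * Uf e f (t - 2 * th)) (Zf e g t - Zf e g (t - 2 * th)) with hd2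
  have q1 : ((1 / nr X x ^ 3 : ℝ) : ℂ) = (1 + e * ev t p) ^ 3 := by
    rw [k2]; push_cast; ring
  have q2 : ((m / d2 ^ 3 : ℝ) : ℂ) = (W - 1) / 3 * (1 + e * ev (t - th) s) ^ 3 := by
    rw [k3, hm]
    have : (Real.sqrt 3 * (W - 1)) / d2 ^ 3 = (W - 1) / 3 * (Real.sqrt 3 / d2) ^ 3 := by
      rw [div_pow, s3cube]; ring
    rw [this]; push_cast; ring
  have q3 : ((m / d1 ^ 3 : ℝ) : ℂ) = (W - 1) / 3 * (1 + e * ev (t - 2 * th) s) ^ 3 := by
    rw [k4, hm]
    have : (Real.sqrt 3 * (W - 1)) / d1 ^ 3 = (W - 1) / 3 * (Real.sqrt 3 / d1) ^ 3 := by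
      rw [div_pow, s3cube]; ring
    rw [this]; push_cast; ring
  have key : (e : ℂ) * ev t (E2 e σ W g p s) = (W * σ ^ 2 : ℝ) * (e * ev t (N2 (sy g)))
      - ((((1 / nr X x ^ 3) * x + (m / d1 ^ 3) * (Zf e g t - Zf e g (t - th))
        + (m / d2 ^ 3) * (Zf e g t - Zf e g (t - 2 * th))) : ℝ) : ℂ) := by
    have e4 : ((((1 / nr X x ^ 3) * x + (m / d1 ^ 3) * (Zf e g t - Zf e g (t - th))
        + (m / d2 ^ 3) * (Zf e g t - Zf e g (t - 2 * th))) : ℝ) : ℂ)
        = ((1 / nr X x ^ 3 : ℝ) : ℂ) * (x : ℂ) + ((m / d1 ^ 3 : ℝ) : ℂ) * (Zf e g t - Zf e g (t - th))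
        + ((m / d2 ^ 3 : ℝ) : ℂ) * (Zf e g t - Zf e g (t - 2 * th)) := by
      push_cast; ring
    rw [e4, q1, q2, q3, h, ← k1]
    push_cast
    linear_combination (-((W : ℂ) - 1) / 3) * k5
  have hz2 : Zf2 e g t = -((e : ℂ) * ev t (N2 (sy g))).re := by
    unfold Zf2; rw [Complex.neg_re]
  have fin := congrArg Complex.re key
  rw [Complex.re_ofReal_mul, hre, mul_zero, Complex.sub_re, Complex.ofReal_re,
    Complex.re_ofReal_mul] at fin
  rw [hz2]
  linarith

end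

end Pool.Agent.FourBody
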