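import Mathlib

set_option autoImplicit false
set_option linter.unusedSimpArgs false
set_option linter.unusedVariables false

namespace Pool.Agent.FourBody

open scoped ENNReal

/-- The Banach space of absolutely summable real sequences indexed by the integers. -/
abbrev E := lp (fun _ : ℤ => ℝ) 1

theorem memE_of_summable {a : ℤ → ℝ} (h : Summable fun n => |a n|) :
    Memℓp (E := fun _ : ℤ => ℝ) a 1 := by
  apply memℓp_gen
  simpa using h

theorem summable_abs (f : E) : Summable fun n => |f n| := by
  have := (lp.memℓp f).summable (by simp)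
  simpa using this

theorem norm_eq (f : E) : ‖f‖ = ∑' n, |f n| := by
  rw [lp.norm_eq_tsum_rpow (by simp)]
  simp

/-- build an element of `E` from a summable function -/
def mk (a : ℤ → ℝ) (h : Summable fun n => |a n|) : E := ⟨a, memE_of_summable h⟩

@[simp] theorem mk_apply (a : ℤ → ℝ) (h : Summable fun n => |a n|) (n : ℤ) : mk a h n = a n := rfl

@[simp] theorem add_app (f g : E) (n : ℤ) : (f + g) n = f n + g n := rfl
@[simp] theorem sub_app (f g : E) (n : ℤ) : (f - g) n = f n - g n := rfl
@[simp] theorem neg_app (f : E) (n : ℤ) : (-f) n = -f n := rfl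
@[simp] theorem smul_app (c : ℝ) (f : E) (n : ℤ) : (c • f) n = c * f n := rfl
@[simp] theorem zero_app (n : ℤ) : (0 : E) n = 0 := rfl

theorem ext' {f g : E} (h : ∀ n, f n = g n) : f = g := lp.ext (funext h)

section lift
variable {F : Type*} [NormedAddCommGroup F] [NormedSpace ℝ F] [CompleteSpace F]

theorem summable_smul (v : ℤ → F) (C : ℝ) (hv : ∀ k, ‖v k‖ ≤ C) (f : E) :
    Summable fun k => f k • v k := by
  apply Summable.of_norm_bounded (g := fun k => |f k| * C) ((summable_abs f).mul_right C)
  intro k
  rw [norm_smul, Real.norm_eq_abs]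
  exact mul_le_mul_of_nonneg_left (hv k) (abs_nonneg _)

/-- the bounded linear map determined by a bounded family of vectors -/
noncomputable def lift (v : ℤ → F) (C : ℝ) (hv : ∀ k, ‖v k‖ ≤ C) : E →L[ℝ] F :=
  LinearMap.mkContinuous
    { toFun := fun f => ∑' k, f k • v k
      map_add' := by
        intro f g
        rw [← (summable_smul v C hv f).tsum_add (summable_smul v C hv g)]
        congr 1; ext k
        simp [add_smul]
      map_smul' := by
        intro c f
        simp only [RingHom.id_apply]
        rw [← (summable_smul v C hv f).tsum_const_smul c]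
        congr 1; ext k
        simp [mul_smul] } C (by
      intro f
      simp only [LinearMap.coe_mk, AddHom.coe_mk]
      calc ‖∑' k, f k • v k‖ ≤ ∑' k, |f k| * C := by
            apply tsum_of_norm_bounded ((summable_abs f).mul_right C).hasSum
            intro k
            rw [norm_smul, Real.norm_eq_abs]
            exact mul_le_mul_of_nonneg_left (hv k) (abs_nonneg _)
        _ = C * ‖f‖ := by rw [tsum_mul_right, norm_eq, mul_comm])

theorem lift_apply (v : ℤ → F) (C : ℝ) (hv : ∀ k, ‖v k‖ ≤ C) (f : E) :
    lift v C hv f = ∑' k, f k • v k := rfl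

end lift

/-- basis sequence -/
noncomputable def dl (n : ℤ) : E := lp.single 1 n (1 : ℝ)

@[simp] theorem dl_self (n : ℤ) : dl n n = 1 := by
  simp [dl]

theorem dl_ne {n m : ℤ} (h : m ≠ n) : dl n m = 0 := by
  simp only [dl]
  exact lp.single_apply_ne 1 n 1 h

theorem dl_apply (n m : ℤ) : dl n m = if m = n then 1 else 0 := by
  split_ifs with h
  · subst h; simp
  · exact dl_ne h

theorem lift_dl {F : Type*} [NormedAddCommGroup F] [NormedSpace ℝ F] [CompleteSpace F]
    (v : ℤ → F) (C : ℝ) (hv : ∀ k, ‖v k‖ ≤ C) (n : ℤ) : lift v C hv (dl n) = v n := by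
  rw [lift_apply, tsum_eq_single n]
  · simp
  · intro b hb
    rw [dl_ne hb, zero_smul]

/-- coordinate functional -/
noncomputable def coord (n : ℤ) : E →L[ℝ] ℝ :=
  LinearMap.mkContinuous
    { toFun := fun f => f n
      map_add' := fun _ _ => rfl
      map_smul' := fun _ _ => rfl } 1 (by
      intro f
      rw [one_mul]
      exact lp.norm_apply_le_norm (by simp) f n)

@[simp] theorem coord_apply (n : ℤ) (f : E) : coord n f = f n := rfl

/-- multiplication by a bounded sequence -/
noncomputable def mul (m : ℤ → ℝ) (C : ℝ) (hm : ∀ n, |m n| ≤ C) : E →L[ℝ] E :=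
  LinearMap.mkContinuous
    { toFun := fun f => mk (fun n => m n * f n) (by
        apply Summable.of_nonneg_of_le (fun _ => abs_nonneg _) (fun n => ?_)
          ((summable_abs f).mul_left C)
        rw [abs_mul]
        exact mul_le_mul_of_nonneg_right (hm n) (abs_nonneg _))
      map_add' := fun f g => ext' fun n => by simp [mul_add]
      map_smul' := fun c f => ext' fun n => by simp; ring } C (by
      intro f
      simp only [LinearMap.coe_mk, AddHom.coe_mk]
      rw [norm_eq, norm_eq, ← tsum_mul_left]
      have h1 : Summable fun n => |mk (fun n => m n * f n) (by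
        apply Summable.of_nonneg_of_le (fun _ => abs_nonneg _) (fun n => ?_)
          ((summable_abs f).mul_left C)
        rw [abs_mul]
        exact mul_le_mul_of_nonneg_right (hm n) (abs_nonneg _)) n| := summable_abs _
      refine h1.tsum_le_tsum (fun n => ?_) ((summable_abs f).mul_left C)
      simp only [mk_apply]
      rw [abs_mul]
      exact mul_le_mul_of_nonneg_right (hm n) (abs_nonneg _))

@[simp] theorem mul_apply (m : ℤ → ℝ) (C : ℝ) (hm : ∀ n, |m n| ≤ C) (f : E) (n : ℤ) :
    mul m C hm f n = m n * f n := rfl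

/-- reindexing along a bijection -/
noncomputable def reix (e : ℤ ≃ ℤ) : E →L[ℝ] E :=
  LinearMap.mkContinuous
    { toFun := fun f => mk (fun n => f (e n)) ((e.summable_iff (f := fun n => |f n|)).2
        (summable_abs f))
      map_add' := fun f g => ext' fun n => by simp
      map_smul' := fun c f => ext' fun n => by simp } 1 (by
      intro f
      simp only [LinearMap.coe_mk, AddHom.coe_mk, one_mul]
      rw [norm_eq, norm_eq]
      simp only [mk_apply]
      exact le_of_eq (e.tsum_eq (fun n => |f n|)))

@[simp] theorem reix_apply (e : ℤ ≃ ℤ) (f : E) (n : ℤ) : reix e f n = f (e n) := rfl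

theorem norm_reix_apply (e : ℤ ≃ ℤ) (f : E) : ‖reix e f‖ = ‖f‖ := by
  rw [norm_eq, norm_eq]
  simp only [reix_apply]
  exact (e.tsum_eq (fun n => |f n|))

theorem norm_reix_le (e : ℤ ≃ ℤ) : ‖reix e‖ ≤ 1 := by
  apply ContinuousLinearMap.opNorm_le_bound _ zero_le_one
  intro f
  rw [norm_reix_apply, one_mul]

/-- reflection -/
noncomputable def R : E →L[ℝ] E := reix (Equiv.neg ℤ)

@[simp] theorem R_apply (f : E) (n : ℤ) : R f n = f (-n) := rfl

/-- shift operator, `(sh k f) n = f (n - k)` -/
noncomputable def sh (k : ℤ) : E →L[ℝ] E := reix (Equiv.subRight k)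

@[simp] theorem sh_apply (k : ℤ) (f : E) (n : ℤ) : sh k f n = f (n - k) := rfl

theorem norm_sh_le (k : ℤ) : ‖sh k‖ ≤ 1 := norm_reix_le _

/-- convolution product -/
noncomputable def cv : E →L[ℝ] E →L[ℝ] E := lift (fun k => sh k) 1 norm_sh_le

/-- evaluation of the Fourier series -/
noncomputable def ev (t : ℝ) : E →L[ℝ] ℂ :=
  lift (fun n => Complex.exp ((n * t : ℝ) * Complex.I)) 1 (fun n => by
    rw [Complex.norm_exp_ofReal_mul_I])

theorem ev_apply (t : ℝ) (f : E) :
    ev t f = ∑' n, (f n) • Complex.exp ((n * t : ℝ) * Complex.I) := rfl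

theorem ev_dl (t : ℝ) (n : ℤ) : ev t (dl n) = Complex.exp ((n * t : ℝ) * Complex.I) :=
  lift_dl _ _ _ n

theorem norm_ev_le (t : ℝ) (f : E) : ‖ev t f‖ ≤ ‖f‖ := by
  rw [ev_apply, norm_eq]
  apply tsum_of_norm_bounded (summable_abs f).hasSum
  intro n
  rw [norm_smul, Complex.norm_exp_ofReal_mul_I, mul_one, Real.norm_eq_abs]

/-- every element is the sum of its coordinates times the basis sequences -/
theorem hasSum_dl (f : E) : HasSum (fun n => f n • dl n) f := by
  have := lp.hasSum_single (p := 1) (by simp) f
  convert this using 2 with n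
  ext m
  simp only [dl, smul_app]
  by_cases h : m = n
  · subst h; simp
  · rw [lp.single_apply_ne _ _ _ h, lp.single_apply_ne _ _ _ h]; simp

/-- two bounded linear maps agreeing on basis sequences are equal -/
theorem clm_ext {F : Type*} [NormedAddCommGroup F] [NormedSpace ℝ F]
    {A B : E →L[ℝ] F} (h : ∀ n, A (dl n) = B (dl n)) : A = B := by
  ext1 f
  have h1 := (hasSum_dl f).mapL A
  have h2 := (hasSum_dl f).mapL B
  simp only [map_smul, h] at h1 h2
  exact h1.unique h2

@[simp] theorem sh_dl (k n : ℤ) : sh k (dl n) = dl (n + k) := by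
  apply ext'
  intro m
  simp only [sh_apply, dl_apply]
  congr 1
  simp only [eq_iff_iff]
  constructor <;> intro h <;> omega

@[simp] theorem cv_dl (k : ℤ) (f : E) : cv (dl k) f = sh k f := by
  have h : cv (dl k) = sh k := lift_dl _ _ _ k
  rw [h]

theorem cv_dl_dl (k n : ℤ) : cv (dl k) (dl n) = dl (k + n) := by
  rw [cv_dl, sh_dl, add_comm]

@[simp] theorem cv_dl_zero (f : E) : cv (dl 0) f = f := by
  rw [cv_dl]
  apply ext'; intro n; simp

theorem ev_sh (t : ℝ) (k : ℤ) (f : E) :
    ev t (sh k f) = Complex.exp ((k * t : ℝ) * Complex.I) * ev t f := by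
  have : (ev t).comp (sh k) =
      (ContinuousLinearMap.mul ℝ ℂ (Complex.exp ((k * t : ℝ) * Complex.I))).comp (ev t) := by
    apply clm_ext
    intro n
    simp only [ContinuousLinearMap.comp_apply, sh_dl, ev_dl, ContinuousLinearMap.mul_apply']
    rw [← Complex.exp_add]
    congr 1
    push_cast
    ring
  exact DFunLike.congr_fun this f

/-- evaluation is multiplicative -/
theorem ev_cv (t : ℝ) (f g : E) : ev t (cv f g) = ev t f * ev t g := by
  have : ((ContinuousLinearMap.compL ℝ E E ℂ (ev t)).comp cv).flip g =
      (ContinuousLinearMap.mul ℝ ℂ).flip (ev t g) ∘L (ev t) := by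
    apply clm_ext
    intro n
    simp only [ContinuousLinearMap.flip_apply, ContinuousLinearMap.comp_apply,
      ContinuousLinearMap.compL_apply, cv_dl, ContinuousLinearMap.mul_apply', ev_sh, ev_dl]
  have h2 := DFunLike.congr_fun this f
  simp only [ContinuousLinearMap.flip_apply, ContinuousLinearMap.comp_apply,
      ContinuousLinearMap.compL_apply, ContinuousLinearMap.mul_apply'] at h2
  exact h2

theorem ev_R (t : ℝ) (f : E) : ev t (R f) = (starRingEnd ℂ) (ev t f) := by
  have : (ev t).comp R = (Complex.conjCLE : ℂ →L[ℝ] ℂ).comp (ev t) := by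
    apply clm_ext
    intro n
    have hR : R (dl n) = dl (-n) := by
      apply ext'; intro m
      simp only [R_apply, dl_apply]
      congr 1
      simp only [eq_iff_iff]
      constructor <;> intro h <;> omega
    simp only [ContinuousLinearMap.comp_apply, hR, ev_dl]
    simp only [ContinuousLinearEquiv.coe_coe, Complex.conjCLE_apply]
    rw [← Complex.exp_conj]
    congr 1
    simp
  exact DFunLike.congr_fun this f

end Pool.Agent.FourBody
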