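import Pool.Agent.MP_7235ad_an.Gmap

set_option autoImplicit false
set_option linter.unusedSimpArgs false
set_option linter.unusedVariables false

namespace Pool.Agent.FourBody

open Complex

/-- the third of a full turn -/
noncomputable def th : ℝ := 2 * Real.pi / 3
/-- primitive cube root of unity -/
noncomputable def ze : ℂ := ⟨-1 / 2, Real.sqrt 3 / 2⟩
/-- imaginary unit times root of three -/
noncomputable def rt : ℂ := ⟨0, Real.sqrt 3⟩

theorem sqrt3_sq : Real.sqrt 3 * Real.sqrt 3 = 3 := Real.mul_self_sqrt (by norm_num)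

theorem ze_sq : ze ^ 2 = -1 - ze := by
  apply Complex.ext
  · simp [ze, sq]; nlinarith [sqrt3_sq]
  · simp [ze, sq]; ring

theorem ze_cube : ze ^ 3 = 1 := by
  linear_combination (ze - 1) * ze_sq

theorem rt_eq : rt = 2 * ze + 1 := by
  apply Complex.ext
  · simp [ze, rt]; norm_num
  · simp [ze, rt]; ring

theorem ze_ne : ze ≠ 0 := by
  intro h
  have := ze_cube
  rw [h] at this
  norm_num at this

theorem norm_ze : ‖ze‖ = 1 := by
  have : ‖ze‖ ^ 3 = 1 := by rw [← norm_pow, ze_cube, norm_one]
  have h0 : 0 ≤ ‖ze‖ := norm_nonneg _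
  nlinarith [sq_nonneg (‖ze‖ - 1), sq_nonneg (‖ze‖ + 1)]

theorem exp_th : Complex.exp ((-th : ℝ) * I) = ze ^ 2 := by
  rw [Complex.exp_mul_I, ← Complex.ofReal_cos, ← Complex.ofReal_sin, Real.cos_neg, Real.sin_neg]
  have h1 : th = Real.pi - Real.pi / 3 := by unfold th; ring
  rw [h1, Real.cos_pi_sub, Real.sin_pi_sub, Real.cos_pi_div_three, Real.sin_pi_div_three, ze_sq]
  apply Complex.ext
  · simp [ze]; norm_num
  · simp [ze]

theorem exp_nth (n : ℤ) : Complex.exp ((n * (-th) : ℝ) * I) =
    if n % 3 = 0 then 1 else if n % 3 = 1 then ze ^ 2 else ze := by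
  have h1 : Complex.exp ((n * (-th) : ℝ) * I) = (ze ^ 2) ^ n := by
    rw [← exp_th, ← Complex.exp_int_mul]
    congr 1; push_cast; ring
  have h6 : (ze ^ 2) ^ 3 = 1 := by rw [← pow_mul, mul_comm, pow_mul, ze_cube, one_pow]
  have hne : ze ^ 2 ≠ 0 := pow_ne_zero _ ze_ne
  have h2 : (ze ^ 2) ^ n = (ze ^ 2) ^ (n % 3) := by
    conv_lhs => rw [← Int.emod_add_mul_ediv n 3]
    rw [zpow_add₀ hne, zpow_mul]
    have : (ze ^ 2) ^ (3 : ℤ) = 1 := by exact_mod_cast h6
    rw [this, one_zpow, mul_one]
  rw [h1, h2]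
  rcases (by omega : n % 3 = 0 ∨ n % 3 = 1 ∨ n % 3 = 2) with h | h | h
  · rw [h]; simp
  · rw [h]; simp
  · rw [h]; norm_num
    linear_combination ze * ze_cube

theorem ev_dl_sub (t : ℝ) (n : ℤ) :
    ev (t - th) (dl n) = ev t (dl n) * Complex.exp ((n * (-th) : ℝ) * I) := by
  rw [ev_dl, ev_dl, ← Complex.exp_add]
  congr 1; push_cast; ring

theorem ev_dl_sub2 (t : ℝ) (n : ℤ) :
    ev (t - 2 * th) (dl n) = ev t (dl n) * (Complex.exp ((n * (-th) : ℝ) * I)) ^ 2 := by
  rw [ev_dl, ev_dl, ← Complex.exp_nat_mul, ← Complex.exp_add]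
  congr 1; push_cast; ring

theorem P1_dl (n : ℤ) : P1 (dl n) = (i1 n) • dl n := by
  apply ext'; intro k
  simp only [P1_apply, smul_app, dl_apply]
  by_cases h : k = n
  · subst h; rfl
  · simp [h]
theorem P0_dl (n : ℤ) : P0 (dl n) = (i0 n) • dl n := by
  apply ext'; intro k
  simp only [P0_apply, smul_app, dl_apply]
  by_cases h : k = n
  · subst h; rfl
  · simp [h]
theorem Qm_dl (n : ℤ) : Qm (dl n) = (chi (1 - n)) • dl n := by
  apply ext'; intro k
  simp only [Qm_apply, smul_app, dl_apply]
  by_cases h : k = n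
  · subst h; rfl
  · simp [h]
theorem Qp_dl (n : ℤ) : Qp (dl n) = (chi n) • dl n := by
  apply ext'; intro k
  simp only [Qp_apply, smul_app, dl_apply]
  by_cases h : k = n
  · subst h; rfl
  · simp [h]

/-- multiplication by a complex number, as a real linear map -/
noncomputable def mc (c : ℂ) : ℂ →L[ℝ] ℂ := ContinuousLinearMap.mul ℝ ℂ c

@[simp] theorem mc_apply (c x : ℂ) : mc c x = c * x := rfl

theorem shift1 (t : ℝ) (X : E) :
    ev t X + ze * ev (t - th) X + ze ^ 2 * ev (t - 2 * th) X = 3 * ev t (P1 X) := by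
  have : ev t + (mc ze).comp (ev (t - th)) + (mc (ze ^ 2)).comp (ev (t - 2 * th))
      = (mc 3).comp ((ev t).comp P1) := by
    apply clm_ext; intro n
    simp only [add_apply, ContinuousLinearMap.comp_apply, mc_apply, ev_dl_sub, ev_dl_sub2, P1_dl,
      map_smul, exp_nth]
    rcases (by omega : n % 3 = 0 ∨ n % 3 = 1 ∨ n % 3 = 2) with h | h | h
    · simp only [h, i1]
      norm_num
      linear_combination (ev t (dl n)) * ze_sq
    · simp only [h, i1]
      norm_num
      linear_combination (ev t (dl n)) * (2 + ze ^ 3) * ze_cube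
    · simp only [h, i1]
      norm_num
      linear_combination (ev t (dl n)) * (1 + ze ^ 2 - ze) * ze_sq
  exact DFunLike.congr_fun this X

theorem shift0 (t : ℝ) (X : E) :
    ev t X + ev (t - th) X + ev (t - 2 * th) X = 3 * ev t (P0 X) := by
  have : ev t + (ev (t - th)) + (ev (t - 2 * th))
      = (mc 3).comp ((ev t).comp P0) := by
    apply clm_ext; intro n
    simp only [add_apply, ContinuousLinearMap.comp_apply, mc_apply, ev_dl_sub, ev_dl_sub2, P0_dl,
      map_smul, exp_nth]
    rcases (by omega : n % 3 = 0 ∨ n % 3 = 1 ∨ n % 3 = 2) with h | h | h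
    · simp only [h, i0]
      norm_num
      ring
    · simp only [h, i0]
      norm_num
      linear_combination (ev t (dl n)) * (1 + ze ^ 2 - ze) * ze_sq
    · simp only [h, i0]
      norm_num
      linear_combination (ev t (dl n)) * ze_sq
  exact DFunLike.congr_fun this X

theorem shiftQ (t : ℝ) (X : E) :
    ze * ev (t - th) X - ze ^ 2 * ev (t - 2 * th) X = rt * ev t (Qm X) := by
  have : (mc ze).comp (ev (t - th)) - (mc (ze ^ 2)).comp (ev (t - 2 * th))
      = (mc rt).comp ((ev t).comp Qm) := by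
    apply clm_ext; intro n
    simp only [add_apply, sub_apply, ContinuousLinearMap.comp_apply, mc_apply, ev_dl_sub, ev_dl_sub2, Qm_dl,
      map_smul, exp_nth, rt_eq]
    rcases (by omega : n % 3 = 0 ∨ n % 3 = 1 ∨ n % 3 = 2) with h | h | h
    · have h' : (1 - n) % 3 = 1 := by omega
      simp only [h, chi, h']
      norm_num
      linear_combination (-ev t (dl n)) * ze_sq
    · have h' : (1 - n) % 3 = 0 := by omega
      simp only [h, chi, h']
      norm_num
      linear_combination (-ev t (dl n)) * (ze ^ 3) * ze_cube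
    · have h' : (1 - n) % 3 = 2 := by omega
      simp only [h, chi, h']
      norm_num
      linear_combination (ev t (dl n)) * (1 - (ze ^ 2 - ze)) * ze_sq
  exact DFunLike.congr_fun this X

theorem shiftQ' (t : ℝ) (X : E) :
    ev (t - th) X - ev (t - 2 * th) X = -rt * ev t (Qp X) := by
  have : (ev (t - th)) - (ev (t - 2 * th))
      = (mc (-rt)).comp ((ev t).comp Qp) := by
    apply clm_ext; intro n
    simp only [add_apply, sub_apply, ContinuousLinearMap.comp_apply, mc_apply, ev_dl_sub, ev_dl_sub2, Qp_dl,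
      map_smul, exp_nth, rt_eq]
    rcases (by omega : n % 3 = 0 ∨ n % 3 = 1 ∨ n % 3 = 2) with h | h | h
    · simp only [h, chi]
      norm_num
    · simp only [h, chi]
      norm_num
      linear_combination (ev t (dl n)) * (1 - (ze ^ 2 - ze)) * ze_sq
    · simp only [h, chi]
      norm_num
      linear_combination (-ev t (dl n)) * ze_sq
  exact DFunLike.congr_fun this X

theorem ev_periodic (t : ℝ) (X : E) : ev (t - 3 * th) X = ev t X := by
  have : ev (t - 3 * th) = ev t := by
    apply clm_ext; intro n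
    have h1 : t - 3 * th = (t - 2 * th) - th := by ring
    rw [h1, ev_dl_sub, ev_dl_sub2, exp_nth]
    rcases (by omega : n % 3 = 0 ∨ n % 3 = 1 ∨ n % 3 = 2) with h | h | h
    · simp [h]
    · simp only [h]; norm_num
      linear_combination (ev t (dl n)) * (ze ^ 3 + 1) * ze_cube
    · simp only [h]; norm_num
      linear_combination (ev t (dl n)) * ze_cube
  rw [this]

/-- termwise differentiation -/
theorem hasDerivAt_ev (a b : E) (h : ∀ n : ℤ, b n = n * a n) (t : ℝ) :
    HasDerivAt (fun t => ev t a) (I * ev t b) t := by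
  have key : HasDerivAt (fun t : ℝ => ∑' n : ℤ, (a n) • Complex.exp ((n * t : ℝ) * I))
      (∑' n : ℤ, (a n) • (Complex.exp ((n * t : ℝ) * I) * (n * I))) t := by
    refine hasDerivAt_tsum (𝕜 := ℝ) (u := fun n => |b n|)
      (g := fun (n : ℤ) (t : ℝ) => (a n) • Complex.exp ((n * t : ℝ) * I))
      (g' := fun (n : ℤ) (t : ℝ) => (a n) • (Complex.exp ((n * t : ℝ) * I) * (n * I)))
      (summable_abs b) (y₀ := 0) ?_ ?_ ?_ t
    · intro n y
      have h1 : HasDerivAt (fun y : ℝ => ((n * y : ℝ) : ℂ) * I) (n * I) y := by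
        have h2 : HasDerivAt (fun y : ℝ => (n * y : ℝ)) (n : ℝ) y := by
          simpa using (hasDerivAt_id y).const_mul (n : ℝ)
        have h3 := h2.ofReal_comp
        have h4 := h3.mul_const I
        simpa using h4
      have h5 := h1.cexp
      exact h5.const_smul (a n)
    · intro n y
      rw [norm_smul, norm_mul, Complex.norm_exp_ofReal_mul_I, one_mul, norm_mul, Complex.norm_I,
        mul_one, Real.norm_eq_abs, h n, abs_mul, mul_comm]
      simp
    · have := (summable_smul (fun n : ℤ => Complex.exp ((n * (0:ℝ) : ℝ) * I)) 1 (fun n => by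
        rw [Complex.norm_exp_ofReal_mul_I]) a)
      exact this
  have e2 : (∑' n : ℤ, (a n) • (Complex.exp ((n * t : ℝ) * I) * (n * I))) = I * ev t b := by
    rw [ev_apply, ← tsum_mul_left]
    congr 1; ext n
    rw [h n]
    simp only [Complex.real_smul]
    push_cast
    ring
  rw [e2] at key
  exact key

theorem continuous_ev (a : E) : Continuous (fun t => ev t a) := by
  have : (fun t => ev t a) = fun t : ℝ => ∑' n : ℤ, (a n) • Complex.exp ((n * t : ℝ) * I) := rfl
  rw [this]
  apply continuous_tsum (u := fun n => |a n|)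
  · intro n; fun_prop
  · exact summable_abs a
  · intro n t
    rw [norm_smul, Complex.norm_exp_ofReal_mul_I, mul_one, Real.norm_eq_abs]

theorem deriv_Km (f : E) (t : ℝ) : HasDerivAt (fun t => ev t (Km f)) (I * ev t (N1 f)) t := by
  apply hasDerivAt_ev
  intro n; simp only [N1_apply, Km_apply]; ring

theorem deriv_N1 (f : E) (t : ℝ) : HasDerivAt (fun t => ev t (N1 f)) (I * ev t (N2 f)) t := by
  apply hasDerivAt_ev
  intro n; simp only [N1_apply, N2_apply]; ring

/-- even sequences have real Fourier series -/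
theorem ev_even {X : E} (h : R X = X) (t : ℝ) : ((ev t X).re : ℂ) = ev t X := by
  have := ev_R t X
  rw [h] at this
  exact Complex.conj_eq_iff_re.1 this.symm

theorem ev_odd {X : E} (h : R X = -X) (t : ℝ) : (((ev t X).im : ℂ)) * I = ev t X := by
  have := ev_R t X
  rw [h, map_neg] at this
  have h1 : (ev t X).re = 0 := by
    have := congrArg Complex.re this
    simp at this
    linarith
  apply Complex.ext <;> simp [h1]

end Pool.Agent.FourBody
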