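import Pool.Agent.MP_7235ad_an.Point2
import Pool.Agent.MP_7235ad_an.Deriv

set_option autoImplicit false
set_option linter.unusedSimpArgs false
set_option linter.unusedVariables false

namespace Pool.Agent.FourBody

open Complex

/-- first order part of the cross product of two planets -/
noncomputable def XX (f : E) : E := (3 : ℝ) • P1 (Km f) - Km f
noncomputable def Psi1 (e : ℝ) (f : E) : E :=
  (-(Real.sqrt 3 / 4)) • (R (XX f) + XX f - qu f - R (qu f)
    + e • (cv (R (XX f)) (qu f) + cv (XX f) (R (qu f))))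

theorem ev_XX (e : ℝ) (f : E) (t : ℝ) :
    -1 + e * ev t (XX f) = ze * Uf e f (t - th) + ze ^ 2 * Uf e f (t - 2 * th) := by
  have h1 := shift1 t (dl 0 + e • Km f)
  simp only [map_add, map_smul, P1_zero, ev_zero, Complex.real_smul, map_zero] at h1
  rw [Uf_eq, Uf_eq]
  unfold XX
  rw [map_sub, map_smul, Complex.real_smul]
  push_cast
  linear_combination (-1 : ℂ) * h1

/-- planar cross product -/
noncomputable def cr (a b : ℂ) : ℝ := a.re * b.im - a.im * b.re

theorem cr_eq (a b : ℂ) : ((cr a b : ℝ) : ℂ) * (-(2 * I)) = a * (starRingEnd ℂ) b - (starRingEnd ℂ) a * b := by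
  apply Complex.ext
  · simp [cr]
  · simp [cr]; ring

theorem cr_mul (c a b : ℂ) (h : ‖c‖ = 1) : cr (c * a) (c * b) = cr a b := by
  have h1 : c.re * c.re + c.im * c.im = 1 := by
    have := Complex.normSq_apply c
    rw [← this, Complex.normSq_eq_norm_sq, h]; norm_num
  unfold cr
  simp only [Complex.mul_re, Complex.mul_im]
  linear_combination (a.re * b.im - a.im * b.re) * h1

theorem cr_sum (a b : ℂ) : cr a b = -(1 / 2) * cr (a + b) (a - b) := by
  unfold cr; simp only [Complex.add_re, Complex.add_im, Complex.sub_re, Complex.sub_im]; ring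

theorem cr_rt (a b : ℂ) : ((cr a (rt * b) : ℝ) : ℂ) =
    (Real.sqrt 3 / 2 : ℝ) * (a * (starRingEnd ℂ) b + (starRingEnd ℂ) a * b) := by
  apply Complex.ext
  · simp [cr, rt]; ring
  · simp [cr, rt]; ring

theorem ev_Psi1 (e : ℝ) (f : E) (t : ℝ) :
    ev t ((Real.sqrt 3 / 2) • dl 0 + e • Psi1 e f) = (Real.sqrt 3 / 2 : ℝ) + e *
      ((-(Real.sqrt 3 / 4) : ℝ) * ((starRingEnd ℂ) (ev t (XX f)) + ev t (XX f) - ev t (qu f)
        - (starRingEnd ℂ) (ev t (qu f)) + e * ((starRingEnd ℂ) (ev t (XX f)) * ev t (qu f)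
          + ev t (XX f) * (starRingEnd ℂ) (ev t (qu f))))) := by
  unfold Psi1
  rw [map_add, map_smul, map_smul, map_smul, map_add, map_sub, map_sub, map_add, map_smul, map_add,
    ev_zero, ev_cv, ev_cv, ev_R, ev_R]
  simp only [Complex.real_smul, mul_one]

/-- the cross product of planets one and two -/
theorem cross12 (e : ℝ) (f : E) (t : ℝ) :
    ((cr (ze * Uf e f (t - th)) (ze ^ 2 * Uf e f (t - 2 * th)) : ℝ) : ℂ) =
      ev t ((Real.sqrt 3 / 2) • dl 0 + e • Psi1 e f) := by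
  rw [cr_sum, ← ev_XX, ← rel3, Complex.ofReal_mul, cr_rt, ev_Psi1]
  simp only [Complex.real_smul, map_add, map_mul, map_neg, map_one, Complex.conj_ofReal]
  push_cast
  ring

/-- the volume as a Fourier series -/
theorem vol_eq (e : ℝ) (f g : E) (t : ℝ) :
    ((Zf e g t * ((ze * Uf e f (t - th)).re * (ze ^ 2 * Uf e f (t - 2 * th)).im
        - (ze * Uf e f (t - th)).im * (ze ^ 2 * Uf e f (t - 2 * th)).re)
      + Zf e g (t - th) * ((ze ^ 2 * Uf e f (t - 2 * th)).re * (Uf e f t).im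
        - (ze ^ 2 * Uf e f (t - 2 * th)).im * (Uf e f t).re)
      + Zf e g (t - 2 * th) * ((Uf e f t).re * (ze * Uf e f (t - th)).im
        - (Uf e f t).im * (ze * Uf e f (t - th)).re) : ℝ) : ℂ) =
    3 * ev t (P0 (cv (e • Km (sy g)) ((Real.sqrt 3 / 2) • dl 0 + e • Psi1 e f))) := by
  rw [← shift0, ev_cv, ev_cv, ev_cv, ← cross12, ← cross12, ← cross12]
  have h0 : ∀ t, ev t (e • Km (sy g)) = ((Zf e g t : ℝ) : ℂ) := by
    intro t; rw [Zf_eq, map_smul, Complex.real_smul]
  rw [h0, h0, h0]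
  rw [Uf_per2, Uf_per3, Uf_per4, Uf_per5]
  have c1 : cr (ze * Uf e f (t - 2 * th)) (ze ^ 2 * Uf e f t)
      = cr (ze ^ 2 * Uf e f (t - 2 * th)) (Uf e f t) := by
    rw [← cr_mul ze _ _ norm_ze]
    congr 1
    · ring
    · linear_combination (Uf e f t) * ze_cube
  have c2 : cr (ze * Uf e f t) (ze ^ 2 * Uf e f (t - th))
      = cr (Uf e f t) (ze * Uf e f (t - th)) := by
    rw [← cr_mul (ze ^ 2) _ _ (by rw [norm_pow, norm_ze, one_pow])]
    congr 1
    · linear_combination (Uf e f t) * ze_cube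
    · linear_combination (ze * Uf e f (t - th)) * ze_cube
  rw [c1, c2]
  unfold cr
  push_cast
  ring

end Pool.Agent.FourBody
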